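import Pool.Agent.P.MP_16b5eb_nt.QA

/-! The coordinate ring of the curve w^2 + w = X^5 over the rationals: ideals, norms, classes. -/

namespace Pool.Agent.P.MP_440ce3_nt

open Polynomial
open scoped nonZeroDivisors

/-- Degree of the norm form when the second entry is not zero. -/
theorem nf_natDegree {k : Type*} [Field k] (A B : k[X]) (hB : B ≠ 0) :
    (A ^ 2 - A * B - X ^ 5 * B ^ 2).natDegree = max (2 * A.natDegree) (2 * B.natDegree + 5) := by
  have h1 : (X ^ 5 * B ^ 2 : k[X]).natDegree = 2 * B.natDegree + 5 := by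
    rw [natDegree_mul (pow_ne_zero _ X_ne_zero) (pow_ne_zero _ hB), natDegree_pow, natDegree_pow,
      natDegree_X]
    omega
  have h2 : (A ^ 2).natDegree = 2 * A.natDegree := natDegree_pow _ _
  have h3 : (A * B).natDegree ≤ A.natDegree + B.natDegree := natDegree_mul_le
  rcases lt_or_ge (2 * A.natDegree) (2 * B.natDegree + 5) with h | h
  · have h4 := natDegree_sub_le (A ^ 2) (A * B)
    rw [natDegree_sub_eq_right_of_natDegree_lt (by omega), h1]
    omega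
  · have h4 := natDegree_add_le (A * B) (X ^ 5 * B ^ 2)
    rw [sub_sub, natDegree_sub_eq_left_of_natDegree_lt (by omega), h2]
    omega

theorem nf_eq_zero {k : Type*} [Field k] {A B : k[X]}
    (h : A ^ 2 - A * B - X ^ 5 * B ^ 2 = 0) : A = 0 ∧ B = 0 := by
  by_cases hB : B = 0
  · subst hB
    exact ⟨by simpa using h, rfl⟩
  · have := nf_natDegree A B hB
    rw [h, natDegree_zero] at this
    omega

theorem nf_natDegree_le {k : Type*} [Field k] (A B : k[X]) (m : ℕ) :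
    (A ^ 2 - A * B - X ^ 5 * B ^ 2).natDegree ≤ m ↔
      2 * A.natDegree ≤ m ∧ (B = 0 ∨ 2 * B.natDegree + 5 ≤ m) := by
  by_cases hB : B = 0
  · subst hB
    simp [natDegree_pow]
  · rw [nf_natDegree A B hB]
    simp [hB]

/-- The ring of functions A + B w with w^2 + w = X^5. -/
abbrev R := QuadraticAlgebra ℚ[X] (X ^ 5) (-1)

theorem noRoot : MP_16b5eb_nt.NoRoot (X ^ 5 : ℚ[X]) (-1) := fun c h => by
  have := (nf_eq_zero (A := c) (B := 1) (by linear_combination h)).2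
  exact one_ne_zero this

theorem nonSing : MP_16b5eb_nt.NonSing (X ^ 5 : ℚ[X]) (-1) := fun π c hπ h1 h2 => by
  obtain ⟨s, hs⟩ := h1
  obtain ⟨t, ht⟩ := h2
  have h3 : (4 * X ^ 5 + 1 : ℚ[X]) = π ^ 2 * (s ^ 2 - 4 * t) := by
    linear_combination (2 * c - 1 + π * s) * hs - 4 * ht
  have h4 := congrArg derivative h3
  have h5 : π ∣ C 20 * X ^ 4 := by
    refine ⟨2 * derivative π * (s ^ 2 - 4 * t) + π * derivative (s ^ 2 - 4 * t), ?_⟩
    simp only [derivative_add, derivative_mul, derivative_pow, derivative_X, derivative_one,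
      derivative_ofNat, map_natCast] at h4
    rw [map_ofNat]
    push_cast at h4
    linear_combination h4
  have h6 : π ∣ X := by
    rcases hπ.dvd_or_dvd h5 with h | h
    · exact absurd (isUnit_of_dvd_unit h (isUnit_C.mpr (by norm_num))) hπ.not_isUnit
    · exact hπ.dvd_of_dvd_pow h
  obtain ⟨r, hr⟩ := h6
  refine hπ.not_dvd_one ⟨π * (s ^ 2 - 4 * t) - 4 * r * X ^ 4, ?_⟩
  linear_combination h3 - 4 * X ^ 4 * hr

instance : IsDomain R := MP_16b5eb_nt.isDomain_qa noRoot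
instance : IsDedekindDomain R := MP_16b5eb_nt.isDedekind_qa nonSing noRoot

/-- The inclusion of polynomials. -/
noncomputable abbrev ι : ℚ[X] →+* R := algebraMap ℚ[X] R
/-- The norm. -/
noncomputable abbrev nrm : R →* ℚ[X] := QuadraticAlgebra.norm

theorem nrm_eq (h : R) : nrm h = h.re ^ 2 - h.re * h.im - X ^ 5 * h.im ^ 2 := by
  rw [QuadraticAlgebra.norm_def]; ring

theorem nrm_ne_zero {h : R} (h0 : h ≠ 0) : nrm h ≠ 0 := MP_16b5eb_nt.norm_ne_zero noRoot h0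

theorem nrm_le (h : R) (m : ℕ) : (nrm h).natDegree ≤ m ↔
    2 * h.re.natDegree ≤ m ∧ (h.im = 0 ∨ 2 * h.im.natDegree + 5 ≤ m) := by
  rw [nrm_eq, nf_natDegree_le]

theorem ι_nrm (h : R) : ι (nrm h) = h * star h := QuadraticAlgebra.algebraMap_norm_eq_mul_star h

theorem nrm_ι (a : ℚ[X]) : nrm (ι a) = a ^ 2 := QuadraticAlgebra.norm_algebraMap a

theorem star_ι (a : ℚ[X]) : star (ι a) = ι a := by ext1 <;> simp

theorem re_ι_mul (a : ℚ[X]) (h : R) : (ι a * h).re = a * h.re := by simp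

theorem im_ι_mul (a : ℚ[X]) (h : R) : (ι a * h).im = a * h.im := by simp

theorem ι_ne_zero {a : ℚ[X]} (ha : a ≠ 0) : ι a ≠ 0 := fun h =>
  ha (by simpa using congrArg QuadraticAlgebra.re h)

theorem ι_dvd_ι {a b : ℚ[X]} : ι a ∣ ι b ↔ a ∣ b := QuadraticAlgebra.algebraMap_dvd_iff_dvd

/-- The ideal (a, w - c). -/
noncomputable def J (a c : ℚ[X]) : Ideal R := Ideal.span {ι a, (⟨-c, 1⟩ : R)}

/-- The conjugate ideal. -/
noncomputable def cj (I : Ideal R) : Ideal R := I.map (starRingEnd R)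

/-- n is a norm of the ideal I. -/
def IsN (I : Ideal R) (n : ℚ[X]) : Prop := n ≠ 0 ∧ I * cj I = Ideal.span {ι n}

theorem ι_mem_J (a c : ℚ[X]) : ι a ∈ J a c := Ideal.subset_span (by simp)

theorem w_mem_J (a c : ℚ[X]) : (⟨-c, 1⟩ : R) ∈ J a c := Ideal.subset_span (by simp)

theorem mem_J_of_dvd {a c : ℚ[X]} {h : R} (hd : a ∣ h.re + h.im * c) : h ∈ J a c := by
  obtain ⟨s, hs⟩ := hd
  refine Ideal.mem_span_pair.mpr ⟨ι s, ι h.im, ?_⟩
  ext1
  · simp; linear_combination -hs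
  · simp

theorem mem_J {a c : ℚ[X]} (hd : a ∣ c ^ 2 + c - X ^ 5) {h : R} :
    h ∈ J a c ↔ a ∣ h.re + h.im * c := by
  refine ⟨fun hh => ?_, mem_J_of_dvd⟩
  obtain ⟨s, t, rfl⟩ := Ideal.mem_span_pair.mp hh
  obtain ⟨e, he⟩ := hd
  refine ⟨s.re + s.im * c - t.im * e, ?_⟩
  simp
  linear_combination (-t.im) * he

theorem J_ne_bot (a c : ℚ[X]) : J a c ≠ ⊥ := fun h => by
  have := w_mem_J a c
  rw [h, Ideal.mem_bot] at this
  simpa using congrArg QuadraticAlgebra.im this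

theorem J_congr {a c c' : ℚ[X]} (h : a ∣ c - c') : J a c = J a c' := by
  have key : ∀ c c' : ℚ[X], a ∣ c - c' → J a c ≤ J a c' := fun c c' h => by
    rw [J, Ideal.span_le]
    rintro z (rfl | rfl)
    · exact ι_mem_J a c'
    · refine mem_J_of_dvd ?_
      obtain ⟨s, hs⟩ := h
      exact ⟨-s, by simp; linear_combination -hs⟩
  exact le_antisymm (key _ _ h) (key _ _ (dvd_sub_comm.mp h))

theorem J_assoc {a a' : ℚ[X]} (h : Associated a a') (c : ℚ[X]) : J a c = J a' c := by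
  have key : ∀ a a' : ℚ[X], a' ∣ a → J a c ≤ J a' c := fun a a' h => by
    rw [J, Ideal.span_le]
    rintro z (rfl | rfl)
    · exact mem_J_of_dvd (by simpa using h)
    · exact w_mem_J a' c
  exact le_antisymm (key _ _ h.symm.dvd) (key _ _ h.dvd)

theorem J_unit {a : ℚ[X]} (h : IsUnit a) (c : ℚ[X]) : J a c = ⊤ :=
  Ideal.eq_top_of_isUnit_mem _ (ι_mem_J a c) (h.map ι)

theorem cj_mul (I K : Ideal R) : cj (I * K) = cj I * cj K := Ideal.map_mul _ _ _

theorem cj_cj (I : Ideal R) : cj (cj I) = I := by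
  rw [cj, cj, Ideal.map_map]
  have : (starRingEnd R).comp (starRingEnd R) = RingHom.id R := by
    ext1 z; simp
  rw [this, Ideal.map_id]

theorem cj_span (h : R) : cj (Ideal.span {h}) = Ideal.span {star h} := by
  rw [cj, Ideal.map_span, Set.image_singleton]; rfl

theorem star_mem_cj {I : Ideal R} {h : R} (hh : h ∈ I) : star h ∈ cj I :=
  Ideal.mem_map_of_mem (starRingEnd R) hh

theorem cj_ne_bot {I : Ideal R} (hI : I ≠ ⊥) : cj I ≠ ⊥ := fun h => by
  apply hI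
  rw [← cj_cj I, h, cj, Ideal.map_bot]

theorem cj_J (a c : ℚ[X]) : cj (J a c) = J a (-1 - c) := by
  have key : ∀ c : ℚ[X], cj (J a c) ≤ J a (-1 - c) := fun c => by
    rw [cj, Ideal.map_le_iff_le_comap, J, Ideal.span_le]
    rintro z (rfl | rfl)
    · have : star (ι a) ∈ J a (-1 - c) := by rw [star_ι]; exact ι_mem_J _ _
      exact this
    · have : star (⟨-c, 1⟩ : R) ∈ J a (-1 - c) := mem_J_of_dvd ⟨0, by simp; ring⟩
      exact this
  refine le_antisymm (key c) ?_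
  have h := Ideal.map_mono (f := starRingEnd R) (key (-1 - c))
  have h2 : (-1 - (-1 - c)) = c := by ring
  rw [h2] at h
  exact (cj_cj _).symm.le.trans h

/-- (a, w - c)(a', w - c) = (w - c) if a a' is the norm of w - c. -/
theorem J_mul_J {a a' c : ℚ[X]} (h : a * a' = c ^ 2 + c - X ^ 5) :
    J a c * J a' c = Ideal.span {(⟨-c, 1⟩ : R)} :=
  MP_16b5eb_nt.prim_mul nonSing noRoot (by rw [h]; ring)

theorem IsN.ne_bot {I : Ideal R} {n : ℚ[X]} (h : IsN I n) : I ≠ ⊥ := by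
  rintro rfl
  have h2 := h.2
  rw [Ideal.bot_mul, eq_comm, Ideal.span_singleton_eq_bot] at h2
  exact ι_ne_zero h.1 h2

theorem IsN.mul {I K : Ideal R} {n m : ℚ[X]} (h : IsN I n) (h' : IsN K m) : IsN (I * K) (n * m) :=
  ⟨mul_ne_zero h.1 h'.1, by
    rw [cj_mul, mul_mul_mul_comm, h.2, h'.2, Ideal.span_singleton_mul_span_singleton, map_mul]⟩

theorem IsN.span {h : R} (h0 : h ≠ 0) : IsN (Ideal.span {h}) (nrm h) :=
  ⟨nrm_ne_zero h0, by rw [cj_span, Ideal.span_singleton_mul_span_singleton, ι_nrm]⟩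

theorem IsN.conj {I : Ideal R} {n : ℚ[X]} (h : IsN I n) : IsN (cj I) n :=
  ⟨h.1, by rw [cj_cj, mul_comm, h.2]⟩

theorem IsN.assoc {I : Ideal R} {n m : ℚ[X]} (h : IsN I n) (h' : IsN I m) : Associated n m := by
  have := Ideal.span_singleton_eq_span_singleton.mp (h.2.symm.trans h'.2)
  exact associated_of_dvd_dvd (ι_dvd_ι.mp this.dvd) (ι_dvd_ι.mp this.symm.dvd)

theorem IsN.of_assoc {I : Ideal R} {n m : ℚ[X]} (h : IsN I n) (h' : Associated n m) : IsN I m :=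
  ⟨h'.ne_zero_iff.mp h.1, by
    rw [h.2]; exact Ideal.span_singleton_eq_span_singleton.mpr (h'.map ι)⟩

theorem assoc_iff {n m : ℚ[X]} : Associated n m ↔ ∃ κ : ℚ, κ ≠ 0 ∧ m = C κ * n := by
  constructor
  · rintro ⟨u, rfl⟩
    obtain ⟨κ, hκ, h⟩ := Polynomial.isUnit_iff.mp u.isUnit
    exact ⟨κ, hκ.ne_zero, by rw [h, mul_comm]⟩
  · rintro ⟨κ, hκ, rfl⟩
    exact (associated_unit_mul_left n _ (isUnit_C.mpr hκ.isUnit)).symm

theorem IsN.mem {I : Ideal R} {n : ℚ[X]} (h : IsN I n) : ι n ∈ I := by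
  have h1 : ι n ∈ I * cj I := by rw [h.2]; exact Ideal.mem_span_singleton_self _
  exact (Ideal.mul_le_inf h1).1

theorem IsN.dvd_nrm {I : Ideal R} {n : ℚ[X]} (h : IsN I n) {z : R} (hz : z ∈ I) : n ∣ nrm z := by
  have := Ideal.mul_mem_mul hz (star_mem_cj hz)
  rw [h.2, ← ι_nrm, Ideal.mem_span_singleton] at this
  exact ι_dvd_ι.mp this

theorem IsN.eq_top {I : Ideal R} {n : ℚ[X]} (h : IsN I n) (hn : IsUnit n) : I = ⊤ :=
  Ideal.eq_top_of_isUnit_mem _ h.mem (hn.map ι)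

theorem isN_J {a c : ℚ[X]} (hd : a ∣ c ^ 2 + c - X ^ 5) : IsN (J a c) a := by
  obtain ⟨a', ha'⟩ := hd
  have h0 : a * a' ≠ 0 := by
    rw [← ha']
    intro h
    exact one_ne_zero (nf_eq_zero (A := -c) (B := 1) (by linear_combination h)).2
  refine ⟨left_ne_zero_of_mul h0, ?_⟩
  have h1 := J_mul_J ha'.symm
  -- multiply by the nonzero ideal (a', w - c) and cancel
  apply mul_right_cancel₀ (J_ne_bot a' c)
  rw [mul_right_comm, h1, cj_J]
  have hs : (⟨-c, 1⟩ : R) * (⟨-(-1 - c), 1⟩ : R) = -(ι a * ι a') := by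
    ext1
    · simp; linear_combination -ha'
    · simp
  apply le_antisymm
  · rw [Ideal.span_singleton_mul_le_iff]
    intro z hz
    obtain ⟨s, t, rfl⟩ := Ideal.mem_span_pair.mp hz
    have : (⟨-c, 1⟩ : R) * (s * ι a + t * ⟨-(-1 - c), 1⟩) =
        ι a * (s * ⟨-c, 1⟩ - t * ι a') := by linear_combination t * hs
    rw [this]
    exact Ideal.mul_mem_mul (Ideal.mem_span_singleton_self _)
      (Ideal.sub_mem _ (Ideal.mul_mem_left _ _ (w_mem_J _ _)) (Ideal.mul_mem_left _ _ (ι_mem_J _ _)))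
  · rw [Ideal.span_singleton_mul_le_iff]
    intro z hz
    obtain ⟨s, t, rfl⟩ := Ideal.mem_span_pair.mp hz
    have : ι a * (s * ι a' + t * ⟨-c, 1⟩) =
        (⟨-c, 1⟩ : R) * (t * ι a - s * ⟨-(-1 - c), 1⟩) := by linear_combination s * hs
    rw [this]
    exact Ideal.mul_mem_mul (Ideal.mem_span_singleton_self _)
      (Ideal.sub_mem _ (Ideal.mul_mem_left _ _ (ι_mem_J _ _)) (Ideal.mul_mem_left _ _ (w_mem_J _ _)))

/-- Normal form of a nonzero ideal. -/
theorem hnf {I : Ideal R} (hI : I ≠ ⊥) : ∃ e a c : ℚ[X], e ≠ 0 ∧ a ∣ c ^ 2 + c - X ^ 5 ∧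
    I = Ideal.span {ι e} * J a c ∧ IsN I (e ^ 2 * a) := by
  obtain ⟨e, a, c, he, -, hd, h⟩ := MP_16b5eb_nt.hnf noRoot I hI
  have hd' : a ∣ (-c) ^ 2 + (-c) - X ^ 5 := by
    have : (-c) ^ 2 + (-c) - X ^ 5 = c ^ 2 + -1 * c - X ^ 5 := by ring
    rwa [this]
  have h' : I = Ideal.span {ι e} * J a (-c) := by rw [J, neg_neg]; exact h
  refine ⟨e, a, -c, he, hd', h', ?_⟩
  rw [h', ← nrm_ι]
  exact (IsN.span (ι_ne_zero he)).mul (isN_J hd')

theorem exists_isN {I : Ideal R} (hI : I ≠ ⊥) : ∃ n, IsN I n := by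
  obtain ⟨e, a, -, -, -, -, h⟩ := hnf hI
  exact ⟨_, h⟩

/-- A nonzero element of I gives a complementary ideal, with norms multiplying up to a constant. -/
theorem IsN.compl {I : Ideal R} {n : ℚ[X]} (hI : IsN I n) {h : R} (hh : h ∈ I) (h0 : h ≠ 0) :
    ∃ K m, IsN K m ∧ Ideal.span {h} = I * K ∧ nrm h = n * m := by
  obtain ⟨K, hK⟩ := Ideal.dvd_iff_le.mpr ((Ideal.span_singleton_le_iff_mem I).mpr hh)
  have hK0 : K ≠ ⊥ := by
    rintro rfl
    rw [Ideal.mul_bot, Ideal.span_singleton_eq_bot] at hK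
    exact h0 hK
  obtain ⟨m, hm⟩ := exists_isN hK0
  obtain ⟨κ, hκ, h1⟩ := assoc_iff.mp ((hK ▸ hI.mul hm : IsN (Ideal.span {h}) (n * m)).assoc
    (IsN.span h0))
  exact ⟨K, C κ * m, hm.of_assoc (assoc_iff.mpr ⟨κ, hκ, rfl⟩), hK, by rw [h1]; ring⟩

open Classical in
/-- The class of an ideal (1 for the zero ideal). -/
noncomputable def cl (I : Ideal R) : ClassGroup R :=
  if h : I ≠ ⊥ then ClassGroup.mk0 ⟨I, mem_nonZeroDivisors_iff_ne_zero.mpr h⟩ else 1

theorem cl_eq {I : Ideal R} (h : I ≠ ⊥) :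
    cl I = ClassGroup.mk0 ⟨I, mem_nonZeroDivisors_iff_ne_zero.mpr h⟩ := dif_pos h

theorem cl_mul {I K : Ideal R} (hI : I ≠ ⊥) (hK : K ≠ ⊥) : cl (I * K) = cl I * cl K := by
  rw [cl_eq hI, cl_eq hK, cl_eq (mul_ne_zero hI hK), ← map_mul]; rfl

theorem cl_eq_one_iff {I : Ideal R} (hI : I ≠ ⊥) : cl I = 1 ↔ ∃ h : R, I = Ideal.span {h} := by
  rw [cl_eq hI, ClassGroup.mk0_eq_one_iff]
  exact ⟨fun h => h.principal, fun h => ⟨h⟩⟩

theorem cl_span (h : R) : cl (Ideal.span {h}) = 1 := by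
  by_cases h0 : Ideal.span {h} = (⊥ : Ideal R)
  · rw [cl, dif_neg (by simpa using h0)]
  · exact (cl_eq_one_iff h0).mpr ⟨h, rfl⟩

theorem cl_top : cl ⊤ = 1 := by rw [← Ideal.span_singleton_one]; exact cl_span 1

theorem cl_surj (c : ClassGroup R) : ∃ I : Ideal R, I ≠ ⊥ ∧ cl I = c := by
  obtain ⟨⟨I, hI⟩, rfl⟩ := ClassGroup.mk0_surjective c
  exact ⟨I, mem_nonZeroDivisors_iff_ne_zero.mp hI, cl_eq (mem_nonZeroDivisors_iff_ne_zero.mp hI)⟩

theorem cl_cj {I : Ideal R} (hI : I ≠ ⊥) : cl (cj I) = (cl I)⁻¹ := by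
  obtain ⟨n, hn⟩ := exists_isN hI
  rw [eq_inv_iff_mul_eq_one, mul_comm, ← cl_mul hI (cj_ne_bot hI), hn.2, cl_span]

/-- If a product of two nonzero ideals is principal the classes are inverse. -/
theorem cl_of_span {I K : Ideal R} {h : R} (hI : I ≠ ⊥) (hK : K ≠ ⊥)
    (e : Ideal.span {h} = I * K) : cl I = cl (cj K) := by
  rw [cl_cj hK, eq_inv_iff_mul_eq_one, ← cl_mul hI hK, ← e, cl_span]

theorem span_of_cl_eq {I K : Ideal R} (hI : I ≠ ⊥) (hK : K ≠ ⊥) (e : cl I = cl K) :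
    ∃ g : R, g ≠ 0 ∧ I * cj K = Ideal.span {g} := by
  have h0 : I * cj K ≠ ⊥ := mul_ne_zero hI (cj_ne_bot hK)
  obtain ⟨g, hg⟩ := (cl_eq_one_iff h0).mp (by
    rw [cl_mul hI (cj_ne_bot hK), cl_cj hK, e, mul_inv_cancel])
  refine ⟨g, ?_, hg⟩
  rintro rfl
  exact h0 (by rw [hg, Ideal.span_singleton_eq_bot])

/-- An ideal of norm of degree at most 2 is principal or of the form (n, w - b). -/
theorem IsN.red2 {K : Ideal R} {n : ℚ[X]} (h : IsN K n) (hn : n.natDegree ≤ 2) :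
    cl K = 1 ∨ ∃ b : ℚ[X], n ∣ b ^ 2 + b - X ^ 5 ∧ b.degree < n.degree ∧ K = J n b := by
  obtain ⟨e, a, c, he, hd, hK, hN⟩ := hnf h.ne_bot
  have has := h.assoc hN
  have ha : a ≠ 0 := right_ne_zero_of_mul hN.1
  have hdeg : n.natDegree = 2 * e.natDegree + a.natDegree := by
    rw [natDegree_eq_natDegree (degree_eq_degree_of_associated has),
      natDegree_mul (pow_ne_zero _ he) ha, natDegree_pow]
  by_cases h0 : e.natDegree = 0
  · right
    have hu : IsUnit e := isUnit_iff_degree_eq_zero.mpr (by rw [degree_eq_natDegree he, h0]; rfl)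
    have has' : Associated n a := has.trans (associated_unit_mul_left a _ (hu.pow 2))
    have h1 : n ∣ c - c % n := ⟨c / n, by linear_combination -(EuclideanDomain.div_add_mod c n)⟩
    refine ⟨c % n, ?_, EuclideanDomain.mod_lt c h.1, ?_⟩
    · have h2 : (c % n) ^ 2 + c % n - X ^ 5 =
          c ^ 2 + c - X ^ 5 - (c - c % n) * (c + c % n + 1) := by ring
      rw [h2]
      exact dvd_sub (has'.dvd.trans hd) (h1.mul_right _)
    · rw [hK, Ideal.span_singleton_eq_top.mpr (hu.map ι), Ideal.top_mul, ← J_assoc has', J_congr h1]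
  · left
    have hu : IsUnit a := isUnit_iff_degree_eq_zero.mpr (by
      rw [degree_eq_natDegree ha, show a.natDegree = 0 by omega]; rfl)
    rw [hK, J_unit hu, Ideal.mul_top, cl_span]

/-- The ideal (X^j, w). -/
noncomputable def D (j : ℕ) : Ideal R := J (X ^ j) 0

/-- The class of the point (0, 0). -/
noncomputable def P0 : ClassGroup R := cl (D 1)

theorem D_ne_bot (j : ℕ) : D j ≠ ⊥ := J_ne_bot _ _

theorem D_dvd {j : ℕ} (hj : j ≤ 5) : (X ^ j : ℚ[X]) ∣ 0 ^ 2 + 0 - X ^ 5 := by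
  simpa using pow_dvd_pow X hj

theorem isN_D {j : ℕ} (hj : j ≤ 5) : IsN (D j) (X ^ j) := isN_J (D_dvd hj)

theorem mem_D {j : ℕ} (hj : j ≤ 5) {h : R} : h ∈ D j ↔ X ^ j ∣ h.re := by
  rw [D, mem_J (D_dvd hj)]; simp

theorem D_succ {j : ℕ} (hj : j + 1 ≤ 5) : D j * D 1 = D (j + 1) := by
  have h1 : D j * D 1 ≤ D (j + 1) := by
    rw [Ideal.mul_le]
    intro x hx y hy
    rw [mem_D (by omega)] at hx hy
    rw [mem_D hj, QuadraticAlgebra.re_mul, pow_succ]
    refine dvd_add (mul_dvd_mul hx (by simpa using hy)) ?_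
    rw [← pow_succ, mul_assoc]
    exact (pow_dvd_pow X hj).mul_right _
  obtain ⟨K, hK⟩ := Ideal.dvd_iff_le.mpr h1
  have hN := (isN_D (j := j) (by omega)).mul (isN_D (j := 1) (by omega))
  have hK0 : K ≠ ⊥ := by
    rintro rfl
    exact hN.ne_bot (by rw [hK, Ideal.mul_bot])
  obtain ⟨m, hm⟩ := exists_isN hK0
  have has := (hK ▸ hN).assoc ((isN_D hj).mul hm)
  rw [← pow_add] at has
  have hu : IsUnit m := by
    have h2 : Associated (X ^ (j + 1) * 1 : ℚ[X]) (X ^ (j + 1) * m) := by rwa [mul_one]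
    exact associated_one_iff_isUnit.mp
      (Associated.of_mul_left h2 (Associated.refl _) (pow_ne_zero _ X_ne_zero)).symm
  rw [hK, hm.eq_top hu, Ideal.mul_top]

theorem cl_D {j : ℕ} (hj : j ≤ 5) : cl (D j) = P0 ^ j := by
  induction j with
  | zero => rw [D, J_unit (by simp), cl_top, pow_zero]
  | succ j ih =>
    rw [← D_succ hj, cl_mul (D_ne_bot _) (D_ne_bot _), pow_succ P0, ← ih (by omega)]; rfl

theorem P0_pow_five : P0 ^ 5 = 1 := by
  have h := J_mul_J (a := X ^ 5) (a' := -1) (c := 0) (by ring)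
  rw [J_unit isUnit_one.neg, Ideal.mul_top] at h
  rw [← cl_D le_rfl, D, h, cl_span]

end Pool.Agent.P.MP_440ce3_nt
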