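import Pool.Agent.P.MP_440ce3_nt.A.Iface

/-! Step EVN of the Fermat quintic project. -/

namespace Pool.Agent.P.MP_440ce3_nt

open Polynomial NumberField IsDedekindDomain

theorem p_EVN (hLOC : S_LOC) :
    S_EVN := by
  intro a0 a1 b0 b1 d η t s π E1 E0 hη h0 hts hs hπ hπs
  by_contra h10
  let v : HeightOneSpectrum (𝓞 L) :=
    ⟨Ideal.span {π}, (Ideal.span_singleton_prime hπ.ne_zero).2 hπ, by simpa using hπ.ne_zero⟩
  let V := v.valuation L
  have hV : ∀ x : 𝓞 L, ¬ π ∣ x → V (x : L) = 1 := fun x hx =>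
    (v.valuation_le_one x).eq_of_not_lt fun h =>
      hx (Ideal.mem_span_singleton.1 ((v.valuation_lt_one_iff_mem x).1 h))
  have h2 : V 2 = 1 := by
    have := hV 2 fun h => h10 (h.trans ⟨5, by norm_num⟩)
    rwa [show ((2 : 𝓞 L) : L) = 2 from map_ofNat (algebraMap (𝓞 L) L) 2] at this
  have h5 : V 5 = 1 := by
    have := hV 5 fun h => h10 (h.trans ⟨2, by norm_num⟩)
    rwa [show ((5 : 𝓞 L) : L) = 5 from map_ofNat (algebraMap (𝓞 L) L) 5] at this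
  have hal : V al = 1 := by
    have : V al ^ 5 = 1 := by rw [← map_pow, al_pow, h2]
    exact (pow_eq_one_iff_of_nonneg zero_le (by norm_num)).1 this
  obtain ⟨θ, hθ⟩ : ∃ θ : L, θ = -(al ^ 2)⁻¹ := ⟨_, rfl⟩
  have ha := al_ne_zero
  have hθ1 : θ * al ^ 2 = -1 := by
    rw [hθ]
    field_simp
  have hθ5 : 4 * θ ^ 5 + 1 = 0 := by
    have : (θ * al ^ 2) ^ 5 = -1 := by
      rw [hθ1]
      norm_num
    linear_combination this - θ ^ 5 * (al ^ 5 + 2) * al_pow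
  have hVθ : V θ = 1 := by simp [hθ, hal]
  have h4 : V 4 = 1 := by rw [show (4 : L) = 2 * 2 by norm_num, map_mul, h2, one_mul]
  have h20 : V 20 = 1 := by rw [show (20 : L) = 4 * 5 by norm_num, map_mul, h4, h5, one_mul]
  have h40 : V 40 = 1 := by rw [show (40 : L) = 2 * 20 by norm_num, map_mul, h2, h20, one_mul]
  have F1 : -(a1 : L) * b1 ^ 2 + 2 * b0 * b1 + b1 = a1 ^ 4 - 3 * a1 ^ 2 * a0 + a0 ^ 2 := by
    exact_mod_cast congrArg (Rat.cast : ℚ → L) E1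
  have F0 : (b0 : L) ^ 2 + b0 - a0 * b1 ^ 2 = a0 * a1 ^ 3 - 2 * a1 * a0 ^ 2 := by
    exact_mod_cast congrArg (Rat.cast : ℚ → L) E0
  obtain ⟨z, hz⟩ := hLOC L _ V (20 * θ ^ 4) (40 * θ ^ 3) (40 * θ ^ 2) (20 * θ) 4
    (θ ^ 2 + a1 * θ + a0) (2 * θ + a1) (2 * b1 * θ + 2 * b0 + 1) (2 * b1)
    ((2 * b1) ^ 2 - 40 * θ ^ 3 - (θ ^ 2 + a1 * θ + a0) * (4 * (2 * θ + a1) - 20 * θ) -
      (2 * θ + a1) * (4 * (θ ^ 2 + a1 * θ + a0) - (2 * θ + a1) * (4 * (2 * θ + a1) - 20 * θ) -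
        40 * θ ^ 2))
    (4 * (θ ^ 2 + a1 * θ + a0) - (2 * θ + a1) * (4 * (2 * θ + a1) - 20 * θ) - 40 * θ ^ 2)
    (4 * (2 * θ + a1) - 20 * θ) (by simp [h20, hVθ]) (by simp [h40, hVθ]) (by simp [h40, hVθ])
    (by simp [h20, hVθ]) h4 (by linear_combination 4 * θ * F1 + 4 * F0 + hθ5)
    (by linear_combination 4 * F1) (by ring) (by ring) (by ring)
  have e1 : (η : L) = (d * al ^ 2) ^ 2 * (θ ^ 2 + a1 * θ + a0) := by
    rw [hη]
    linear_combination (-(d : L) ^ 2 * (θ * al ^ 2 - 1) - d ^ 2 * a1 * al ^ 2) * hθ1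
  obtain ⟨s', rfl⟩ := hπs
  have hs' : ¬ π ∣ s' := fun h => hπ.not_isUnit (hs π (mul_dvd_mul_left π h))
  have ht : (t : L) ≠ 0 := fun h => h0 (by
    rw [hts, RingOfIntegers.coe_eq_zero_iff.1 h]
    simp)
  have hVπ : V (π : L) = WithZero.exp (-1 : ℤ) := by
    rw [← v.intValuation_singleton hπ.ne_zero rfl]
    exact v.valuation_of_algebraMap π
  have e2 : (η : L) = (t : L) ^ 2 * (π * s') := by
    rw [hts]
    push_cast
    rfl
  have e3 : V (d * al ^ 2 * z / t) ^ 2 = WithZero.exp (-1 : ℤ) := by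
    have h := congrArg V (e1.symm.trans e2)
    rw [map_mul, hz, map_mul, map_mul, hV s' hs', hVπ, mul_one, map_pow V, map_pow V (t : L)] at h
    have h' : V (t : L) ≠ 0 := by simpa using ht
    rw [map_div₀, map_mul, div_pow, mul_pow, h, mul_div_cancel_left₀ _ (pow_ne_zero 2 h')]
  have e4 := congrArg WithZero.log e3
  rw [WithZero.log_pow, WithZero.log_exp, nsmul_eq_mul] at e4
  omega

end Pool.Agent.P.MP_440ce3_nt
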