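import Mathlib

/-! The field generated by a fifth root of 2. -/

namespace Pool.Agent.P.MP_440ce3_nt

open Polynomial NumberField

theorem irred_fL : Irreducible (X ^ 5 - C 2 : ℚ[X]) := by
  refine X_pow_sub_C_irreducible_of_prime (by norm_num) fun b hb => ?_
  have h := congrArg (padicValRat 2) hb
  have : Fact (Nat.Prime 2) := ⟨Nat.prime_two⟩
  rw [padicValRat.pow] at h
  have h2 : padicValRat 2 (2 : ℚ) = 1 := by
    have := padicValRat.self (p := 2) (by norm_num)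
    simpa using this
  rw [h2] at h
  omega

theorem irred_F : Irreducible (4 * X ^ 5 + 1 : ℚ[X]) := by
  have h1 : Irreducible (X ^ 5 - C (-(1 / 4)) : ℚ[X]) := by
    refine X_pow_sub_C_irreducible_of_prime (by norm_num) fun b hb => ?_
    have h2 : (2 * b ^ 2) ^ 5 = 2 := by rw [mul_pow, ← pow_mul, mul_comm 2 5, pow_mul, hb]; norm_num
    have h3 := irred_fL.not_isRoot_of_natDegree_ne_one (x := 2 * b ^ 2)
      (by rw [natDegree_X_pow_sub_C]; norm_num)
    exact h3 (by simp [h2])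
  have h4 : (4 * X ^ 5 + 1 : ℚ[X]) = C 4 * (X ^ 5 - C (-(1 / 4))) := by
    rw [mul_sub, ← C_mul, map_ofNat]; norm_num
  rw [h4]
  exact (irreducible_isUnit_mul (isUnit_C.mpr (by norm_num))).mpr h1

instance : Fact (Irreducible (X ^ 5 - C 2 : ℚ[X])) := ⟨irred_fL⟩

/-- The field. -/
def L : Type := AdjoinRoot (X ^ 5 - C 2 : ℚ[X])

noncomputable instance : Field L := inferInstanceAs (Field (AdjoinRoot (X ^ 5 - C 2 : ℚ[X])))

instance : NumberField L := inferInstanceAs (NumberField (AdjoinRoot (X ^ 5 - C 2 : ℚ[X])))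

/-- The fifth root of 2. -/
noncomputable def al : L := AdjoinRoot.root _

theorem al_pow : al ^ 5 = 2 := by
  have h := AdjoinRoot.eval₂_root (X ^ 5 - C 2 : ℚ[X])
  rw [eval₂_sub, eval₂_X_pow, eval₂_C, map_ofNat (AdjoinRoot.of (X ^ 5 - C 2 : ℚ[X]))] at h
  exact sub_eq_zero.mp h

theorem al_ne_zero : al ≠ 0 := fun h => by
  have := al_pow
  rw [h] at this
  norm_num at this

theorem monic_fL : (X ^ 5 - C 2 : ℚ[X]).Monic := monic_X_pow_sub_C _ (by norm_num)

theorem minpoly_al : minpoly ℚ al = X ^ 5 - C 2 :=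
  (minpoly.eq_of_irreducible_of_monic irred_fL (by simp [al_pow]) monic_fL).symm

theorem finrank_L : Module.finrank ℚ L = 5 := by
  have h := (AdjoinRoot.powerBasis irred_fL.ne_zero).finrank
  rw [AdjoinRoot.powerBasis_dim, natDegree_X_pow_sub_C] at h
  exact h

theorem coords_zero {a b c d e : ℚ}
    (h : (a : L) + b * al + c * al ^ 2 + d * al ^ 3 + e * al ^ 4 = 0) :
    a = 0 ∧ b = 0 ∧ c = 0 ∧ d = 0 ∧ e = 0 := by
  set p : ℚ[X] := C a + C b * X + C c * X ^ 2 + C d * X ^ 3 + C e * X ^ 4 with hp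
  have h1 : aeval al p = 0 := by simpa [hp] using h
  have h2 : p = 0 := by
    refine eq_zero_of_dvd_of_natDegree_lt (minpoly.dvd ℚ al h1) ?_
    rw [minpoly_al, natDegree_X_pow_sub_C]
    have : p.natDegree ≤ 4 := by rw [hp]; compute_degree
    omega
  have h3 := fun i => congrArg (coeff · i) h2
  refine ⟨?_, ?_, ?_, ?_, ?_⟩
  · simpa [hp, coeff_X, coeff_X_pow] using h3 0
  · simpa [hp, coeff_X, coeff_X_pow, coeff_C] using h3 1
  · simpa [hp, coeff_X, coeff_X_pow, coeff_C] using h3 2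
  · simpa [hp, coeff_X, coeff_X_pow, coeff_C] using h3 3
  · simpa [hp, coeff_X, coeff_X_pow, coeff_C] using h3 4

theorem linInd_al : LinearIndependent ℚ fun i : Fin 5 => al ^ (i : ℕ) := by
  rw [Fintype.linearIndependent_iff]
  intro g hg
  have h := coords_zero (a := g 0) (b := g 1) (c := g 2) (d := g 3) (e := g 4) (by
    rw [← hg]; simp [Fin.sum_univ_five, Rat.smul_def])
  intro i
  fin_cases i
  exacts [h.1, h.2.1, h.2.2.1, h.2.2.2.1, h.2.2.2.2]

/-- The basis of powers. -/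
noncomputable def bL : Module.Basis (Fin 5) ℚ L :=
  basisOfLinearIndependentOfCardEqFinrank linInd_al (by rw [finrank_L]; simp)

theorem bL_apply (i : Fin 5) : bL i = al ^ (i : ℕ) := by simp [bL]

theorem exists_coords (x : L) :
    ∃ a b c d e : ℚ, x = (a : L) + b * al + c * al ^ 2 + d * al ^ 3 + e * al ^ 4 :=
  ⟨bL.repr x 0, bL.repr x 1, bL.repr x 2, bL.repr x 3, bL.repr x 4, by
    conv_lhs => rw [← bL.sum_repr x]
    simp [Fin.sum_univ_five, Rat.smul_def, bL_apply]⟩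

/-- The norm form. -/
def Nf {T : Type*} [CommRing T] (a b c d e : T) : T :=
  a ^ 5 + 2 * b ^ 5 - 10 * a * b ^ 3 * c + 10 * a ^ 2 * b * c ^ 2 + 4 * c ^ 5
    + 10 * a ^ 2 * b ^ 2 * d - 10 * a ^ 3 * c * d - 20 * b * c ^ 3 * d + 20 * b ^ 2 * c * d ^ 2
    + 20 * a * c ^ 2 * d ^ 2 - 20 * a * b * d ^ 3 + 8 * d ^ 5 - 10 * a ^ 3 * b * e
    + 20 * b ^ 2 * c ^ 2 * e - 20 * a * c ^ 3 * e - 20 * b ^ 3 * d * e - 20 * a * b * c * d * e
    + 20 * a ^ 2 * d ^ 2 * e - 40 * c * d ^ 3 * e + 20 * a * b ^ 2 * e ^ 2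
    + 20 * a ^ 2 * c * e ^ 2 + 40 * c ^ 2 * d * e ^ 2 + 40 * b * d ^ 2 * e ^ 2
    - 40 * b * c * e ^ 3 - 40 * a * d * e ^ 3 + 16 * e ^ 5

theorem norm_coords (a b c d e : ℚ) :
    Algebra.norm ℚ ((a : L) + b * al + c * al ^ 2 + d * al ^ 3 + e * al ^ 4) = Nf a b c d e := by
  have hM : Algebra.leftMulMatrix bL ((a : L) + b * al + c * al ^ 2 + d * al ^ 3 + e * al ^ 4) =
      !![a, 2 * e, 2 * d, 2 * c, 2 * b; b, a, 2 * e, 2 * d, 2 * c; c, b, a, 2 * e, 2 * d;
        d, c, b, a, 2 * e; e, d, c, b, a] := by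
    ext i j
    rw [Algebra.leftMulMatrix_eq_repr_mul]
    have key : ∀ (y : L) (v : Fin 5 → ℚ), y = ∑ k, v k • bL k → bL.repr y i = v i := by
      rintro y v rfl
      rw [bL.repr_sum_self]
    refine key _ (fun k => (!![a, 2 * e, 2 * d, 2 * c, 2 * b; b, a, 2 * e, 2 * d, 2 * c;
      c, b, a, 2 * e, 2 * d; d, c, b, a, 2 * e; e, d, c, b, a] : Matrix (Fin 5) (Fin 5) ℚ) k j) ?_
    have h5 := al_pow
    fin_cases j
    · simp [Fin.sum_univ_five, Rat.smul_def, bL_apply]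
    · simp [Fin.sum_univ_five, Rat.smul_def, bL_apply]
      linear_combination e * h5
    · simp [Fin.sum_univ_five, Rat.smul_def, bL_apply]
      linear_combination (d + e * al) * h5
    · simp [Fin.sum_univ_five, Rat.smul_def, bL_apply]
      linear_combination (c + d * al + e * al ^ 2) * h5
    · simp [Fin.sum_univ_five, Rat.smul_def, bL_apply]
      linear_combination (b + c * al + d * al ^ 2 + e * al ^ 3) * h5
  rw [Algebra.norm_eq_matrix_det bL, hM, Nf]
  simp [Matrix.det_succ_row_zero, Fin.sum_univ_succ, Fin.succAbove]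
  ring

theorem al_isIntegral : IsIntegral ℤ al :=
  ⟨X ^ 5 - C 2, monic_X_pow_sub_C _ (by norm_num), by simp [al_pow]⟩

/-- The fifth root of 2 in the ring of integers. -/
noncomputable def ao : 𝓞 L := ⟨al, al_isIntegral⟩

theorem coe_ao : (ao : L) = al := rfl

theorem ao_pow : ao ^ 5 = 2 := by
  apply RingOfIntegers.coe_injective
  rw [map_pow, map_ofNat]
  exact al_pow

theorem norm_int (a b c d e : ℤ) :
    Algebra.norm ℤ ((a : 𝓞 L) + b * ao + c * ao ^ 2 + d * ao ^ 3 + e * ao ^ 4) = Nf a b c d e := by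
  have h := Algebra.coe_norm_int ((a : 𝓞 L) + b * ao + c * ao ^ 2 + d * ao ^ 3 + e * ao ^ 4 : 𝓞 L)
  have h2 := norm_coords a b c d e
  have h3 : (((a : 𝓞 L) + b * ao + c * ao ^ 2 + d * ao ^ 3 + e * ao ^ 4 : 𝓞 L) : L) =
      ((a : ℚ) : L) + (b : ℚ) * al + (c : ℚ) * al ^ 2 + (d : ℚ) * al ^ 3 + (e : ℚ) * al ^ 4 := by
    simp [coe_ao]
  rw [h3, h2] at h
  have h4 : ((Nf a b c d e : ℤ) : ℚ) = Nf (a : ℚ) b c d e := by simp [Nf]
  exact_mod_cast h.trans h4.symm

end Pool.Agent.P.MP_440ce3_nt
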