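import Pool.Agent.P.MP_440ce3_nt.A.Iface

/-! Step GRP of the Fermat quintic project. -/

namespace Pool.Agent.P.MP_440ce3_nt

open Polynomial NumberField

namespace GrpA

theorem sq_J (hSQN : S_SQN) (hLAT : S_LAT) (hSQ : S_SQ) {a b : ℚ[X]} (h : Q2 a b) :
    ∃ d, cl (J a b) = d ^ 2 := by
  obtain ⟨s, hs⟩ := hSQ a b h
  have hd := h.2.2.2.2
  obtain ⟨p, M, q, hM, e1, e2⟩ := hLAT a (2 * b + 1) s h.2.2.1 (by
    have : (2 * b + 1) ^ 2 - (4 * X ^ 5 + 1) = 4 * (b ^ 2 + b - X ^ 5) := by ring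
    rw [this]
    exact hd.mul_left _) hs
  have hn : nrm (⟨p + C q, 2 * C q⟩ : R) = a * M ^ 2 := by
    rw [nrm_eq, ← e1]
    ring
  have ha := h.1.ne_zero
  have h0 : (⟨p + C q, 2 * C q⟩ : R) ≠ 0 := fun h0 => by
    rw [h0, nrm_eq] at hn
    exact mul_ne_zero ha (pow_ne_zero 2 hM) (by simpa using hn.symm)
  have hm : (⟨p + C q, 2 * C q⟩ : R) ∈ J a b := mem_J_of_dvd (by
    have : p + C q + 2 * C q * b = p + C q * (2 * b + 1) := by ring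
    exact this ▸ e2)
  obtain ⟨E, m, h1, h2, h3⟩ := (isN_J hd).compl hm h0
  rw [hn] at h3
  obtain ⟨d, e⟩ := hSQN E M (mul_left_cancel₀ ha h3 ▸ h1)
  exact ⟨d⁻¹, by rw [cl_of_span (J_ne_bot _ _) h1.ne_bot h2, cl_cj h1.ne_bot, e, inv_pow]⟩

/-- The class `c` has level `k`. -/
def G (k : ℕ) (c : ClassGroup R) : Prop := ∃ I n, Mon I n ∧ cl I = c ∧ Lv k I n

theorem mon_mul {I K : Ideal R} {n m : ℚ[X]} (h : Mon I n) (h' : Mon K m) : Mon (I * K) (n * m) :=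
  ⟨h.1.mul h'.1, h.2.1.mul h'.2.1, PO.mul_mem h.2.2 h'.2.2⟩

theorem nrm_mul {n m : ℚ[X]} (hn : n.Monic) (hm : m.Monic) {h h' : R} (a : h ∈ RO) (a' : h' ∈ RO)
    (b : (nrm h).natDegree ≤ n.natDegree ∧ red (nrm h) ≠ 0)
    (b' : (nrm h').natDegree ≤ m.natDegree ∧ red (nrm h') ≠ 0) :
    (nrm (h * h')).natDegree ≤ (n * m).natDegree ∧ red (nrm (h * h')) ≠ 0 := by
  rw [map_mul, hn.natDegree_mul hm, red_mul (nrm_mem_PO a) (nrm_mem_PO a')]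
  exact ⟨natDegree_mul_le.trans (add_le_add b.1 b'.1), mul_ne_zero b.2 b'.2⟩

theorem two_mem (k : ℕ) : (2 : R) ^ k ∈ RO := RO.pow_mem (ofNat_mem _ 2) k

theorem G.mul {k : ℕ} {c c' : ClassGroup R} (h : G k c) (h' : G k c') : G k (c * c') := by
  obtain ⟨I, n, h1, rfl, x, x1, s, s1, e1, e2⟩ := h
  obtain ⟨I', n', h1', rfl, x', x1', s', s1', e1', e2'⟩ := h'
  refine ⟨_, _, mon_mul h1 h1', cl_mul h1.1.ne_bot h1'.1.ne_bot, x * x', RO.mul_mem x1 x1',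
    x * s' + s * x' - 2 ^ k * (s * s'), RO.sub_mem (RO.add_mem (RO.mul_mem x1 s1')
      (RO.mul_mem s1 x1')) (RO.mul_mem (two_mem k) (RO.mul_mem s1 s1')), ?_,
    nrm_mul h1.2.1 h1'.2.1 x1 x1' e2 e2'⟩
  have : x * x' - 2 ^ k * (x * s' + s * x' - 2 ^ k * (s * s')) =
      (x - 2 ^ k * s) * (x' - 2 ^ k * s') := by ring
  rw [this]
  exact Ideal.mul_mem_mul e1 e1'

theorem G.sq {k : ℕ} {c : ClassGroup R} (h : G (k + 1) c) : G (k + 2) (c ^ 2) := by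
  obtain ⟨I, n, h1, rfl, x, x1, s, s1, e1, e2⟩ := h
  refine ⟨_, _, mon_mul h1 h1, (cl_mul h1.1.ne_bot h1.1.ne_bot).trans (_root_.sq _).symm, x * x,
    RO.mul_mem x1 x1, x * s - 2 ^ k * (s * s), RO.sub_mem (RO.mul_mem x1 s1)
      (RO.mul_mem (two_mem k) (RO.mul_mem s1 s1)), ?_, nrm_mul h1.2.1 h1.2.1 x1 x1 e2 e2⟩
  have : x * x - 2 ^ (k + 2) * (x * s - 2 ^ k * (s * s)) =
      (x - 2 ^ (k + 1) * s) * (x - 2 ^ (k + 1) * s) := by ring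
  rw [this]
  exact Ideal.mul_mem_mul e1 e1

theorem G_one (k : ℕ) : G k 1 := by
  refine ⟨⊤, 1, ⟨?_, monic_one, PO.one_mem⟩, cl_top, 1, RO.one_mem, 0, RO.zero_mem, trivial, ?_⟩
  · have := IsN.span (h := 1) one_ne_zero
    rwa [Ideal.span_singleton_one, map_one] at this
  · rw [map_one, red_one]
    exact ⟨le_rfl, one_ne_zero⟩

theorem G.pow {k : ℕ} {c : ClassGroup R} (h : G k c) (n : ℕ) : G k (c ^ n) := by
  induction n with
  | zero => exact (pow_zero c).symm ▸ G_one k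
  | succ n ih => exact (pow_succ c n).symm ▸ ih.mul h

theorem eq_one (hLVI : S_LVI) (hLVP : S_LVP) {c : ClassGroup R} (h : ∀ k, G (k + 1) c) : c = 1 := by
  obtain ⟨I, n, h1, rfl, -⟩ := h 0
  refine hLVP I n h1 fun k hk => ?_
  obtain ⟨k, rfl⟩ := Nat.exists_eq_add_of_le' hk
  obtain ⟨K, m, h2, h3, h4⟩ := h k
  exact hLVI _ K I m n hk h2 h1 h3 h4

theorem split (hMON : S_MON) (hL1 : S_L1) (c : ClassGroup R) :
    ∃ j c1, G 1 c1 ∧ c = P0 ^ j * c1 := by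
  obtain ⟨j, h | ⟨a, b, h, e⟩⟩ := hMON c
  · exact ⟨j, 1, G_one 1, by rw [h, mul_one]⟩
  obtain ⟨i, hi, hL⟩ := hL1 a b h
  refine ⟨j + 4 * i, _, ⟨_, _, mon_mul ⟨isN_J h.2.2.2.2, h.1, h.2.1⟩
    ⟨isN_D hi, monic_X_pow i, PO.pow_mem X_mem_PO i⟩, rfl, hL⟩, ?_⟩
  rw [cl_mul (J_ne_bot _ _) (D_ne_bot _), cl_D hi, e, mul_comm (cl (J a b)), ← mul_assoc,
    ← pow_add P0, show j + 4 * i + i = j + 5 * i by ring, pow_add P0, pow_mul P0, P0_pow_five,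
    one_pow, mul_one]

end GrpA

open GrpA in
theorem p_GRP (hMON : S_MON) (hL1 : S_L1) (hLVI : S_LVI) (hLVP : S_LVP) (hSQN : S_SQN) (hLAT : S_LAT) (hSQ : S_SQ) :
    S_GRP := by
  have hP : P0 = (P0 ^ 3) ^ 2 := by
    rw [← pow_mul P0, show 3 * 2 = 5 + 1 from rfl, pow_succ P0, P0_pow_five, one_mul]
  have sq : ∀ c : ClassGroup R, ∃ d, c = d ^ 2 := fun c => by
    obtain ⟨j, h | ⟨a, b, h, e⟩⟩ := hMON c
    · exact ⟨(P0 ^ 3) ^ j, by rw [pow_right_comm, ← hP, h]⟩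
    · obtain ⟨d, hd⟩ := sq_J hSQN hLAT hSQ h
      exact ⟨(P0 ^ 3) ^ j * d, by rw [mul_pow, pow_right_comm, ← hP, e, hd]⟩
  have five : ∀ k, ∀ c : ClassGroup R, G (k + 1) (c ^ 5) := fun k => by
    induction k with
    | zero =>
      intro c
      obtain ⟨j, c1, h1, rfl⟩ := split hMON hL1 c
      rw [mul_pow, pow_right_comm, P0_pow_five, one_pow, one_mul]
      exact h1.pow 5
    | succ k ih =>
      intro c
      obtain ⟨d, rfl⟩ := sq c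
      rw [pow_right_comm]
      exact (ih d).sq
  intro c
  obtain ⟨j, c1, h1, rfl⟩ := split hMON hL1 c
  have h5 : c1 ^ 5 = 1 := eq_one hLVI hLVP fun k => five k c1
  have h2 : ∀ k, G (k + 1) c1 := fun k => by
    induction k with
    | zero => exact h1
    | succ k ih =>
      have h3 := ih.sq.pow 3
      rwa [← pow_mul c1, show 2 * 3 = 5 + 1 from rfl, pow_succ c1, h5, one_mul] at h3
  exact ⟨j, by rw [eq_one hLVI hLVP h2, mul_one]⟩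

end Pool.Agent.P.MP_440ce3_nt
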