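import Pool.Agent.P.MP_440ce3_nt.A.Two
import Pool.Agent.P.MP_440ce3_nt.A.Fld

/-! Statements of the arithmetic part. -/

namespace Pool.Agent.P.MP_440ce3_nt

open Polynomial NumberField

-- deps:
def S_RED : Prop :=
  ∀ c : ClassGroup R, ∃ a b : ℚ[X], a.natDegree ≤ 2 ∧ a ∣ b ^ 2 + b - X ^ 5 ∧ c = cl (J a b)

-- deps: RED
def S_MON : Prop :=
  ∀ c : ClassGroup R, ∃ j : ℕ, c = P0 ^ j ∨ ∃ a b : ℚ[X], Q2 a b ∧ c = P0 ^ j * cl (J a b)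

-- deps:
def S_L1 : Prop :=
  ∀ a b : ℚ[X], Q2 a b → ∃ j : ℕ, j ≤ 5 ∧ Lv 1 (J a b * D j) (a * X ^ j)

-- deps:
def S_LVI : Prop :=
  ∀ (k : ℕ) (I K : Ideal R) (n m : ℚ[X]), 1 ≤ k → Mon I n → Mon K m → cl I = cl K →
    Lv k I n → Lv k K m

-- deps:
def S_LVP : Prop :=
  ∀ (I : Ideal R) (n : ℚ[X]), Mon I n → (∀ k : ℕ, 1 ≤ k → Lv k I n) → cl I = 1

-- deps:
def S_SQN : Prop :=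
  ∀ (E : Ideal R) (M : ℚ[X]), IsN E (M ^ 2) → ∃ d : ClassGroup R, cl E = d ^ 2

-- deps:
def S_LAT : Prop :=
  ∀ a B s : ℚ[X], a.natDegree = 2 → a ∣ B ^ 2 - (4 * X ^ 5 + 1) → (4 * X ^ 5 + 1) ∣ s ^ 2 - a →
    ∃ (p M : ℚ[X]) (q : ℚ), M ≠ 0 ∧ p ^ 2 - (4 * X ^ 5 + 1) * C q ^ 2 = a * M ^ 2 ∧
      a ∣ p + C q * B

-- deps:
def S_ZA : Prop :=
  ∀ x : 𝓞 L, ∃ a b c d e : ℤ, x = (a : 𝓞 L) + b * ao + c * ao ^ 2 + d * ao ^ 3 + e * ao ^ 4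

-- deps:
def S_PID : Prop := IsPrincipalIdealRing (𝓞 L)

-- deps: ZA
def S_M2 : Prop :=
  ∀ ε t y z : 𝓞 L, (ε = ao - 1 ∨ ε = 1 + ao + ao ^ 3 ∨ ε = (ao - 1) * (1 + ao + ao ^ 3)) →
    ε * t ^ 2 = y ^ 2 + 2 * z → ao ∣ t

-- deps: M2
def S_UNI : Prop :=
  ∀ s : 𝓞 L, IsUnit s → ∃ ε v : 𝓞 L,
    (ε = 1 ∨ ε = ao - 1 ∨ ε = 1 + ao + ao ^ 3 ∨ ε = (ao - 1) * (1 + ao + ao ^ 3)) ∧
      (s = ε * v ^ 2 ∨ s = -(ε * v ^ 2))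

-- deps:
def S_LOC : Prop :=
  ∀ (K Γ : Type) [Field K] [LinearOrderedCommGroupWithZero Γ] (V : Valuation K Γ)
    (g1 g2 g3 g4 g5 A0 A1 B0 B1 c0 c1 c2 : K),
    V g1 = 1 → V g2 ≤ 1 → V g3 ≤ 1 → V g4 ≤ 1 → V g5 = 1 →
    B0 ^ 2 = A0 * c0 → 2 * B0 * B1 - g1 = A0 * c1 + A1 * c0 →
    B1 ^ 2 - g2 = A0 * c2 + A1 * c1 + c0 → -g3 = -g5 * A0 + A1 * c2 + c1 → -g4 = -g5 * A1 + c2 →
    ∃ z : K, V A0 = V z ^ 2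

-- deps: LOC
def S_EVN : Prop :=
  ∀ (a0 a1 b0 b1 d : ℚ) (η t s π : 𝓞 L),
    -a1 * b1 ^ 2 + 2 * b0 * b1 + b1 = a1 ^ 4 - 3 * a1 ^ 2 * a0 + a0 ^ 2 →
    b0 ^ 2 + b0 - a0 * b1 ^ 2 = a0 * a1 ^ 3 - 2 * a1 * a0 ^ 2 →
    (η : L) = (d : L) ^ 2 * (1 - a1 * al ^ 2 + a0 * al ^ 4) → η ≠ 0 →
    η = t ^ 2 * s → Squarefree s → Prime π → π ∣ s → π ∣ 10

-- deps: PID M2 UNI EVN
def S_SQ : Prop :=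
  ∀ a b : ℚ[X], Q2 a b → ∃ s : ℚ[X], (4 * X ^ 5 + 1) ∣ s ^ 2 - a

-- deps: MON L1 LVI LVP SQN LAT SQ
def S_GRP : Prop := ∀ c : ClassGroup R, ∃ j : ℕ, c = P0 ^ j

-- deps: GRP
def S_PTC : Prop :=
  (∀ u w : ℚ, w ^ 2 + w = u ^ 5 → u = 0) ∧
  ∀ (K : Type) [Field K] [Algebra ℚ K] (u w : K), w ^ 2 + w = u ^ 5 →
    (∀ q : ℚ, u ≠ algebraMap ℚ K q) → Module.finrank ℚ K ≠ 2 ∧ (Module.finrank ℚ K = 3 →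
      ∃ q : ℚ, w = algebraMap ℚ K q * u ^ 2 ∨ w + 1 = algebraMap ℚ K q * u ^ 2)

-- deps: PTC
def S_PT : Prop :=
  ∀ (K : Type) [Field K] [Algebra ℚ K], 1 ≤ Module.finrank ℚ K → Module.finrank ℚ K ≤ 3 →
    ∀ x y z : K, x ^ 5 + y ^ 5 + z ^ 5 = 0 → x + y + z = 0

end Pool.Agent.P.MP_440ce3_nt
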