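import Pool.Agent.P.MP_440ce3_nt.A.Iface

/-! Step L1 of the Fermat quintic project. -/

namespace Pool.Agent.P.MP_440ce3_nt

open Polynomial NumberField

namespace L1A

theorem fin2 : ∀ a0 a1 b0 b1 : ZMod 2,
    -a1 * b1 ^ 2 + 2 * b0 * b1 + b1 - (a1 ^ 4 - 3 * a1 ^ 2 * a0 + a0 ^ 2) = 0 →
    b0 ^ 2 + b0 - a0 * b1 ^ 2 - (a0 * a1 ^ 3 - 2 * a1 * a0 ^ 2) = 0 →
    a0 = 0 ∧ a1 = 0 ∧ b1 = 0 ∧ (b0 = 0 ∨ b0 = 1) := by decide

theorem mod2 {A B Q : (ZMod 2)[X]} (hA : A.Monic) (hd : A.natDegree = 2) (hB : B.natDegree ≤ 1)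
    (h : B ^ 2 + B - X ^ 5 = A * Q) : A = X ^ 2 ∧ (B = 0 ∨ B = 1) := by
  obtain ⟨a1, a0, eA⟩ : ∃ a1 a0, A = X ^ 2 + C a1 * X + C a0 := by
    refine ⟨A.coeff 1, A.coeff 0, ?_⟩
    conv_lhs => rw [hA.as_sum, hd]
    simp [Finset.sum_range_succ]
    ring
  obtain ⟨b1, b0, eB⟩ := exists_eq_X_add_C_of_natDegree_le_one hB
  have h1 : A ∣ C (-a1 * b1 ^ 2 + 2 * b0 * b1 + b1 - (a1 ^ 4 - 3 * a1 ^ 2 * a0 + a0 ^ 2)) * X +
      C (b0 ^ 2 + b0 - a0 * b1 ^ 2 - (a0 * a1 ^ 3 - 2 * a1 * a0 ^ 2)) := by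
    refine ⟨Q - C b1 ^ 2 + (X ^ 3 - C a1 * X ^ 2 + (C a1 ^ 2 - C a0) * X +
      (2 * C a0 * C a1 - C a1 ^ 3)), ?_⟩
    rw [mul_add, mul_sub, ← h, eA, eB]
    simp only [map_add, map_sub, map_mul, map_pow, map_neg, map_ofNat]
    ring
  have h2 := eq_zero_of_dvd_of_natDegree_lt h1 (by
    rw [hd]
    exact lt_of_le_of_lt natDegree_linear_le (by norm_num))
  have h3 := congrArg (coeff · 1) h2
  have h4 := congrArg (coeff · 0) h2
  simp only [coeff_add, coeff_C_mul, coeff_X_one, coeff_X_zero, mul_one, mul_zero, coeff_C_zero,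
    coeff_C_succ, add_zero, zero_add, coeff_zero] at h3 h4
  obtain ⟨rfl, rfl, rfl, h5⟩ := fin2 a0 a1 b0 b1 h3 h4
  refine ⟨by simpa using eA, ?_⟩
  rcases h5 with rfl | rfl
  · exact Or.inl (by simpa using eB)
  · exact Or.inr (by simpa using eB)

theorem two_re (s : R) : (2 ^ 1 * s).re = 2 * s.re := by simp [two_mul]

theorem two_im (s : R) : (2 ^ 1 * s).im = 2 * s.im := by simp [two_mul]

theorem deg {a : ℚ[X]} (ha : a.Monic) (hd : a.natDegree = 2) (j : ℕ) :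
    (a * X ^ j).natDegree = 2 + j := by
  rw [natDegree_mul_X_pow _ ha.ne_zero, hd]

end L1A

open L1A in
theorem p_L1 :
    S_L1 := by
  rintro a b ⟨hm, hO, hd, hb, q, hq⟩
  have hW : (⟨-b, 1⟩ : R) ≠ 0 := fun h => by simpa using congrArg QuadraticAlgebra.im h
  obtain ⟨κ, hκ, h1, h2⟩ := exists_prim hW
  have hre : C κ * -b ∈ PO := by simpa using h1.1
  have hκO : κ ∈ O2 := by simpa using mem_PO.mp h1.2 0
  by_cases h0 : (κ : ZMod 2) = 0
  · refine ⟨0, by norm_num, ι (C κ * -b), ι_mem_RO hre, ⟨0, -C (κ / 2)⟩,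
      ⟨PO.zero_mem, PO.neg_mem (C_mem_PO (half_mem_O2 hκO h0))⟩, ?_, ?_, ?_⟩
    · have e : ι (C κ * -b) - 2 ^ 1 * (⟨0, -C (κ / 2)⟩ : R) =
          ι (C κ) * ⟨-b, 1⟩ * ι (X ^ 0) := by
        have e2 : C κ = 2 * C (κ / 2) := by
          rw [← map_ofNat C 2, ← C_mul, mul_div_cancel₀ _ two_ne_zero]
        ext1
        · rw [QuadraticAlgebra.re_sub, two_re]
          simp
        · rw [QuadraticAlgebra.im_sub, two_im]
          simpa using e2.symm
      rw [e]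
      exact Ideal.mul_mem_mul (Ideal.mul_mem_left _ _ (w_mem_J a b)) (ι_mem_J _ _)
    · rw [nrm_ι, deg hm hd, natDegree_pow]
      have := natDegree_C_mul_le κ (-b)
      rw [natDegree_neg] at this
      omega
    · rw [nrm_ι, red_pow hre]
      refine pow_ne_zero _ fun h => h2 ?_
      rw [red_nrm h1, re_ι_mul, im_ι_mul, h, mul_one, red_C, h0]
      simp
  · have hbO : b ∈ PO := by
      have := PO.neg_mem (PO.mul_mem (C_mem_PO (inv_mem_O2 hκO h0)) hre)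
      rwa [← mul_assoc, ← C_mul, inv_mul_cancel₀ hκ, C_1, one_mul, neg_neg] at this
    have hX := fun n => PO.pow_mem X_mem_PO n
    have hbb := PO.add_mem (PO.pow_mem hbO 2) hbO
    obtain ⟨h3, h4⟩ := red_monic hm
    have hqO : q ∈ PO := mem_PO_of_mul hO h3.ne_zero (hq ▸ PO.sub_mem hbb (hX 5))
    have h5 := congrArg red hq
    rw [red_sub hbb (hX 5), red_add (PO.pow_mem hbO 2) hbO, red_pow hbO, red_pow X_mem_PO, red_X,
      red_mul hO hqO] at h5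
    obtain ⟨h6, h7⟩ := mod2 h3 (h4.trans hd) ((natDegree_red_le b).trans hb) h5
    obtain ⟨a', ha', ea⟩ := (red_eq_zero (PO.sub_mem hO (hX 2))).mp (by
      rw [red_sub hO (hX 2), h6, red_pow X_mem_PO, red_X, sub_self])
    rcases h7 with h7 | h7
    · obtain ⟨b', hb', eb⟩ := (red_eq_zero hbO).mp h7
      have hn : nrm (⟨0, 1⟩ : R) = -X ^ 5 := by
        rw [nrm_eq]
        simp
      refine ⟨3, by norm_num, ⟨0, 1⟩, ⟨PO.zero_mem, PO.one_mem⟩, ⟨-(a' * X ^ 3), -b'⟩,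
        ⟨PO.neg_mem (PO.mul_mem ha' (hX 3)), PO.neg_mem hb'⟩, ?_, ?_, ?_⟩
      · have e : (⟨0, 1⟩ : R) - 2 ^ 1 * (⟨-(a' * X ^ 3), -b'⟩ : R) =
            ι a * ι (X ^ 3) - (⟨-b, 1⟩ : R) * (⟨-0, 1⟩ : R) := by
          rw [← map_mul]
          ext1
          · rw [QuadraticAlgebra.re_sub, two_re, QuadraticAlgebra.re_sub, QuadraticAlgebra.re_mul,
              QuadraticAlgebra.algebraMap_re]
            linear_combination (-X ^ 3) * ea
          · rw [QuadraticAlgebra.im_sub, two_im, QuadraticAlgebra.im_sub, QuadraticAlgebra.im_mul,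
              QuadraticAlgebra.algebraMap_im]
            linear_combination -eb
        rw [e]
        exact Ideal.sub_mem _ (Ideal.mul_mem_mul (ι_mem_J _ _) (ι_mem_J _ _))
          (Ideal.mul_mem_mul (w_mem_J _ _) (w_mem_J _ _))
      · rw [hn, deg hm hd, natDegree_neg, natDegree_X_pow]
      · rw [hn, red_neg, red_pow X_mem_PO, red_X]
        simp
    · obtain ⟨b', hb', eb⟩ := (red_eq_zero (PO.sub_mem hbO PO.one_mem)).mp (by
        rw [red_sub hbO PO.one_mem, h7, red_one, sub_self])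
      refine ⟨2, by norm_num, ι (-X ^ 2), ι_mem_RO (PO.neg_mem (hX 2)), ⟨b' * X ^ 2, a'⟩,
        ⟨PO.mul_mem hb' (hX 2), ha'⟩, ?_, ?_, ?_⟩
      · have e : ι (-X ^ 2) - 2 ^ 1 * (⟨b' * X ^ 2, a'⟩ : R) =
            (⟨-b, 1⟩ : R) * ι (X ^ 2) - ι a * (⟨-0, 1⟩ : R) := by
          rw [mul_comm _ (ι (X ^ 2))]
          ext1
          · rw [QuadraticAlgebra.re_sub, two_re, QuadraticAlgebra.re_sub, re_ι_mul, re_ι_mul,
              QuadraticAlgebra.algebraMap_re]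
            linear_combination (X ^ 2) * eb
          · rw [QuadraticAlgebra.im_sub, two_im, QuadraticAlgebra.im_sub, im_ι_mul, im_ι_mul,
              QuadraticAlgebra.algebraMap_im]
            linear_combination ea
        rw [e]
        exact Ideal.sub_mem _ (Ideal.mul_mem_mul (w_mem_J _ _) (ι_mem_J _ _))
          (Ideal.mul_mem_mul (ι_mem_J _ _) (w_mem_J _ _))
      · rw [nrm_ι, deg hm hd, natDegree_pow, natDegree_neg, natDegree_X_pow]
      · rw [nrm_ι, red_pow (PO.neg_mem (hX 2)), red_neg, red_pow X_mem_PO, red_X]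
        simp

end Pool.Agent.P.MP_440ce3_nt
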