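import Pool.Agent.P.MP_440ce3_nt.A.Iface

/-! Step LAT of the Fermat quintic project. -/

namespace Pool.Agent.P.MP_440ce3_nt

open Polynomial NumberField

namespace LatA

theorem degF : (4 * X ^ 5 + 1 : ℚ[X]).natDegree = 5 := by compute_degree!

theorem fr (n : ℕ) : Module.finrank ℚ (degreeLT ℚ n) = n := by
  rw [(degreeLTEquiv ℚ n).finrank_eq]; simp

theorem ker (F a B s : ℚ[X]) (hF : F.natDegree = 5) (ha : a.natDegree = 2) :
    ∃ (p M : ℚ[X]) (q : ℚ), p.degree < 4 ∧ M.degree < 3 ∧ ¬ (p = 0 ∧ M = 0 ∧ q = 0) ∧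
      F ∣ p - s * M ∧ a ∣ p + C q * B := by
  have hF0 : F ≠ 0 := by rintro rfl; simp at hF
  have ha0 : a ≠ 0 := by rintro rfl; simp at ha
  let f : (degreeLT ℚ 4 × degreeLT ℚ 3 × ℚ) →ₗ[ℚ] (AdjoinRoot F × AdjoinRoot a) :=
    { toFun := fun v => (AdjoinRoot.mk F (v.1.1 - s * v.2.1.1),
        AdjoinRoot.mk a (v.1.1 + C v.2.2 * B))
      map_add' := fun v w => by
        ext
        · simp only [Prod.fst_add, Prod.snd_add, Submodule.coe_add, ← map_add]; congr 1; ring
        · simp only [Prod.fst_add, Prod.snd_add, Submodule.coe_add, ← map_add]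
          congr 1; rw [C_add]; ring
      map_smul' := fun c v => by
        ext
        · simp only [Prod.smul_fst, Prod.smul_snd, Submodule.coe_smul, RingHom.id_apply,
            AdjoinRoot.smul_mk]
          congr 1; simp only [smul_eq_C_mul]; ring
        · simp only [Prod.smul_fst, Prod.smul_snd, Submodule.coe_smul, RingHom.id_apply,
            AdjoinRoot.smul_mk]
          congr 1; simp only [smul_eq_C_mul, smul_eq_mul, C_mul]; ring }
  have := (AdjoinRoot.powerBasis hF0).finite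
  have := (AdjoinRoot.powerBasis ha0).finite
  have : ∀ n, Module.Finite ℚ (degreeLT ℚ n) := fun n =>
    Module.Finite.equiv (degreeLTEquiv ℚ n).symm
  have hlt : Module.finrank ℚ (AdjoinRoot F × AdjoinRoot a) <
      Module.finrank ℚ (degreeLT ℚ 4 × degreeLT ℚ 3 × ℚ) := by
    rw [Module.finrank_prod, Module.finrank_prod, Module.finrank_prod, fr, fr,
      (AdjoinRoot.powerBasis hF0).finrank, (AdjoinRoot.powerBasis ha0).finrank,
      AdjoinRoot.powerBasis_dim, AdjoinRoot.powerBasis_dim, hF, ha, Module.finrank_self]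
    norm_num
  obtain ⟨v, hv, hv0⟩ := Submodule.exists_mem_ne_zero_of_ne_bot
    (LinearMap.ker_ne_bot_of_finrank_lt (f := f) hlt)
  have h1 := Prod.ext_iff.1 (LinearMap.mem_ker.1 hv)
  refine ⟨v.1.1, v.2.1.1, v.2.2, mem_degreeLT.1 v.1.2, mem_degreeLT.1 v.2.1.2, ?_,
    AdjoinRoot.mk_eq_zero.1 h1.1, AdjoinRoot.mk_eq_zero.1 h1.2⟩
  rintro ⟨h2, h3, h4⟩
  exact hv0 (Prod.ext (Subtype.ext h2) (Prod.ext (Subtype.ext h3) h4))

end LatA

theorem p_LAT :
    S_LAT := by
  intro a B s ha hB hs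
  have hF := LatA.degF
  have hI := irred_F
  set F : ℚ[X] := 4 * X ^ 5 + 1 with hFd
  obtain ⟨p, M, q, hp, hM, hne, h1, h2⟩ := LatA.ker F a B s hF ha
  have ha0 : a ≠ 0 := by rintro rfl; simp at ha
  have hp' : p.natDegree ≤ 3 := by
    by_cases h : p = 0
    · simp [h]
    · have := (natDegree_lt_iff_degree_lt h (n := 4)).2 hp; omega
  have hM' : M.natDegree ≤ 2 := by
    by_cases h : M = 0
    · simp [h]
    · have := (natDegree_lt_iff_degree_lt h (n := 3)).2 hM; omega
  obtain ⟨e, he⟩ : F ∣ p ^ 2 - a * M ^ 2 := by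
    have : p ^ 2 - a * M ^ 2 = (p - s * M) * (p + s * M) + (s ^ 2 - a) * M ^ 2 := by ring
    rw [this]; exact (h1.mul_right _).add (hs.mul_right _)
  have he1 : e.natDegree ≤ 1 := by
    by_cases h : e = 0
    · simp [h]
    have h3 : (p ^ 2 - a * M ^ 2).natDegree ≤ 6 := by
      refine (natDegree_sub_le _ _).trans (max_le ?_ ?_)
      · rw [natDegree_pow]; omega
      · refine natDegree_mul_le.trans ?_; rw [natDegree_pow]; omega
    rw [he, natDegree_mul hI.ne_zero h] at h3; omega
  have h4 : a ∣ F * (e - C q ^ 2) := by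
    have : F * (e - C q ^ 2) =
        (p + C q * B) * (p - C q * B) + (B ^ 2 - F) * C q ^ 2 - a * M ^ 2 := by
      linear_combination -he
    rw [this]; exact ((h2.mul_right _).add (hB.mul_right _)).sub (dvd_mul_right _ _)
  have hc : IsCoprime F a := (hI.coprime_iff_not_dvd).2 fun h => by
    have := natDegree_le_of_dvd h ha0; omega
  have h5 : e - C q ^ 2 = 0 := by
    by_contra h
    have h6 := natDegree_le_of_dvd (hc.symm.dvd_of_dvd_mul_left h4) h
    have h7 : (e - C q ^ 2).natDegree ≤ 1 :=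
      (natDegree_sub_le _ _).trans (max_le he1 (by rw [natDegree_pow, natDegree_C]; omega))
    omega
  have h8 : p ^ 2 - F * C q ^ 2 = a * M ^ 2 := by linear_combination he + F * h5
  refine ⟨p, M, q, fun hM0 => hne ?_, h8, h2⟩
  have h9 : p ^ 2 = F * C q ^ 2 := by rw [hM0] at h8; linear_combination h8
  have hq : q = 0 := by
    by_contra h
    have := congrArg natDegree h9
    rw [natDegree_pow, natDegree_mul hI.ne_zero (pow_ne_zero _ (C_ne_zero.2 h)), natDegree_pow,
      natDegree_C] at this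
    omega
  refine ⟨?_, hM0, hq⟩
  rw [hq] at h9
  simpa using h9

end Pool.Agent.P.MP_440ce3_nt
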