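import Pool.Agent.P.MP_440ce3_nt.A.Iface

/-! Step LOC of the Fermat quintic project. -/

namespace Pool.Agent.P.MP_440ce3_nt

open Polynomial NumberField

namespace LocA

variable {K Γ : Type} [Field K] [LinearOrderedCommGroupWithZero Γ] (V : Valuation K Γ)

theorem small {p u : K} (hp : V p < 1) (hu : V u ≤ 1) : V (p * u) < 1 := by
  rw [map_mul]
  exact (mul_le_of_le_one_right' hu).trans_lt hp

theorem one {g1 g2 g3 g4 g5 A0 A1 B0 B1 c0 c1 c2 : K} (h1 : V g1 = 1) (h2 : V g2 ≤ 1)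
    (h3 : V g3 ≤ 1) (h4 : V g4 ≤ 1) (h5 : V g5 = 1) (e0 : B0 ^ 2 = A0 * c0)
    (e1 : 2 * B0 * B1 - g1 = A0 * c1 + A1 * c0) (e2 : c0 = B1 ^ 2 - (g2 + A0 * c2 + A1 * c1))
    (e3 : c1 = g5 * A0 - A1 * c2 - g3) (e4 : c2 = g5 * A1 - g4) (a0 : V A0 < 1)
    (a1 : V A1 ≤ 1) : ∃ z : K, V A0 = V z ^ 2 := by
  have k2 : c2 ∈ V.integer := e4 ▸ sub_mem (mul_mem h5.le a1) h4
  have k1 : c1 ∈ V.integer := e3 ▸ sub_mem (sub_mem (mul_mem h5.le a0.le) (mul_mem a1 k2)) h3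
  have kS : g2 + A0 * c2 + A1 * c1 ∈ V.integer :=
    add_mem (add_mem h2 (mul_mem a0.le k2)) (mul_mem a1 k1)
  have v0 := congrArg V e0
  rw [map_pow, map_mul] at v0
  rcases lt_or_ge 1 (V B1) with hb | hb
  · have w1 : V (g2 + A0 * c2 + A1 * c1) < V (B1 ^ 2) := by
      rw [map_pow]
      exact lt_of_le_of_lt kS (one_lt_pow₀ hb two_ne_zero)
    have w2 : V B1 ≠ 0 := (zero_lt_one.trans hb).ne'
    refine ⟨B0 / B1, ?_⟩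
    rw [map_div₀, div_pow, v0, e2, V.map_sub_eq_of_lt_left w1, map_pow,
      mul_div_cancel_right₀ _ (pow_ne_zero 2 w2)]
  have k0 : c0 ∈ V.integer := e2 ▸ sub_mem (pow_mem (show B1 ∈ V.integer from hb) 2) kS
  rcases (show V c0 ≤ 1 from k0).eq_or_lt with hc | hc
  · exact ⟨B0, by rw [v0, hc, mul_one]⟩
  · exfalso
    have w1 : V B0 < 1 := by
      refine lt_of_not_ge fun h => (one_le_pow₀ h (n := 2)).not_gt ?_
      rw [v0, ← map_mul]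
      exact small V a0 hc.le
    have w2 : g1 = B0 * (B1 + B1) - A0 * c1 - c0 * A1 := by linear_combination -e1
    have w3 : B1 + B1 ∈ V.integer := add_mem hb hb
    refine h1.not_lt (w2 ▸ ?_)
    exact V.map_sub_lt (V.map_sub_lt (small V w1 w3) (small V a0 k1)) (small V hc a1)

theorem three {g1 g2 g3 g4 g5 A0 A1 B0 B1 c0 c1 c2 : K} (h1 : V g1 = 1) (h2 : V g2 ≤ 1)
    (h3 : V g3 ≤ 1) (h4 : V g4 ≤ 1) (h5 : V g5 = 1) (e0 : B0 ^ 2 = A0 * c0)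
    (e1 : 2 * B0 * B1 - g1 = A0 * c1 + A1 * c0) (e2 : c0 = B1 ^ 2 - (g2 + A0 * c2 + A1 * c1))
    (e3 : c1 = g5 * A0 - A1 * c2 - g3) (e4 : c2 = g5 * A1 - g4) (a0 : V A0 < V A1)
    (a1 : 1 < V A1) : ∃ z : K, V A0 = V z ^ 2 := by
  have n1 : V A1 ≠ 0 := (zero_lt_one.trans a1).ne'
  have n2 : A1 ≠ 0 := fun e => n1 (by rw [e, map_zero])
  have hp : V A1⁻¹ < 1 := by
    rw [map_inv₀]
    exact inv_lt_one_of_one_lt₀ a1
  have hq : V (A0 / A1) < 1 := by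
    rw [map_div₀]
    exact (div_lt_one₀ (zero_lt_iff.2 n1)).2 a0
  obtain ⟨G0, d0⟩ : ∃ G0, G0 = g1 - g3 * A0 + g4 * A0 * A1 + g5 * (A0 ^ 2 - A0 * A1 ^ 2) :=
    ⟨_, rfl⟩
  obtain ⟨G1, d1⟩ : ∃ G1,
      G1 = g2 - g3 * A1 + g4 * (A1 ^ 2 - A0) + g5 * (2 * A0 * A1 - A1 ^ 3) := ⟨_, rfl⟩
  have x0 : B0 ^ 2 - A0 * B1 ^ 2 = -A0 * G1 := by
    subst d1 e2 e3 e4
    linear_combination e0
  have x1 : 2 * B0 * B1 - A1 * B1 ^ 2 = G0 - A1 * G1 := by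
    subst d0 d1 e2 e3 e4
    linear_combination e1
  have x2 : (B0 ^ 2 - B0 * B1 * A1 + B1 ^ 2 * A0) ^ 2 =
      A0 * (G0 ^ 2 - A1 * G0 * G1 + A0 * G1 ^ 2) := by
    have : (B0 ^ 2 - B0 * B1 * A1 + B1 ^ 2 * A0) ^ 2 = (B0 ^ 2 - A0 * B1 ^ 2) ^ 2 -
        A1 * (B0 ^ 2 - A0 * B1 ^ 2) * (2 * B0 * B1 - A1 * B1 ^ 2) +
        A0 * (2 * B0 * B1 - A1 * B1 ^ 2) ^ 2 := by ring
    rw [this, x0, x1]
    ring
  let p : V.integer := ⟨A1⁻¹, hp.le⟩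
  let q : V.integer := ⟨A0 / A1, hq.le⟩
  let f1 : V.integer := ⟨g1, h1.le⟩
  let f2 : V.integer := ⟨g2, h2⟩
  let f3 : V.integer := ⟨g3, h3⟩
  let f4 : V.integer := ⟨g4, h4⟩
  let f5 : V.integer := ⟨g5, h5.le⟩
  let u : V.integer := f1 ^ 2 * p ^ 3 + f2 ^ 2 * q * p ^ 2 + f3 ^ 2 * q ^ 2 * p + f4 ^ 2 * q ^ 3 -
    f1 * f2 * p ^ 2 + f1 * f3 * p * (1 - 2 * p * q) + f1 * f4 * (-1 + 3 * p * q) +
    f1 * f5 * (-4 * q + 2 * p * q ^ 2) - f2 * f3 * q * p + f2 * f4 * q * (1 - 2 * p * q) -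
    f3 * f4 * q ^ 2
  let w : V.integer := f5 ^ 2 * q ^ 3 + f2 * f5 * (-1 + 3 * p * q) +
    f3 * f5 * q * (1 - 2 * p * q) - f4 * f5 * q ^ 2
  have c2' : ((2 : V.integer) : K) = 2 := map_ofNat V.integer.subtype 2
  have c3' : ((3 : V.integer) : K) = 3 := map_ofNat V.integer.subtype 3
  have c4' : ((4 : V.integer) : K) = 4 := map_ofNat V.integer.subtype 4
  have x3 : ((B0 ^ 2 - B0 * B1 * A1 + B1 ^ 2 * A0) / A1 ^ 2) ^ 2 =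
      A0 * (g1 * g5 + (A1⁻¹ * u + A0 / A1 * w)) := by
    rw [div_pow, x2, d0, d1]
    simp only [u, w, p, q, f1, f2, f3, f4, f5]
    push_cast [c2', c3', c4']
    field_simp
    ring
  have x4 : V (g1 * g5) = 1 := by rw [map_mul, h1, h5, one_mul]
  refine ⟨(B0 ^ 2 - B0 * B1 * A1 + B1 ^ 2 * A0) / A1 ^ 2, ?_⟩
  rw [← map_pow, x3, map_mul, V.map_add_eq_of_lt_left, x4, mul_one]
  rw [x4]
  exact V.map_add_lt (small V hp u.2) (small V hq w.2)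

end LocA

theorem p_LOC :
    S_LOC := by
  intro K Γ _ _ V g1 g2 g3 g4 g5 A0 A1 B0 B1 c0 c1 c2 h1 h2 h3 h4 h5 e0 e1 e2 e3 e4
  have e2' : c0 = B1 ^ 2 - (g2 + A0 * c2 + A1 * c1) := by linear_combination -e2
  have e3' : c1 = g5 * A0 - A1 * c2 - g3 := by linear_combination -e3
  have e4' : c2 = g5 * A1 - g4 := by linear_combination -e4
  rcases lt_trichotomy (V A0) 1 with a0 | a0 | a0
  · rcases le_or_gt (V A1) 1 with a1 | a1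
    · exact LocA.one V h1 h2 h3 h4 h5 e0 e1 e2' e3' e4' a0 a1
    · exact LocA.three V h1 h2 h3 h4 h5 e0 e1 e2' e3' e4' (a0.trans a1) a1
  · exact ⟨1, by rw [a0, map_one, one_pow]⟩
  rcases le_or_gt (V A1) (V A0) with a1 | a1
  · have n1 : V A0 ≠ 0 := (zero_lt_one.trans a0).ne'
    have n2 : A0 ≠ 0 := fun e => n1 (by rw [e, map_zero])
    have hp : V A0⁻¹ < 1 := by
      rw [map_inv₀]
      exact inv_lt_one_of_one_lt₀ a0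
    have hq : V (A1 * A0⁻¹) ≤ 1 := by
      rw [← div_eq_mul_inv, map_div₀]
      exact (div_le_one₀ (zero_lt_iff.2 n1)).2 a1
    subst e2' e3' e4'
    obtain ⟨z, hz⟩ := LocA.one V (B0 := -B1 * A0⁻¹ + B0 * (A1 * A0⁻¹) * A0⁻¹)
      (B1 := -B1 * (A1 * A0⁻¹) + B0 * ((A1 * A0⁻¹) ^ 2 - A0⁻¹)) h5 h4 h3 h2 h1 (by
        field_simp
        linear_combination (exp := 1) (-(A1 ^ 4 - 3 * A1 ^ 2 * A0 + A0 ^ 2)) * e0 -
          A0 * (-A1 ^ 3 + 2 * A1 * A0) * e1) (by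
        field_simp
        linear_combination (exp := 1) (-A1 ^ 5 + 4 * A1 ^ 3 * A0 - 3 * A1 * A0 ^ 2) * e0 +
          A0 * (A1 ^ 4 - 3 * A1 ^ 2 * A0 + A0 ^ 2) * e1) rfl rfl rfl hp hq
    refine ⟨z⁻¹, ?_⟩
    rw [map_inv₀, inv_pow, ← hz, map_inv₀, inv_inv]
  · exact LocA.three V h1 h2 h3 h4 h5 e0 e1 e2' e3' e4' a1 (a0.trans a1)

end Pool.Agent.P.MP_440ce3_nt
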