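import Pool.Agent.P.MP_440ce3_nt.A.Iface

/-! Step LVI of the Fermat quintic project. -/

namespace Pool.Agent.P.MP_440ce3_nt

open Polynomial NumberField

namespace LviA

theorem quot {n y a b : ℚ[X]} (hn : n.Monic) (c : ℚ) (h : n * y = a - C c * b) :
    y = a /ₘ n - C c * (b /ₘ n) := by
  have h1 := modByMonic_add_div a n
  have h2 := modByMonic_add_div b n
  have h3 : n * (y - (a /ₘ n - C c * (b /ₘ n))) = a %ₘ n - C c * (b %ₘ n) := by
    linear_combination h - h1 + C c * h2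
  have h4 : (a %ₘ n - C c * (b %ₘ n)).degree < n.degree := by
    refine (degree_sub_le _ _).trans_lt (max_lt (degree_modByMonic_lt _ hn) ?_)
    rw [← smul_eq_C_mul]
    exact (degree_smul_le _ _).trans_lt (degree_modByMonic_lt _ hn)
  have h5 := eq_zero_of_dvd_of_degree_lt ⟨_, h3.symm⟩ h4
  rw [h5, mul_eq_zero, sub_eq_zero] at h3
  exact h3.resolve_left hn.ne_zero

/-- componentwise quotient -/
noncomputable def dv (n : ℚ[X]) (z : R) : R := ⟨z.re /ₘ n, z.im /ₘ n⟩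

theorem dv_mem {n : ℚ[X]} {z : R} (hn : n.Monic) (h1 : n ∈ PO) (hz : z ∈ RO) : dv n z ∈ RO :=
  ⟨(divByMonic_mem hz.1 h1 hn).1, (divByMonic_mem hz.2 h1 hn).1⟩

theorem two_pow (k : ℕ) : (2 : R) ^ k = ι (C (2 ^ k)) := by
  rw [map_pow, map_pow, map_ofNat, map_ofNat]

theorem dv_eq {n : ℚ[X]} {y a b : R} (hn : n.Monic) (k : ℕ) (h : ι n * y = a - 2 ^ k * b) :
    y = dv n a - 2 ^ k * dv n b := by
  rw [two_pow] at h ⊢
  have h1 := congrArg QuadraticAlgebra.re h
  have h2 := congrArg QuadraticAlgebra.im h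
  rw [re_ι_mul, QuadraticAlgebra.re_sub, re_ι_mul] at h1
  rw [im_ι_mul, QuadraticAlgebra.im_sub, im_ι_mul] at h2
  ext1
  · rw [QuadraticAlgebra.re_sub, re_ι_mul]; exact quot hn _ h1
  · rw [QuadraticAlgebra.im_sub, im_ι_mul]; exact quot hn _ h2

theorem dv_deg {n : ℚ[X]} {z : R} (hn : n.Monic) {e : ℕ}
    (h : (nrm z).natDegree ≤ 2 * n.natDegree + e) : (nrm (dv n z)).natDegree ≤ e := by
  rw [nrm_le] at h ⊢
  have h1 : (dv n z).re.natDegree = z.re.natDegree - n.natDegree := natDegree_divByMonic _ hn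
  have h2 : (dv n z).im.natDegree = z.im.natDegree - n.natDegree := natDegree_divByMonic _ hn
  refine ⟨by omega, ?_⟩
  by_cases h0 : (dv n z).im = 0
  · exact Or.inl h0
  · have h3 : ¬ z.im.degree < n.degree := fun a => h0 ((divByMonic_eq_zero_iff hn).2 a)
    have h4 : n.natDegree ≤ z.im.natDegree := natDegree_le_natDegree (not_lt.1 h3)
    have h5 : z.im ≠ 0 := fun a => h0 (by
      change z.im /ₘ n = 0
      rw [a, zero_divByMonic])
    have h6 := h.2.resolve_left h5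
    right
    omega

end LviA

open LviA in
theorem p_LVI :
    S_LVI := by
  intro k I K n m hk hI hK e ⟨h, hh, s, hs, hx, hd, hr⟩
  obtain ⟨g0, g00, eg⟩ := span_of_cl_eq hI.1.ne_bot hK.1.ne_bot e
  obtain ⟨κ, hκ, hg, rg⟩ := exists_prim g00
  have hu : IsUnit (ι (C κ)) := (isUnit_C.mpr hκ.isUnit).map ι
  rw [← Ideal.span_singleton_mul_left_unit hu] at eg
  have g0' : ι (C κ) * g0 ≠ 0 := mul_ne_zero hu.ne_zero g00
  generalize ι (C κ) * g0 = g at hg rg eg g0'
  have as := (eg ▸ hI.1.mul hK.1.conj : IsN (Ideal.span {g}) (n * m)).assoc (IsN.span g0')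
  have dg : (nrm g).natDegree = n.natDegree + m.natDegree := by
    rw [← natDegree_eq_natDegree (degree_eq_degree_of_associated as),
      natDegree_mul hI.1.1 hK.1.1]
  have e2 : Ideal.span {ι n} * K = I * Ideal.span {star g} := by
    rw [← cj_span, ← eg, cj_mul, cj_cj, ← mul_assoc, hI.1.2]
  obtain ⟨y, hy, ey⟩ := Ideal.mem_span_singleton_mul.1
    (e2 ▸ Ideal.mul_mem_mul hx (Ideal.mem_span_singleton_self (star g)))
  have sg := star_mem_RO hg
  have ns : nrm (star g) = nrm g := QuadraticAlgebra.norm_star g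
  have ey' : ι n * y = h * star g - 2 ^ k * (s * star g) := by rw [ey]; ring
  have e3 := dv_eq hI.2.1 k ey'
  have m1 := dv_mem hI.2.1 hI.2.2 (RO.mul_mem hh sg)
  have m2 := dv_mem hI.2.1 hI.2.2 (RO.mul_mem hs sg)
  refine ⟨_, m1, _, m2, e3 ▸ hy, dv_deg hI.2.1 ?_, fun h0 => ?_⟩
  · rw [map_mul, ns]
    refine natDegree_mul_le.trans ?_
    omega
  · obtain ⟨t, ht, et⟩ := (red_nrm_eq_zero m1).1 h0
    obtain ⟨j, rfl⟩ : ∃ j, k = j + 1 := ⟨k - 1, by omega⟩
    have h2 : (2 : R) ∈ RO := ofNat_mem _ 2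
    have e4 : h * star g = 2 * (ι n * (t - 2 ^ j * dv n (s * star g)) + 2 ^ j * (s * star g)) := by
      rw [et] at e3
      rw [pow_succ (2 : R) j] at ey' e3
      linear_combination ι n * e3 - ey'
    have h3 := (red_nrm_eq_zero (RO.mul_mem hh sg)).2 ⟨_, RO.add_mem
      (RO.mul_mem (ι_mem_RO hI.2.2) (RO.sub_mem ht (RO.mul_mem (RO.pow_mem h2 j) m2)))
      (RO.mul_mem (RO.pow_mem h2 j) (RO.mul_mem hs sg)), e4⟩
    rw [map_mul, ns, red_mul (nrm_mem_PO hh) (nrm_mem_PO hg)] at h3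
    exact mul_ne_zero hr rg h3

end Pool.Agent.P.MP_440ce3_nt
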