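import Pool.Agent.P.MP_440ce3_nt.A.Iface

/-! Step LVP of the Fermat quintic project. -/

namespace Pool.Agent.P.MP_440ce3_nt

open Polynomial NumberField

namespace LvpA

theorem smul_eq (q : ℚ) (z : R) : q • z = ι (C q) * z := by
  ext1
  · rw [re_ι_mul, QuadraticAlgebra.re_smul, smul_eq_C_mul]
  · rw [im_ι_mul, QuadraticAlgebra.im_smul, smul_eq_C_mul]

/-- Elements of bounded degree. -/
def V (m : ℕ) : Submodule ℚ R where
  carrier := {h | (nrm h).natDegree ≤ m}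
  zero_mem' := by
    show (nrm 0).natDegree ≤ m
    rw [nrm_le]
    simp
  smul_mem' q h hh := by
    show (nrm (q • h)).natDegree ≤ m
    rw [smul_eq, map_mul, nrm_ι, ← C_pow]
    exact (natDegree_C_mul_le _ _).trans hh
  add_mem' {a b} ha hb := by
    obtain ⟨a1, a2⟩ := (nrm_le a m).1 ha
    obtain ⟨b1, b2⟩ := (nrm_le b m).1 hb
    refine (nrm_le (a + b) m).2 ⟨?_, ?_⟩
    · have := natDegree_add_le a.re b.re
      rw [QuadraticAlgebra.re_add]
      omega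
    · rw [QuadraticAlgebra.im_add]
      rcases a2 with a2 | a2
      · rwa [a2, zero_add]
      rcases b2 with b2 | b2
      · rw [b2, add_zero]
        exact Or.inr a2
      · have := natDegree_add_le a.im b.im
        exact Or.inr (by omega)

theorem bdd (T : R →ₗ[ℚ] R) (y : R) (m : ℕ) :
    ∃ k : ℕ, ∀ p ∈ PO, p.natDegree ≤ m → 2 ^ k * T (ι p * y) ∈ RO := by
  choose k hk using fun i : ℕ => exists_pow_mul_mem_RO (T (ι (X ^ i) * y))
  refine ⟨∑ i ∈ Finset.range (m + 1), k i, fun p hp hm => ?_⟩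
  rw [p.as_sum_range' (m + 1) (by omega), map_sum, Finset.sum_mul, map_sum, Finset.mul_sum]
  refine RO.sum_mem fun i hi => ?_
  obtain ⟨l, hl⟩ := Nat.exists_eq_add_of_le
    (Finset.single_le_sum (f := k) (fun _ _ => Nat.zero_le _) hi)
  rw [← C_mul_X_pow_eq_monomial, map_mul ι, mul_assoc, ← smul_eq, map_smul, smul_eq, hl]
  have e : (2 : R) ^ (k i + l) * (ι (C (p.coeff i)) * T (ι (X ^ i) * y)) =
      2 ^ l * ι (C (p.coeff i)) * (2 ^ k i * T (ι (X ^ i) * y)) := by ring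
  rw [e]
  exact RO.mul_mem (RO.mul_mem (RO.pow_mem (ofNat_mem RO 2) _)
    (ι_mem_RO (C_mem_PO (mem_PO.1 hp i)))) (hk i)

end LvpA

open LvpA

theorem p_LVP :
    S_LVP := by
  rintro I n ⟨hN, hm, hn⟩ hL
  let φ : V n.natDegree →ₗ[ℚ] R ⧸ I.restrictScalars ℚ :=
    (I.restrictScalars ℚ).mkQ ∘ₗ (V n.natDegree).subtype
  by_cases hφ : LinearMap.ker φ = ⊥
  · exfalso
    obtain ⟨ψ, hψ⟩ := φ.exists_leftInverse_of_injective hφ
    let T : R →ₗ[ℚ] R := (V n.natDegree).subtype ∘ₗ ψ ∘ₗ (I.restrictScalars ℚ).mkQ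
    have T0 : ∀ a b : R, a - b ∈ I → T a = T b := fun a b h => by
      have : (I.restrictScalars ℚ).mkQ a = (I.restrictScalars ℚ).mkQ b :=
        (Submodule.Quotient.eq _).2 h
      simp only [T, LinearMap.comp_apply, this]
    have T1 : ∀ h ∈ V n.natDegree, T h = h := fun h hh =>
      congrArg Subtype.val (LinearMap.congr_fun hψ ⟨h, hh⟩)
    have T2 : ∀ y : R, ∃ k : ℕ, ∀ p ∈ PO, 2 ^ k * T (ι p * y) ∈ RO := fun y => by
      obtain ⟨k, hk⟩ := bdd T y n.natDegree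
      refine ⟨k, fun p hp => ?_⟩
      rw [T0 (ι p * y) (ι (p %ₘ n) * y)]
      · exact hk _ (divByMonic_mem hp hn hm).2 (natDegree_modByMonic_le p hm)
      · rw [← sub_mul, ← map_sub, modByMonic_eq_sub_mul_div p n, sub_sub_cancel, map_mul]
        exact I.mul_mem_right _ (I.mul_mem_right _ hN.mem)
    obtain ⟨k, hk⟩ := T2 1
    obtain ⟨l, hl⟩ := T2 ⟨0, 1⟩
    obtain ⟨h, h1, s, h2, h3, h4, h5⟩ := hL (k + l + 1) (by omega)
    refine h5 ((red_nrm_eq_zero h1).2 ⟨2 ^ l * (2 ^ k * T (ι s.re * 1)) +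
      2 ^ k * (2 ^ l * T (ι s.im * ⟨0, 1⟩)), RO.add_mem
        (RO.mul_mem (RO.pow_mem (ofNat_mem RO 2) _) (hk _ h2.1))
        (RO.mul_mem (RO.pow_mem (ofNat_mem RO 2) _) (hl _ h2.2)), ?_⟩)
    have e1 : s = ι s.re * 1 + ι s.im * ⟨0, 1⟩ := by ext1 <;> simp
    have e2 : ∀ z : R, (2 : R) ^ (k + l + 1) * z = ((2 : ℚ) ^ (k + l + 1)) • z := fun z => by
      rw [smul_eq, map_pow, map_pow, map_ofNat C 2, map_ofNat ι 2]
    rw [← T1 h h4, T0 _ _ h3, e2, map_smul, ← e2]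
    conv_lhs => rw [e1, map_add]
    ring
  · obtain ⟨h, h1, h2⟩ := (Submodule.ne_bot_iff _).1 hφ
    have h0 : (h : R) ≠ 0 := fun e => h2 (Subtype.ext e)
    have hI : (h : R) ∈ I := (Submodule.Quotient.mk_eq_zero (I.restrictScalars ℚ)).1 h1
    obtain ⟨K, m, hK, e1, e2⟩ := hN.compl hI h0
    have h3 : (nrm (h : R)).natDegree ≤ n.natDegree := h.2
    rw [e2, natDegree_mul hN.1 hK.1] at h3
    have hu : IsUnit m := isUnit_iff_degree_eq_zero.2 (by
      rw [degree_eq_natDegree hK.1, show m.natDegree = 0 by omega]; rfl)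
    rw [hK.eq_top hu, Ideal.mul_top] at e1
    rw [← e1, cl_span]

end Pool.Agent.P.MP_440ce3_nt
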