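import Pool.Agent.P.MP_440ce3_nt.A.Iface

/-! Step M2 of the Fermat quintic project. -/

namespace Pool.Agent.P.MP_440ce3_nt

open Polynomial NumberField

namespace M2A

theorem zero_int {a b c d e : ℤ}
    (h : (a : 𝓞 L) + b * ao + c * ao ^ 2 + d * ao ^ 3 + e * ao ^ 4 = 0) : b = 0 ∧ d = 0 := by
  have h1 := congrArg (algebraMap (𝓞 L) L) h
  have h2 : ((a : ℚ) : L) + (b : ℚ) * al + (c : ℚ) * al ^ 2 + (d : ℚ) * al ^ 3 +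
      (e : ℚ) * al ^ 4 = 0 := by
    simpa [coe_ao] using h1
  have h3 := coords_zero h2
  exact ⟨by exact_mod_cast h3.2.1, by exact_mod_cast h3.2.2.2.1⟩

theorem par (hZA : S_ZA) {a b c d e : ℤ} {z : 𝓞 L}
    (h : (a : 𝓞 L) + b * ao + c * ao ^ 2 + d * ao ^ 3 + e * ao ^ 4 = 2 * z) : 2 ∣ b ∧ 2 ∣ d := by
  obtain ⟨z0, z1, z2, z3, z4, rfl⟩ := hZA z
  have h1 := zero_int (a := a - 2 * z0) (b := b - 2 * z1) (c := c - 2 * z2) (d := d - 2 * z3)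
    (e := e - 2 * z4) (by push_cast; linear_combination h)
  exact ⟨⟨z1, by omega⟩, ⟨z3, by omega⟩⟩

theorem sq_form (hZA : S_ZA) (t : 𝓞 L) : ∃ (a b c : ℤ) (s u : 𝓞 L),
    t ^ 2 = (a : 𝓞 L) ^ 2 + (b : 𝓞 L) ^ 2 * ao ^ 2 + (c : 𝓞 L) ^ 2 * ao ^ 4 + 2 * s ∧
      t = a + ao * u := by
  obtain ⟨a, b, c, d, e, rfl⟩ := hZA t
  refine ⟨a, b, c, (d : 𝓞 L) ^ 2 * ao + (e : 𝓞 L) ^ 2 * ao ^ 3 +
    a * (b * ao + c * ao ^ 2 + d * ao ^ 3 + e * ao ^ 4) +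
    b * ao * (c * ao ^ 2 + d * ao ^ 3 + e * ao ^ 4) + c * ao ^ 2 * (d * ao ^ 3 + e * ao ^ 4) +
    d * ao ^ 3 * (e * ao ^ 4), b + c * ao + d * ao ^ 2 + e * ao ^ 3, ?_, by ring⟩
  linear_combination ((d : 𝓞 L) ^ 2 * ao + (e : 𝓞 L) ^ 2 * ao ^ 3) * ao_pow

end M2A

theorem p_M2 (hZA : S_ZA) :
    S_M2 := by
  intro ε t y z hε h
  obtain ⟨a, b, c, s, u, h1, h2⟩ := M2A.sq_form hZA t
  obtain ⟨a', b', c', s', -, h3, -⟩ := M2A.sq_form hZA y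
  rw [h1, h3] at h
  have h4 : 2 ∣ a ^ 2 := by
    rcases hε with rfl | rfl | rfl
    · exact (M2A.par hZA (a := -a ^ 2 - a' ^ 2) (b := a ^ 2) (c := -b ^ 2 - b' ^ 2) (d := b ^ 2)
        (e := -c ^ 2 - c' ^ 2) (z := s' + z - (ao - 1) * s - (c : 𝓞 L) ^ 2) (by
          push_cast
          linear_combination h - (c : 𝓞 L) ^ 2 * ao_pow)).1
    · exact (M2A.par hZA (a := a ^ 2 - a' ^ 2) (b := a ^ 2) (c := b ^ 2 - b' ^ 2)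
        (d := a ^ 2 + b ^ 2) (e := c ^ 2 - c' ^ 2)
        (z := s' + z - (1 + ao + ao ^ 3) * s - ((b : 𝓞 L) ^ 2 + (c : 𝓞 L) ^ 2) -
          (c : 𝓞 L) ^ 2 * ao ^ 2) (by
          push_cast
          linear_combination h -
            ((b : 𝓞 L) ^ 2 + (c : 𝓞 L) ^ 2 + (c : 𝓞 L) ^ 2 * ao ^ 2) * ao_pow)).1
    · exact (Int.dvd_neg.1 (M2A.par hZA (a := -a ^ 2 - a' ^ 2) (b := 0)
        (c := a ^ 2 - b ^ 2 - b' ^ 2) (d := -a ^ 2) (e := a ^ 2 + b ^ 2 - c ^ 2 - c' ^ 2)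
        (z := s' + z - (ao - 1) * (1 + ao + ao ^ 3) * s - (-(b : 𝓞 L) ^ 2 +
          ((b : 𝓞 L) ^ 2 + (c : 𝓞 L) ^ 2) * ao - (c : 𝓞 L) ^ 2 * ao ^ 2 +
          (c : 𝓞 L) ^ 2 * ao ^ 3)) (by
          push_cast
          linear_combination h - (-(b : 𝓞 L) ^ 2 +
            ((b : 𝓞 L) ^ 2 + (c : 𝓞 L) ^ 2) * ao - (c : 𝓞 L) ^ 2 * ao ^ 2 +
            (c : 𝓞 L) ^ 2 * ao ^ 3) * ao_pow)).2)
  obtain ⟨m, hm⟩ := Int.prime_two.dvd_of_dvd_pow h4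
  refine ⟨ao ^ 4 * m + u, ?_⟩
  rw [h2, hm]
  push_cast
  linear_combination -(m : 𝓞 L) * ao_pow

end Pool.Agent.P.MP_440ce3_nt
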