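import Pool.Agent.P.MP_440ce3_nt.A.Iface

/-! Step MON of the Fermat quintic project. -/

namespace Pool.Agent.P.MP_440ce3_nt

open Polynomial NumberField

namespace MonA

theorem step (hRED : S_RED) {I : Ideal R} {N : ℚ[X]} (hI : IsN I N) (hN : N ∈ PO)
    (hr : red N ≠ 0) :
    ∃ (K : Ideal R) (m : ℚ[X]) (h : R), IsN K m ∧ m ∈ PO ∧ m.natDegree ≤ 2 ∧ red m ≠ 0 ∧
      h ∈ I ∧ h ∈ RO ∧ nrm h = N * m ∧ cl I * cl K = 1 := by
  obtain ⟨a, b, ha, hd, hc⟩ := hRED (cl I)⁻¹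
  have hK := isN_J hd
  have hIK : cl (I * J a b) = 1 := by rw [cl_mul hI.ne_bot hK.ne_bot, ← hc, mul_inv_cancel]
  obtain ⟨g, hg⟩ := (cl_eq_one_iff (hI.mul hK).ne_bot).mp hIK
  have g0 : g ≠ 0 := by
    rintro rfl
    exact (hI.mul hK).ne_bot (by rw [hg, Ideal.span_singleton_eq_bot])
  obtain ⟨κ, hκ, h1, h2⟩ := exists_prim g0
  have hgI : g ∈ I := by
    have : g ∈ I * J a b := by rw [hg]; exact Ideal.mem_span_singleton_self _
    exact (Ideal.mul_le_inf this).1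
  have hN2 : IsN (Ideal.span {g}) (N * a) := hg ▸ hI.mul hK
  obtain ⟨μ, hμ, e⟩ := assoc_iff.mp (hN2.assoc (IsN.span g0))
  have e2 : nrm (ι (C κ) * g) = N * (C (κ ^ 2 * μ) * a) := by
    rw [map_mul, nrm_ι, e, C_mul, C_pow]; ring
  have hm : C (κ ^ 2 * μ) * a ∈ PO := mem_PO_of_mul hN hr (e2 ▸ nrm_mem_PO h1)
  refine ⟨J a b, C (κ ^ 2 * μ) * a, ι (C κ) * g,
    hK.of_assoc (assoc_iff.mpr ⟨_, mul_ne_zero (pow_ne_zero 2 hκ) hμ, rfl⟩), hm,
    (natDegree_C_mul_le _ _).trans ha, ?_, I.mul_mem_left _ hgI, h1, e2, ?_⟩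
  · intro h0
    apply h2
    rw [e2, red_mul hN hm, h0, mul_zero]
  · rw [← hc, mul_inv_cancel]

/-- The class is a power of P0 times the class of an ideal with small monic integral norm. -/
def G (c : ClassGroup R) : Prop :=
  ∃ (j : ℕ) (K : Ideal R) (n : ℚ[X]), Mon K n ∧ n.natDegree ≤ 2 ∧ c = P0 ^ j * cl K

theorem G.mul {c : ClassGroup R} (h : G c) (i : ℕ) : G (P0 ^ i * c) := by
  obtain ⟨j, K, n, h1, h2, h3⟩ := h
  exact ⟨i + j, K, n, h1, h2, by rw [h3, pow_add, mul_assoc]⟩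

theorem G_of_deg {K : Ideal R} {m : ℚ[X]} (hK : IsN K m) (hm : m ∈ PO) (hd : m.natDegree ≤ 2)
    (h0 : red m ≠ 0) (h2 : (red m).natDegree = 2) : G (cl K) := by
  have h3 := natDegree_red_le m
  obtain ⟨m', has, hmon, hm'⟩ := exists_monic hm h0 (by omega)
  refine ⟨0, K, m', ⟨hK.of_assoc has, hmon, hm'⟩, ?_, by rw [pow_zero, one_mul]⟩
  rw [← natDegree_eq_natDegree (degree_eq_degree_of_associated has)]
  exact hd

theorem sq_of_le {h : R} (hh : h ∈ RO) (hd : (red (nrm h)).natDegree ≤ 4) :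
    red (nrm h) = red h.re ^ 2 := by
  rw [red_nrm hh] at hd ⊢
  rcases ((nf_natDegree_le _ _ 4).mp hd).2 with h0 | h0
  · rw [h0]; ring
  · omega

theorem cl_shift {K0 K : Ideal R} (h0 : K0 ≠ ⊥) (hK : K ≠ ⊥) {j : ℕ} (hj : j ≤ 5)
    (e : cl (K0 * D j) * cl K = 1) : cl K0 = P0 ^ (5 - j) * cl (cj K) := by
  rw [cl_mul h0 (D_ne_bot j), cl_D hj] at e
  have h5 : P0 ^ (5 - j) * P0 ^ j = 1 := by
    rw [← pow_add, Nat.sub_add_cancel hj, P0_pow_five]
  rw [cl_cj hK, ← eq_inv_of_mul_eq_one_left e, mul_left_comm, h5, mul_one]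

theorem red_X_pow (j : ℕ) : red (X ^ j) = X ^ j := by rw [red_pow X_mem_PO, red_X]

theorem caseA (hRED : S_RED) {K0 : Ideal R} {n : ℚ[X]} (hK : IsN K0 n) (hn : n ∈ PO)
    (h0 : red n ≠ 0) (hd : (red n).natDegree = 0) : G (cl K0) := by
  have hX : (X ^ 2 : ℚ[X]) ∈ PO := PO.pow_mem X_mem_PO 2
  have hX0 : (X ^ 2 : (ZMod 2)[X]) ≠ 0 := pow_ne_zero _ X_ne_zero
  have hN : n * X ^ 2 ∈ PO := PO.mul_mem hn hX
  have hr : red (n * X ^ 2) = red n * X ^ 2 := by rw [red_mul hn hX, red_X_pow]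
  obtain ⟨K, m, h, hKm, hm, hmd, hm0, hI, hO, e, hc⟩ :=
    step hRED (hK.mul (isN_D (j := 2) (by omega))) hN (by rw [hr]; exact mul_ne_zero h0 hX0)
  have e1 : red (nrm h) = red n * X ^ 2 * red m := by rw [e, red_mul hN hm, hr]
  have hm1 := natDegree_red_le m
  have d1 : (red (nrm h)).natDegree = 2 + (red m).natDegree := by
    rw [e1, natDegree_mul (mul_ne_zero h0 hX0) hm0, natDegree_mul h0 hX0, natDegree_X_pow, hd]
  have e2 := sq_of_le hO (by omega)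
  obtain ⟨r, hr2⟩ := (mem_D (j := 2) (by omega)).mp (Ideal.mul_le_inf hI).2
  have hrO : r ∈ PO := mem_PO_of_mul hX (by rw [red_X_pow]; exact hX0) (hr2 ▸ hO.1)
  have e3 : red h.re = X ^ 2 * red r := by rw [hr2, red_mul hX hrO, red_X_pow]
  have hr0 : red r ≠ 0 := by
    intro hz
    have : red (nrm h) = 0 := by rw [e2, e3, hz]; ring
    rw [e1] at this
    exact mul_ne_zero (mul_ne_zero h0 hX0) hm0 this
  have d2 : (red (nrm h)).natDegree = 2 * (2 + (red r).natDegree) := by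
    rw [e2, natDegree_pow, e3, natDegree_mul hX0 hr0, natDegree_X_pow]
  rw [cl_shift hK.ne_bot hKm.ne_bot (by omega) hc]
  exact (G_of_deg hKm.conj hm hmd hm0 (by omega)).mul _

theorem caseB (hRED : S_RED) {K0 : Ideal R} {n : ℚ[X]} (hK : IsN K0 n) (hn : n ∈ PO)
    (h0 : red n ≠ 0) (hd : (red n).natDegree = 1) : G (cl K0) := by
  have hX : (X ^ 1 : ℚ[X]) ∈ PO := PO.pow_mem X_mem_PO 1
  have hX0 : (X ^ 1 : (ZMod 2)[X]) ≠ 0 := pow_ne_zero _ X_ne_zero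
  have hN : n * X ^ 1 ∈ PO := PO.mul_mem hn hX
  have hr : red (n * X ^ 1) = red n * X ^ 1 := by rw [red_mul hn hX, red_X_pow]
  obtain ⟨K, m, h, hKm, hm, hmd, hm0, -, hO, e, hc⟩ :=
    step hRED (hK.mul (isN_D (j := 1) (by omega))) hN (by rw [hr]; exact mul_ne_zero h0 hX0)
  have e1 : red (nrm h) = red n * X ^ 1 * red m := by rw [e, red_mul hN hm, hr]
  have hm1 := natDegree_red_le m
  have d1 : (red (nrm h)).natDegree = 2 + (red m).natDegree := by
    rw [e1, natDegree_mul (mul_ne_zero h0 hX0) hm0, natDegree_mul h0 hX0, natDegree_X_pow, hd]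
  have e2 := sq_of_le hO (by omega)
  have d2 : (red (nrm h)).natDegree = 2 * (red h.re).natDegree := by
    rw [e2, natDegree_pow]
  rw [cl_shift hK.ne_bot hKm.ne_bot (by omega) hc]
  by_cases h2 : (red m).natDegree = 2
  · exact (G_of_deg hKm.conj hm hmd hm0 h2).mul _
  · exact (caseA hRED hKm.conj hm hm0 (by omega)).mul _

theorem caseC (hRED : S_RED) (c : ClassGroup R) : G c := by
  obtain ⟨a, b, ha, hd, rfl⟩ := hRED c
  have hK := isN_J hd
  obtain ⟨κ, hκ, h1, h2⟩ := exists_prim_poly hK.1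
  have hK' : IsN (J a b) (C κ * a) := hK.of_assoc (assoc_iff.mpr ⟨κ, hκ, rfl⟩)
  have h3 : (C κ * a).natDegree ≤ 2 := (natDegree_C_mul_le _ _).trans ha
  have h4 := natDegree_red_le (C κ * a)
  by_cases e0 : (red (C κ * a)).natDegree = 0
  · exact caseA hRED hK' h1 h2 e0
  · by_cases e1 : (red (C κ * a)).natDegree = 1
    · exact caseB hRED hK' h1 h2 e1
    · exact G_of_deg hK' h1 h3 h2 (by omega)

theorem fin2 {K : Ideal R} {n : ℚ[X]} (hK : Mon K n) (hd : n.natDegree = 2) :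
    cl K = 1 ∨ ∃ a b : ℚ[X], Q2 a b ∧ cl K = cl (J a b) := by
  rcases hK.1.red2 hd.le with h | ⟨b, h1, h2, h3⟩
  · exact Or.inl h
  · refine Or.inr ⟨n, b, ⟨hK.2.1, hK.2.2, hd, ?_, h1⟩, by rw [h3]⟩
    by_cases hb : b = 0
    · rw [hb, natDegree_zero]; omega
    · have := natDegree_lt_natDegree hb h2
      omega

end MonA

theorem p_MON (hRED : S_RED) :
    S_MON := by
  intro c
  obtain ⟨j, K, n, hK, hd, rfl⟩ := MonA.caseC hRED c
  by_cases e0 : n.natDegree = 0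
  · have h1 : n = 1 := hK.2.1.natDegree_eq_zero.mp e0
    refine ⟨j, Or.inl ?_⟩
    rw [hK.1.eq_top (by rw [h1]; exact isUnit_one), cl_top, mul_one]
  · by_cases e1 : n.natDegree = 1
    · have hK2 : Mon (K * D 1) (n * X ^ 1) :=
        ⟨hK.1.mul (isN_D (j := 1) (by omega)), hK.2.1.mul (monic_X_pow 1),
          PO.mul_mem hK.2.2 (PO.pow_mem X_mem_PO 1)⟩
      have hd2 : (n * X ^ 1).natDegree = 2 := by
        rw [hK.2.1.natDegree_mul (monic_X_pow 1), natDegree_X_pow, e1]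
      have e : cl K = P0 ^ 4 * cl (K * D 1) := by
        rw [cl_mul hK.1.ne_bot (D_ne_bot 1), cl_D (j := 1) (by omega), mul_left_comm, ← pow_add,
          P0_pow_five, mul_one]
      refine ⟨j + 4, ?_⟩
      rcases MonA.fin2 hK2 hd2 with h | ⟨a, b, hq, h⟩
      · left; rw [e, h, mul_one, pow_add]
      · right; exact ⟨a, b, hq, by rw [e, h, pow_add, mul_assoc]⟩
    · refine ⟨j, ?_⟩
      rcases MonA.fin2 hK (by omega) with h | ⟨a, b, hq, h⟩
      · left; rw [h, mul_one]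
      · right; exact ⟨a, b, hq, by rw [h]⟩

end Pool.Agent.P.MP_440ce3_nt
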