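import Pool.Agent.P.MP_440ce3_nt.A.Iface

/-! Step PID of the Fermat quintic project. -/

namespace Pool.Agent.P.MP_440ce3_nt

open Polynomial NumberField

namespace PidA

theorem discr_bL : Algebra.discr ℚ bL = 50000 := by
  have h := Algebra.discr_powerBasis_eq_norm ℚ (⟨al, 5, bL, bL_apply⟩ : PowerBasis ℚ L)
  rw [finrank_L] at h
  have e : aeval al (derivative (minpoly ℚ al)) =
      ((0 : ℚ) : L) + (0 : ℚ) * al + (0 : ℚ) * al ^ 2 + (0 : ℚ) * al ^ 3 + (5 : ℚ) * al ^ 4 := by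
    rw [minpoly_al]
    simp [map_ofNat]
    norm_num
  refine h.trans ?_
  rw [e, norm_coords, Nf]
  norm_num

theorem discr_le : |discr L| ≤ 50000 := by
  let b := Module.finBasisOfFinrankEq ℤ (𝓞 L) ((RingOfIntegers.rank L).trans finrank_L)
  have h1 := Algebra.discr_of_matrix_vecMul b (b.toMatrix fun i : Fin 5 => ao ^ (i : ℕ))
  rw [Module.Basis.toMatrix_map_vecMul, discr_eq_discr] at h1
  have h2 : ((Algebra.discr ℤ fun i : Fin 5 => ao ^ (i : ℕ) : ℤ) : ℚ) = 50000 := by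
    rw [← discr_bL, Algebra.discr_def, Algebra.discr_def, Int.cast_det]
    refine congrArg Matrix.det (Matrix.ext fun i j => ?_)
    simp [Algebra.traceMatrix_apply, Algebra.coe_trace_int, bL_apply, coe_ao]
  have h3 : (Algebra.discr ℤ fun i : Fin 5 => ao ^ (i : ℕ)) = 50000 := by exact_mod_cast h2
  exact Int.le_of_dvd (by norm_num) ((abs_dvd _ _).2 ⟨_, by rw [← h3, h1, mul_comm]⟩)

theorem gen {I : Ideal (𝓞 L)} (hI : I ≠ ⊤) {p : ℕ} (hp : p.Prime) (a b c d e : ℤ)
    (h : (Nf a b c d e).natAbs = p)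
    (hm : Ideal.Quotient.mk I (a + b * ao + c * ao ^ 2 + d * ao ^ 3 + e * ao ^ 4) = 0) :
    Submodule.IsPrincipal I := by
  obtain ⟨K, hK⟩ := Ideal.dvd_iff_le.2
    ((Ideal.span_singleton_le_iff_mem I).2 (Ideal.Quotient.eq_zero_iff_mem.1 hm))
  have h1 := congrArg Ideal.absNorm hK
  rw [Ideal.absNorm_span_singleton, norm_int, h, map_mul] at h1
  rcases (Nat.prime_mul_iff.1 (h1 ▸ hp)) with ⟨-, h2⟩ | ⟨-, h2⟩
  · rw [Ideal.absNorm_eq_one_iff.1 h2, Ideal.mul_top] at hK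
    exact ⟨_, hK.symm⟩
  · exact absurd (Ideal.absNorm_eq_one_iff.1 h2) hI

theorem small {I : Ideal (𝓞 L)} (hI : I.IsPrime) (h0 : I ≠ ⊥) (hq : Ideal.absNorm I ≤ 13) :
    Submodule.IsPrincipal I := by
  have := hI.isMaximal h0
  have h1 : Ideal.absNorm I ≠ 0 := fun h => h0 (Ideal.absNorm_eq_zero_iff.1 h)
  have := (Ideal.absNorm_ne_zero_iff I).1 h1
  let _ := Fintype.ofFinite (𝓞 L ⧸ I)
  let _ := Ideal.Quotient.field I
  have hc : Fintype.card (𝓞 L ⧸ I) = Ideal.absNorm I := by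
    rw [Ideal.absNorm_apply, Submodule.cardQuot_apply, Nat.card_eq_fintype_card]
  obtain ⟨x, hx⟩ : ∃ x, x = Ideal.Quotient.mk I ao := ⟨_, rfl⟩
  have x5 : x ^ 5 = 2 := by rw [hx, ← map_pow, ao_pow, map_ofNat]
  have xq := FiniteField.pow_card x
  have q0 := FiniteField.cast_card_eq_zero (𝓞 L ⧸ I)
  have q1 := Fintype.one_lt_card (α := 𝓞 L ⧸ I)
  have G : ∀ {p : ℕ}, p.Prime → ∀ a b c d e : ℤ, (Nf a b c d e).natAbs = p →
      (a : 𝓞 L ⧸ I) + b * x + c * x ^ 2 + d * x ^ 3 + e * x ^ 4 = 0 → Submodule.IsPrincipal I :=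
    fun hp a b c d e h hm => gen hI.ne_top hp a b c d e h (by simpa [hx] using hm)
  have c2 : (2 : 𝓞 L ⧸ I) = 0 → Submodule.IsPrincipal I := fun h =>
    G Nat.prime_two 0 1 0 0 0 (by decide) (by
      have : x = 0 := (pow_eq_zero_iff (by norm_num : 5 ≠ 0)).1 (x5.trans h)
      simp [this])
  by_cases h2 : (2 : 𝓞 L ⧸ I) = 0
  · exact c2 h2
  have x0 : x ≠ 0 := by
    rintro rfl
    exact h2 (by rw [← x5]; norm_num)
  have h3 := FiniteField.pow_card_sub_one_eq_one x x0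
  have c3 : (3 : 𝓞 L ⧸ I) = 0 → x ^ 8 = 1 → Submodule.IsPrincipal I := fun h h' =>
    G Nat.prime_three 1 1 0 0 0 (by decide) (by
      have a1 : x ^ 2 = 1 := by linear_combination (x ^ 5 + 2) * x5 - x ^ 2 * h' + h
      push_cast
      linear_combination x5 - x * (x ^ 2 + 1) * a1 + h)
  obtain ⟨p, -, n, hp, hn⟩ := FiniteField.card' (𝓞 L ⧸ I)
  have hpp : IsPrimePow (Fintype.card (𝓞 L ⧸ I)) := hn ▸ hp.isPrimePow.pow n.ne_zero
  rw [← hc] at hq
  generalize Fintype.card (𝓞 L ⧸ I) = q at *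
  interval_cases q
  · exact c2 (by exact_mod_cast q0)
  · exact c3 (by exact_mod_cast q0) (by
      linear_combination (x ^ 6 + x ^ 4 + x ^ 2 + 1) * h3)
  · push_cast at q0
    exact c2 ((pow_eq_zero_iff (by norm_num : 2 ≠ 0)).1 (by linear_combination q0))
  · refine G (p := 5) (by norm_num) 1 0 1 0 0 (by decide) ?_
    push_cast at q0 ⊢
    linear_combination (x + 2) * (x5 - xq) + q0
  · exact absurd hpp (by decide)
  · refine G (p := 7) (by norm_num) 1 1 1 0 0 (by decide) ?_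
    push_cast at q0 ⊢
    have a1 : x = 4 := by linear_combination 4 * h3 - 4 * x * x5 - x * q0
    rw [a1]
    linear_combination 3 * q0
  · push_cast at q0
    exact c2 ((pow_eq_zero_iff (by norm_num : 3 ≠ 0)).1 (by linear_combination q0))
  · push_cast at q0
    exact c3 ((pow_eq_zero_iff (by norm_num : 2 ≠ 0)).1 (by linear_combination q0)) h3
  · exact absurd hpp (by decide)
  · push_cast at q0
    exact absurd (by linear_combination 8 * (h3 - (x ^ 5 + 2) * x5) - 2 * q0) h2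
  · exact absurd hpp (by decide)
  · refine G (p := 13) (by norm_num) 1 0 (-1) 0 1 (by decide) ?_
    push_cast at q0 ⊢
    have a1 : 4 * x ^ 2 = 1 := by linear_combination h3 - x ^ 2 * (x ^ 5 + 2) * x5
    have a2 : x = 6 := by linear_combination 16 * x5 - x * (4 * x ^ 2 + 1) * a1 + 2 * q0
    rw [a2]
    linear_combination 97 * q0

end PidA

theorem p_PID :
    S_PID := by
  refine RingOfIntegers.isPrincipalIdealRing_of_isPrincipal_of_norm_le_of_isPrime
    fun I hI h => PidA.small hI (nonZeroDivisors.coe_ne_zero I) (Nat.lt_succ_iff.1 ?_)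
  refine (Nat.cast_lt (α := ℝ)).1 (h.trans_lt ?_)
  have h1 := InfinitePlace.card_add_two_mul_card_eq_rank L
  rw [finrank_L] at h1 ⊢
  have h2 : (4 / Real.pi) ^ InfinitePlace.nrComplexPlaces L ≤ (4 / 3.14 : ℝ) ^ 2 :=
    (pow_le_pow_right₀ ((one_le_div Real.pi_pos).2 Real.pi_le_four)
      (by omega : InfinitePlace.nrComplexPlaces L ≤ 2)).trans (by
      gcongr
      exact Real.pi_gt_d2.le)
  have h3 : √|(discr L : ℝ)| ≤ 223.61 := Real.sqrt_le_iff.2 ⟨by norm_num, le_trans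
    (by exact_mod_cast PidA.discr_le : |(discr L : ℝ)| ≤ 50000) (by norm_num)⟩
  refine (mul_le_mul h2 (mul_le_mul_of_nonneg_left h3 (by positivity)) (by positivity)
    (by positivity)).trans_lt ?_
  norm_num [Nat.factorial]

end Pool.Agent.P.MP_440ce3_nt
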