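import Pool.Agent.P.MP_440ce3_nt.A.Iface

/-! Step PT of the Fermat quintic project. -/

namespace Pool.Agent.P.MP_440ce3_nt

open Polynomial NumberField

namespace PtA

variable {K : Type} [Field K] [CharZero K]

variable (K) in
/-- The rational elements. -/
abbrev Rt : Subfield K := (algebraMap ℚ K).fieldRange

theorem root [FiniteDimensional ℚ K] (h3 : Module.finrank ℚ K ≤ 3) {p : ℕ} (hp : p.Prime)
    (h5 : 5 ≤ p) {r : K} (hr : r ^ p = 1) : r = 1 := by
  by_contra h1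
  have := Fact.mk hp
  have h2 : IsPrimitiveRoot r p := orderOf_eq_prime hr h1 ▸ IsPrimitiveRoot.orderOf r
  have h4 := minpoly.natDegree_le (A := ℚ) r
  rw [← cyclotomic_eq_minpoly_rat h2 hp.pos, natDegree_cyclotomic, Nat.totient_prime hp] at h4
  omega

theorem curve {x y z : K} (hy : y ≠ 0) (h : x ^ 5 + y ^ 5 + z ^ 5 = 0) :
    (x ^ 5 / y ^ 5) ^ 2 + x ^ 5 / y ^ 5 = (-(x * z / y ^ 2)) ^ 5 := by
  field_simp
  linear_combination x ^ 5 * h

theorem factA (H : S_PTC) {x y z : K} (hx : x ≠ 0) (hy : y ≠ 0) (hz : z ≠ 0)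
    (h : x ^ 5 + y ^ 5 + z ^ 5 = 0) (h1 : x * z / y ^ 2 ∈ Rt K) (h2 : x ^ 5 / y ^ 5 ∈ Rt K) :
    False := by
  obtain ⟨u, hu⟩ := neg_mem h1
  obtain ⟨w, hw⟩ := h2
  have h3 := curve hy h
  rw [← hu, ← hw] at h3
  have h4 : u = 0 := H.1 u w ((algebraMap ℚ K).injective (by simpa using h3))
  rw [h4, map_zero, eq_comm, neg_eq_zero] at hu
  exact div_ne_zero (mul_ne_zero hx hz) (pow_ne_zero _ hy) hu

theorem factB (H : S_PTC) {x y : K} (hx : x ≠ 0) (hy : y ≠ 0)
    (h : x ^ 5 + y ^ 5 + 1 ^ 5 = 0) (h1 : x ∈ Rt K) (h2 : y ∈ Rt K) : False :=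
  factA H hx hy one_ne_zero h (div_mem (mul_mem h1 (one_mem _)) (pow_mem h2 _))
    (div_mem (pow_mem h1 _) (pow_mem h2 _))

theorem two (H : S_PTC) (h2 : Module.finrank ℚ K = 2) {x y z : K} (hy : y ≠ 0)
    (h : x ^ 5 + y ^ 5 + z ^ 5 = 0) : x * z / y ^ 2 ∈ Rt K := by
  by_contra h1
  refine (H.2 K _ _ (curve hy h) fun q hq => h1 ?_).1 h2
  exact neg_mem_iff.1 ⟨q, hq.symm⟩

theorem three (H : S_PTC) (h3 : Module.finrank ℚ K = 3) {x y z : K} (hx : x ≠ 0) (hy : y ≠ 0)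
    (hz : z ≠ 0) (h : x ^ 5 + y ^ 5 + z ^ 5 = 0) :
    x ^ (3 : ℤ) * y ^ (-1 : ℤ) * z ^ (-2 : ℤ) ∈ Rt K ∨
      x ^ (-2 : ℤ) * y ^ (-1 : ℤ) * z ^ (3 : ℤ) ∈ Rt K := by
  have : FiniteDimensional ℚ K := Module.finite_of_finrank_pos (by omega)
  have hc := curve hy h
  have h1 : ∀ q : ℚ, -(x * z / y ^ 2) ≠ algebraMap ℚ K q := fun q hq => by
    refine factA H hx hy hz h (neg_mem_iff.1 ⟨q, hq.symm⟩) ?_
    have hi : IsIntegral ℚ (x ^ 5 / y ^ 5) := Algebra.IsIntegral.isIntegral _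
    have h4 : (minpoly ℚ (x ^ 5 / y ^ 5)).natDegree ≤ (X ^ 2 + X - C (q ^ 5) : ℚ[X]).natDegree := by
      refine natDegree_le_of_dvd (minpoly.dvd _ _ ?_) (Monic.ne_zero (by monicity!))
      rw [hq] at hc
      simp [hc]
    have h5 : (X ^ 2 + X - C (q ^ 5) : ℚ[X]).natDegree ≤ 2 := by compute_degree
    have h6 := minpoly.degree_dvd hi
    rw [h3] at h6
    rcases (Nat.dvd_prime Nat.prime_three).1 h6 with h7 | h7
    · exact minpoly.natDegree_eq_one_iff.1 h7
    · omega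
  obtain ⟨q, hq | hq⟩ := (H.2 K _ _ hc h1).2 h3
  · refine Or.inl ⟨q, ?_⟩
    simp only [zpow_neg, zpow_ofNat]
    field_simp at hq ⊢
    linear_combination -hq
  · refine Or.inr (neg_mem_iff.1 ⟨q, ?_⟩)
    simp only [zpow_neg, zpow_ofNat]
    field_simp at hq ⊢
    exact mul_right_cancel₀ (pow_ne_zero 2 hz) (by linear_combination h - hq)

theorem seven (h3 : Module.finrank ℚ K = 3) {x : K} (hx : x ≠ 0) (h : x ^ (7 : ℤ) ∈ Rt K) :
    x ∈ Rt K := by
  have : FiniteDimensional ℚ K := Module.finite_of_finrank_pos (by omega)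
  obtain ⟨q, hq⟩ := h
  rw [zpow_ofNat] at hq
  have h1 : Algebra.norm ℚ x ^ 7 = q ^ 3 := by
    rw [← map_pow, ← hq, Algebra.norm_algebraMap, h3]
  have h2 : Algebra.norm ℚ x ≠ 0 := Algebra.norm_ne_zero_iff.2 hx
  have h0 : q ≠ 0 := fun h0 => pow_ne_zero 7 hx (by rw [← hq, h0, map_zero])
  have h4 : (q / Algebra.norm ℚ x ^ 2) ^ 7 = q := by
    rw [div_pow, ← pow_mul, mul_comm, pow_mul, h1]
    field_simp
  have h5 : algebraMap ℚ K (q / Algebra.norm ℚ x ^ 2) ≠ 0 :=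
    (_root_.map_ne_zero _).2 (div_ne_zero h0 (pow_ne_zero _ h2))
  have h6 : x / algebraMap ℚ K (q / Algebra.norm ℚ x ^ 2) = 1 :=
    root h3.le (p := 7) (by norm_num) (by norm_num) (by
      rw [div_pow, ← map_pow, h4, hq, div_self (pow_ne_zero _ hx)])
  exact ⟨_, ((div_eq_one_iff_eq h5).1 h6).symm⟩

theorem det (H : S_PTC) (h3 : Module.finrank ℚ K = 3) {x y : K} (hx : x ≠ 0) (hy : y ≠ 0)
    (h : x ^ 5 + y ^ 5 + 1 ^ 5 = 0) {i j k l : ℤ} (h1 : x ^ i * y ^ j ∈ Rt K)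
    (h2 : x ^ k * y ^ l ∈ Rt K) (hd : i * l - k * j = 7) : False := by
  refine factB H hx hy h (seven h3 hx ?_) (seven h3 hy ?_)
  · have h4 := div_mem (zpow_mem h1 l) (zpow_mem h2 j)
    rwa [mul_zpow, mul_zpow, ← zpow_mul, ← zpow_mul, ← zpow_mul, ← zpow_mul, mul_comm l j,
      mul_div_mul_right _ _ (zpow_ne_zero _ hy), ← zpow_sub₀ hx, hd] at h4
  · have h4 := div_mem (zpow_mem h2 i) (zpow_mem h1 k)
    rwa [mul_zpow, mul_zpow, ← zpow_mul, ← zpow_mul, ← zpow_mul, ← zpow_mul, mul_comm k i,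
      mul_div_mul_left _ _ (zpow_ne_zero _ hx), ← zpow_sub₀ hy, mul_comm l i, mul_comm j k,
      hd] at h4

theorem main (H : S_PTC) (h1 : 1 ≤ Module.finrank ℚ K) (h3 : Module.finrank ℚ K ≤ 3) {x y : K}
    (hx : x ≠ 0) (hy : y ≠ 0) (h : x ^ 5 + y ^ 5 + 1 ^ 5 = 0) : x + y + 1 = 0 := by
  have : FiniteDimensional ℚ K := Module.finite_of_finrank_pos h1
  have h' : y ^ 5 + x ^ 5 + 1 ^ 5 = 0 := by linear_combination h
  have h'' : x ^ 5 + 1 ^ 5 + y ^ 5 = 0 := by linear_combination h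
  rcases (by omega : Module.finrank ℚ K = 1 ∨ Module.finrank ℚ K = 2 ∨ Module.finrank ℚ K = 3)
    with hd | hd | hd
  · have h4 : ∀ t : K, t ∈ Rt K := fun t => by
      have h5 : t ∈ (⊥ : Subalgebra ℚ K) := by
        rw [Subalgebra.bot_eq_top_iff_finrank_eq_one.2 hd]
        trivial
      exact Algebra.mem_bot.1 h5
    exact (factB H hx hy h (h4 x) (h4 y)).elim
  · have a1 := two H hd hx h'
    have a2 := two H hd one_ne_zero h''
    rw [mul_one] at a1
    rw [one_pow, div_one] at a2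
    obtain ⟨c, rfl⟩ : ∃ c, y = c * x ^ 2 := ⟨y / x ^ 2, by field_simp⟩
    rw [mul_div_cancel_right₀ _ (pow_ne_zero _ hx)] at a1
    have hc : c ≠ 0 := left_ne_zero_of_mul hy
    have hA : x ^ 3 ∈ Rt K := by
      have h4 := div_mem a2 a1
      rwa [show x * (c * x ^ 2) / c = x ^ 3 by field_simp] at h4
    have hB : c ^ 5 * (x ^ 3) ^ 3 ∈ Rt K := mul_mem (pow_mem a1 _) (pow_mem hA _)
    have e1 : ((c ^ 5 * (x ^ 3) ^ 3) ^ 2 - x ^ 3) * x = (x ^ 3) ^ 3 - c ^ 5 * (x ^ 3) ^ 3 := by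
      linear_combination (c ^ 5 * (x ^ 3) ^ 3 - x ^ 4) * h
    by_cases e2 : (c ^ 5 * (x ^ 3) ^ 3) ^ 2 - x ^ 3 = 0
    · rw [e2, zero_mul] at e1
      have e3 : c = 1 := root h3 (p := 5) (by norm_num) le_rfl
        (mul_right_cancel₀ (pow_ne_zero 9 hx) (by linear_combination e1))
      subst e3
      have e4 : x ^ 3 = 1 := root h3 (p := 5) (by norm_num) le_rfl
        (mul_right_cancel₀ (pow_ne_zero 3 hx) (by linear_combination e2))
      linear_combination h - (x ^ 2 + x * (x ^ 6 + x ^ 3 + 1)) * e4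
    · have hx' : x ∈ Rt K := by
        rw [eq_div_of_mul_eq e2 ((mul_comm _ _).trans e1)]
        exact div_mem (sub_mem (pow_mem hA _) hB) (sub_mem (pow_mem hB _) hA)
      exact (factB H hx hy h hx' (mul_mem a1 (pow_mem hx' _))).elim
  · have a1 := three H hd hx hy one_ne_zero h
    have a2 := three H hd hy hx one_ne_zero h'
    have a3 := three H hd hx one_ne_zero hy h''
    simp only [one_zpow, mul_one] at a1 a2 a3
    rw [mul_comm, mul_comm (y ^ (-2 : ℤ))] at a2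
    exfalso
    rcases a1 with a1 | a1 <;> rcases a2 with a2 | a2
    · rcases a3 with a3 | a3
      · exact det H hd hx hy h a3 a2 (by norm_num)
      · exact det H hd hx hy h a1 a3 (by norm_num)
    · exact det H hd hx hy h a2 a1 (by norm_num)
    · exact det H hd hx hy h a2 a1 (by norm_num)
    · rcases a3 with a3 | a3
      · exact det H hd hx hy h a1 a3 (by norm_num)
      · exact det H hd hx hy h a3 a2 (by norm_num)

theorem zero (h1 : 1 ≤ Module.finrank ℚ K) (h3 : Module.finrank ℚ K ≤ 3) {x y : K}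
    (h : x ^ 5 + y ^ 5 = 0) : x + y = 0 := by
  have : FiniteDimensional ℚ K := Module.finite_of_finrank_pos h1
  by_cases hy : y = 0
  · subst hy
    simpa using h
  have h4 : -x / y = 1 := root h3 (p := 5) (by norm_num) le_rfl (by
    field_simp
    linear_combination -h)
  rw [div_eq_one_iff_eq hy] at h4
  linear_combination -h4

end PtA

theorem p_PT (hPTC : S_PTC) :
    S_PT := by
  intro K _ inst h1 h3 x y z h
  have : CharZero K := algebraRat.charZero K
  obtain rfl : inst = DivisionRing.toRatAlgebra := Subsingleton.elim _ _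
  by_cases hx : x = 0
  · subst hx
    simpa using PtA.zero h1 h3 (x := y) (y := z) (by simpa using h)
  by_cases hy : y = 0
  · subst hy
    simpa using PtA.zero h1 h3 (x := x) (y := z) (by simpa using h)
  by_cases hz : z = 0
  · subst hz
    simpa using PtA.zero h1 h3 (x := x) (y := y) (by simpa using h)
  have h4 := PtA.main hPTC h1 h3 (div_ne_zero hx hz) (div_ne_zero hy hz) (by
    field_simp
    linear_combination h)
  field_simp at h4
  linear_combination h4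

end Pool.Agent.P.MP_440ce3_nt
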