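import Pool.Agent.P.MP_440ce3_nt.A.Iface

/-! Step PTC of the Fermat quintic project. -/

namespace Pool.Agent.P.MP_440ce3_nt

open Polynomial NumberField

namespace PtcA

theorem step {a c ε : ℚ[X]} (hd : a ∣ c ^ 2 + c - X ^ 5) {E : Ideal R} {k : ℕ}
    (hE : IsN E (X ^ k)) (h1 : cl (J a c) * cl E = 1)
    (h2 : ∀ h ∈ E, (X : ℚ[X]) ^ k ∣ h.re - ε * h.im) :
    ∃ (A B : ℚ[X]) (κ : ℚ), κ ≠ 0 ∧ A ^ 2 - A * B - X ^ 5 * B ^ 2 = C κ * (a * X ^ k) ∧
      a ∣ A + B * c ∧ X ^ k ∣ A - ε * B := by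
  have h0 : J a c * E ≠ ⊥ := mul_ne_zero (J_ne_bot a c) hE.ne_bot
  rw [← cl_mul (J_ne_bot a c) hE.ne_bot, cl_eq_one_iff h0] at h1
  obtain ⟨h, hh⟩ := h1
  have hne : h ≠ 0 := by
    rintro rfl
    exact h0 (by rw [hh, Ideal.span_singleton_eq_bot])
  have hN : IsN (Ideal.span {h}) (a * X ^ k) := hh ▸ (isN_J hd).mul hE
  obtain ⟨κ, hκ, h3⟩ := assoc_iff.mp (hN.assoc (IsN.span hne))
  have hm : h ∈ J a c * E := by rw [hh]; exact Ideal.mem_span_singleton_self _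
  have hm2 := Ideal.mul_le_inf hm
  exact ⟨h.re, h.im, κ, hκ, by rw [← nrm_eq, h3], (mem_J hd).mp hm2.1, h2 h hm2.2⟩

theorem cur (hGRP : S_GRP) {a c : ℚ[X]} (hd : a ∣ c ^ 2 + c - X ^ 5) :
    ∃ (k : ℕ) (ε : ℚ[X]), k ≤ 2 ∧ (ε = 0 ∨ ε = 1) ∧ ∃ (A B : ℚ[X]) (κ : ℚ), κ ≠ 0 ∧
      A ^ 2 - A * B - X ^ 5 * B ^ 2 = C κ * (a * X ^ k) ∧ a ∣ A + B * c ∧ X ^ k ∣ A - ε * B := by
  obtain ⟨j, hj⟩ := hGRP (cl (J a c))
  rw [pow_eq_pow_mod j P0_pow_five] at hj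
  have hA : ∀ k, k ≤ 2 → P0 ^ (j % 5 + k) = 1 →
      ∃ (k : ℕ) (ε : ℚ[X]), k ≤ 2 ∧ (ε = 0 ∨ ε = 1) ∧ ∃ (A B : ℚ[X]) (κ : ℚ), κ ≠ 0 ∧
      A ^ 2 - A * B - X ^ 5 * B ^ 2 = C κ * (a * X ^ k) ∧ a ∣ A + B * c ∧ X ^ k ∣ A - ε * B := by
    intro k hk h
    refine ⟨k, 0, hk, Or.inl rfl, step hd (isN_D (j := k) (by omega)) ?_ fun h hh => ?_⟩
    · rw [hj, cl_D (by omega), ← pow_add, h]
    · simpa using (mem_D (by omega)).mp hh
  have hB : ∀ k, k ≤ 2 → j % 5 = k →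
      ∃ (k : ℕ) (ε : ℚ[X]), k ≤ 2 ∧ (ε = 0 ∨ ε = 1) ∧ ∃ (A B : ℚ[X]) (κ : ℚ), κ ≠ 0 ∧
      A ^ 2 - A * B - X ^ 5 * B ^ 2 = C κ * (a * X ^ k) ∧ a ∣ A + B * c ∧ X ^ k ∣ A - ε * B := by
    intro k hk h
    refine ⟨k, 1, hk, Or.inr rfl, step hd (isN_D (j := k) (by omega)).conj ?_ fun h hh => ?_⟩
    · rw [hj, cl_cj (D_ne_bot k), cl_D (by omega), h, mul_inv_cancel]
    · rw [D, cj_J, mem_J] at hh
      · have e : h.re - 1 * h.im = h.re + h.im * (-1 - 0) := by ring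
        rwa [e]
      · have e : ((-1 - 0) ^ 2 + (-1 - 0) - X ^ 5 : ℚ[X]) = 0 ^ 2 + 0 - X ^ 5 := by ring
        rw [e]
        exact D_dvd (by omega)
  have h5 : j % 5 < 5 := Nat.mod_lt _ (by norm_num)
  rcases Nat.lt_or_ge (j % 5) 3 with h | h
  · exact hB _ (by omega) rfl
  · refine hA (5 - j % 5) (by omega) ?_
    rw [show j % 5 + (5 - j % 5) = 5 by omega, P0_pow_five]

theorem deg_eq {a : ℚ[X]} (ha : a ≠ 0) {κ : ℚ} (hκ : κ ≠ 0) (k : ℕ) :
    (C κ * (a * X ^ k)).natDegree = a.natDegree + k := by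
  rw [natDegree_C_mul hκ, natDegree_mul ha (pow_ne_zero _ X_ne_zero), natDegree_X_pow]

theorem part1 (hGRP : S_GRP) (u w : ℚ) (h : w ^ 2 + w = u ^ 5) : u = 0 := by
  have hd : (X - C u : ℚ[X]) ∣ C w ^ 2 + C w - X ^ 5 := by
    rw [dvd_iff_isRoot]
    simp [h]
  obtain ⟨k, ε, hk, -, A, B, κ, hκ, h1, -, h3⟩ := cur hGRP hd
  have h4 := congrArg natDegree h1
  rw [deg_eq (X_sub_C_ne_zero u) hκ, natDegree_X_sub_C] at h4
  have hB : B = 0 := by
    by_contra hB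
    rw [nf_natDegree A B hB] at h4
    omega
  subst hB
  have e : A ^ 2 - A * 0 - X ^ 5 * 0 ^ 2 = A ^ 2 := by ring
  rw [e] at h1 h4
  rw [natDegree_pow] at h4
  obtain rfl : k = 1 := by omega
  obtain ⟨s, hs⟩ := h3
  have h5 : A = X * s := by linear_combination hs
  have h6 : X * s ^ 2 = C κ * (X - C u) := by
    apply mul_left_cancel₀ (X_ne_zero (R := ℚ))
    rw [h5] at h1
    linear_combination h1
  have h7 := congrArg (eval 0) h6
  simp at h7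
  exact h7.resolve_left hκ

theorem part2 (hGRP : S_GRP) (K : Type) [Field K] [Algebra ℚ K] (u w : K)
    (h : w ^ 2 + w = u ^ 5) (hu : ∀ q : ℚ, u ≠ algebraMap ℚ K q) (n : ℕ) (hn : n.Prime)
    (hn3 : n ≤ 3) (hK : Module.finrank ℚ K = n) :
    n = 3 ∧ ∃ q : ℚ, w = algebraMap ℚ K q * u ^ 2 ∨ w + 1 = algebraMap ℚ K q * u ^ 2 := by
  have : FiniteDimensional ℚ K := Module.finite_of_finrank_pos (by rw [hK]; exact hn.pos)
  have hint : IsIntegral ℚ u := IsIntegral.of_finite ℚ u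
  have hdeg : (minpoly ℚ u).natDegree = n := by
    have h1 := minpoly.degree_dvd hint
    rw [hK] at h1
    refine ((Nat.dvd_prime hn).mp h1).resolve_left fun h2 => ?_
    obtain ⟨q, hq⟩ := minpoly.natDegree_eq_one_iff.mp h2
    exact hu q hq.symm
  have htop : IntermediateField.adjoin ℚ {u} = ⊤ :=
    (Field.primitive_element_iff_minpoly_natDegree_eq ℚ u).mpr (hdeg.trans hK.symm)
  obtain ⟨c, hc⟩ : ∃ c : ℚ[X], aeval u c = w := by
    have h1 : w ∈ (IntermediateField.adjoin ℚ {u}).toSubalgebra := by rw [htop]; trivial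
    rw [IntermediateField.adjoin_simple_toSubalgebra_of_isAlgebraic hint.isAlgebraic,
      Algebra.adjoin_singleton_eq_range_aeval] at h1
    exact h1
  have hd : minpoly ℚ u ∣ c ^ 2 + c - X ^ 5 := minpoly.dvd ℚ u (by simp [hc, h])
  obtain ⟨k, ε, hk, hε, A, B, κ, hκ, h1, h2, h3⟩ := cur hGRP hd
  have ha0 := minpoly.ne_zero hint
  have h4 := congrArg natDegree h1
  rw [deg_eq ha0 hκ, hdeg] at h4
  have hB : B ≠ 0 := by
    rintro rfl
    have hp : Prime (minpoly ℚ u) := minpoly.prime hint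
    obtain ⟨s, hs⟩ := h2
    have h5 : A = minpoly ℚ u * s := by linear_combination hs
    have h6 : minpoly ℚ u * s ^ 2 = C κ * X ^ k := by
      apply mul_left_cancel₀ ha0
      rw [h5] at h1
      linear_combination h1
    have h7 := congrArg (aeval u) h6
    simp only [map_mul, minpoly.aeval, zero_mul, aeval_C, map_pow, aeval_X] at h7
    rcases mul_eq_zero.mp h7.symm with h8 | h8
    · exact hκ ((map_eq_zero _).mp h8)
    · exact hu 0 (by rw [map_zero]; exact eq_zero_of_pow_eq_zero h8)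
  rw [nf_natDegree A B hB] at h4
  obtain rfl : k = 2 := by omega
  refine ⟨by omega, ?_⟩
  have hB0 : B.natDegree = 0 := by omega
  have hA2 : A.natDegree ≤ 2 := by omega
  obtain ⟨β, rfl⟩ := natDegree_eq_zero.mp hB0
  have hβ : β ≠ 0 := fun h0 => hB (by rw [h0, C_0])
  obtain ⟨s, hs⟩ := h3
  have hs0 : s.natDegree = 0 := by
    by_cases h0 : s = 0
    · rw [h0, natDegree_zero]
    · have h5 := congrArg natDegree hs
      rw [natDegree_mul (pow_ne_zero _ X_ne_zero) h0, natDegree_X_pow] at h5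
      have h6 : (ε * C β).natDegree = 0 := by
        rcases hε with rfl | rfl <;> simp
      have h7 := natDegree_sub_le A (ε * C β)
      omega
  obtain ⟨α, rfl⟩ := natDegree_eq_zero.mp hs0
  have h8 : aeval u (A + C β * c) = 0 := by
    obtain ⟨t, ht⟩ := h2
    rw [ht, map_mul, minpoly.aeval, zero_mul]
  have h9 : A = ε * C β + X ^ 2 * C α := by linear_combination hs
  have hβ' : algebraMap ℚ K β ≠ 0 := (_root_.map_ne_zero _).mpr hβ
  refine ⟨-α / β, ?_⟩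
  rw [h9] at h8
  simp only [map_add, map_mul, map_pow, aeval_X, aeval_C, hc] at h8
  rw [map_div₀, map_neg]
  rcases hε with rfl | rfl
  · left
    rw [map_zero] at h8
    field_simp
    linear_combination h8
  · right
    rw [map_one] at h8
    field_simp
    linear_combination h8

end PtcA

theorem p_PTC (hGRP : S_GRP) :
    S_PTC := by
  refine ⟨PtcA.part1 hGRP, fun K _ _ u w h hu => ⟨fun h2 => ?_, fun h3 => ?_⟩⟩
  · have := (PtcA.part2 hGRP K u w h hu 2 Nat.prime_two (by norm_num) h2).1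
    omega
  · exact (PtcA.part2 hGRP K u w h hu 3 Nat.prime_three le_rfl h3).2

end Pool.Agent.P.MP_440ce3_nt
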