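import Pool.Agent.P.MP_440ce3_nt.A.Iface

/-! Step RED of the Fermat quintic project. -/

namespace Pool.Agent.P.MP_440ce3_nt

open Polynomial NumberField

namespace RedA

theorem step (n : ℕ) : ∀ a c : ℚ[X], a.natDegree = n → a ∣ c ^ 2 + c - X ^ 5 →
    ∃ a' b : ℚ[X], a'.natDegree ≤ 2 ∧ a' ∣ b ^ 2 + b - X ^ 5 ∧ cl (J a c) = cl (J a' b) := by
  induction n using Nat.strong_induction_on with
  | _ n ih =>
  intro a c hn hd
  by_cases h2 : a.natDegree ≤ 2
  · exact ⟨a, c, h2, hd, rfl⟩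
  have ha : a ≠ 0 := (isN_J hd).1
  have h1 : a ∣ c - c % a := ⟨c / a, by linear_combination -(EuclideanDomain.div_add_mod c a)⟩
  have h3 : (c % a).natDegree < a.natDegree := natDegree_mod_lt c (by omega)
  have h4 : a ∣ (c % a) ^ 2 + c % a - X ^ 5 := by
    have e : (c % a) ^ 2 + c % a - X ^ 5 =
        c ^ 2 + c - X ^ 5 - (c - c % a) * (c + c % a + 1) := by ring
    rw [e]
    exact dvd_sub hd (h1.mul_right _)
  rw [J_congr h1]
  generalize c % a = b at h3 h4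
  obtain ⟨a', h5⟩ := h4
  have h6 : a' ∣ b ^ 2 + b - X ^ 5 := ⟨a, by rw [h5, mul_comm]⟩
  have h7 := nf_natDegree (-b) 1 one_ne_zero
  have e : (-b) ^ 2 - -b * 1 - X ^ 5 * 1 ^ 2 = a * a' := by rw [← h5]; ring
  rw [e, natDegree_mul ha (isN_J h6).1, natDegree_neg, natDegree_one] at h7
  rw [cl_of_span (J_ne_bot a b) (J_ne_bot a' b) (J_mul_J h5.symm).symm, cj_J]
  exact ih a'.natDegree (by omega) a' _ rfl ⟨a, by linear_combination h5⟩

end RedA

theorem p_RED :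
    S_RED := by
  intro c
  obtain ⟨I, hI, rfl⟩ := cl_surj c
  obtain ⟨e, a, b, he, hd, h, -⟩ := hnf hI
  rw [h, cl_mul (mt Ideal.span_singleton_eq_bot.1 (ι_ne_zero he)) (J_ne_bot a b), cl_span, one_mul]
  exact RedA.step _ a b rfl hd

end Pool.Agent.P.MP_440ce3_nt
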