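import Pool.Agent.P.MP_440ce3_nt.A.Iface

/-! Step SQ of the Fermat quintic project. -/

namespace Pool.Agent.P.MP_440ce3_nt

open Polynomial NumberField

namespace SqA

theorem exists_sq {M : Type*} [CommMonoidWithZero M] [WfDvdMonoid M] (x : M) (hx : x ≠ 0) :
    ∃ t s : M, x = t ^ 2 * s ∧ Squarefree s := by
  induction x using (wellFounded_dvdNotUnit (α := M)).induction with
  | _ x ih =>
    by_cases h : Squarefree x
    · exact ⟨1, x, by simp, h⟩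
    · simp only [Squarefree, not_forall] at h
      obtain ⟨y, ⟨z, rfl⟩, hy⟩ := h
      have hz : z ≠ 0 := right_ne_zero_of_mul hx
      obtain ⟨t, s, e, hs⟩ := ih z ⟨hz, y * y, fun u => hy (isUnit_of_mul_isUnit_left u),
        mul_comm _ _⟩ hz
      exact ⟨y * t, s, by rw [e, mul_pow, sq y, mul_assoc, mul_assoc, mul_assoc], hs⟩

theorem eqs {a b : ℚ[X]} (h : Q2 a b) : ∃ a0 a1 b0 b1 : ℚ, a0 ∈ O2 ∧ a1 ∈ O2 ∧
    a = X ^ 2 + C a1 * X + C a0 ∧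
    -a1 * b1 ^ 2 + 2 * b0 * b1 + b1 = a1 ^ 4 - 3 * a1 ^ 2 * a0 + a0 ^ 2 ∧
    b0 ^ 2 + b0 - a0 * b1 ^ 2 = a0 * a1 ^ 3 - 2 * a1 * a0 ^ 2 := by
  obtain ⟨hm, hP, hd, hb, hdv⟩ := h
  have ea : a = X ^ 2 + C (a.coeff 1) * X + C (a.coeff 0) := by
    have h2 : a.coeff 2 = 1 := by rw [← hd]; exact hm.coeff_natDegree
    conv_lhs => rw [a.as_sum_range' 3 (by omega)]
    simp [Finset.sum_range_succ, h2, ← C_mul_X_pow_eq_monomial]
    ring
  have eb := eq_X_add_C_of_natDegree_le_one hb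
  refine ⟨a.coeff 0, a.coeff 1, b.coeff 0, b.coeff 1, mem_PO.mp hP 0, mem_PO.mp hP 1, ea, ?_⟩
  generalize a.coeff 0 = a0, a.coeff 1 = a1, b.coeff 0 = b0, b.coeff 1 = b1 at ea eb
  have h1 : a ∣ C (-a1 * b1 ^ 2 + 2 * b0 * b1 + b1 - (a1 ^ 4 - 3 * a1 ^ 2 * a0 + a0 ^ 2)) * X +
      C (b0 ^ 2 + b0 - a0 * b1 ^ 2 - (a0 * a1 ^ 3 - 2 * a1 * a0 ^ 2)) := by
    have h3 := dvd_add hdv (dvd_mul_right a (X ^ 3 - C a1 * X ^ 2 + (C a1 ^ 2 - C a0) * X +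
      (2 * C a0 * C a1 - C a1 ^ 3) - C b1 ^ 2))
    refine h3.trans (dvd_of_eq ?_)
    rw [ea, eb]
    simp only [map_add, map_sub, map_mul, map_pow, map_neg, map_ofNat]
    ring
  have h2 := eq_zero_of_dvd_of_natDegree_lt h1 (by
    rw [hd]; exact lt_of_le_of_lt natDegree_linear_le (by norm_num))
  have c1 := congrArg (coeff · 1) h2
  have c0 := congrArg (coeff · 0) h2
  simp only [coeff_add, coeff_C_mul, coeff_X_one, coeff_X_zero, coeff_C_zero, coeff_C_succ,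
    coeff_zero] at c0 c1
  constructor <;> linarith

theorem prime_of_norm {x : 𝓞 L} {p : ℕ} (hp : p.Prime) (h : Algebra.norm ℤ x = p) : Prime x := by
  refine Ideal.prime_of_irreducible_absNorm_span (fun e => ?_) ?_
  · rw [e, Algebra.norm_zero] at h
    exact hp.ne_zero (by exact_mod_cast h.symm)
  · rw [Ideal.absNorm_span_singleton, h]
    exact hp

theorem prime_ao : Prime ao :=
  prime_of_norm Nat.prime_two (by simpa [Nf] using norm_int 0 1 0 0 0)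

theorem norm_rho : Algebra.norm ℤ (1 + ao ^ 2) = 5 := by simpa [Nf] using norm_int 1 0 1 0 0

theorem prime_rho : Prime (1 + ao ^ 2) := prime_of_norm Nat.prime_five norm_rho

theorem norm_neg_one : Algebra.norm ℤ (-1 : 𝓞 L) = -1 := by
  simpa [Nf] using norm_int (-1) 0 0 0 0

theorem norm_eps {ε : 𝓞 L}
    (h : ε = 1 ∨ ε = ao - 1 ∨ ε = 1 + ao + ao ^ 3 ∨ ε = (ao - 1) * (1 + ao + ao ^ 3)) :
    Algebra.norm ℤ ε = 1 := by
  have h1 : Algebra.norm ℤ (ao - 1) = 1 := by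
    have := norm_int (-1) 1 0 0 0
    simpa [Nf, neg_add_eq_sub] using this
  have h2 : Algebra.norm ℤ (1 + ao + ao ^ 3) = 1 := by simpa [Nf] using norm_int 1 1 0 1 0
  rcases h with rfl | rfl | rfl | rfl
  exacts [map_one _, h1, h2, by rw [map_mul, h1, h2, one_mul]]

theorem unit_of (hPID : S_PID) {s : 𝓞 L} (hs : Squarefree s) (h2 : ¬ ao ∣ s)
    (h10 : ∀ π, Prime π → π ∣ s → π ∣ 10) (hq : IsSquare (Algebra.norm ℤ s)) : IsUnit s := by
  have : IsPrincipalIdealRing (𝓞 L) := hPID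
  have h5 := ao_pow
  have hp : ∀ π, Prime π → π ∣ s → Associated π (1 + ao ^ 2) := fun π hπ hd => by
    have h3 : π ∣ 2 * 5 := by simpa only [show (2 * 5 : 𝓞 L) = 10 by norm_num] using h10 π hπ hd
    rcases hπ.dvd_or_dvd h3 with h | h
    · rw [← h5] at h
      exact absurd ((hπ.associated_of_dvd prime_ao (hπ.dvd_of_dvd_pow h)).symm.dvd.trans hd) h2
    · refine hπ.associated_of_dvd prime_rho (hπ.dvd_of_dvd_pow (n := 5) (h.trans
        ⟨1 + ao ^ 2 + 2 * ao ^ 4 + 2 * ao ^ 6 + ao ^ 8, ?_⟩))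
      linear_combination (ao ^ 5 + 2) * h5
  by_contra hu
  obtain ⟨π, hπ, hd⟩ := WfDvdMonoid.exists_irreducible_factor hu hs.ne_zero
  obtain ⟨r, rfl⟩ := (hp π hπ.prime hd).symm.dvd.trans hd
  have hr : IsUnit r := by
    by_contra hr
    obtain ⟨μ, hμ, hd'⟩ := WfDvdMonoid.exists_irreducible_factor hr
      (right_ne_zero_of_mul hs.ne_zero)
    exact prime_rho.not_isUnit (hs _ (mul_dvd_mul_left _
      ((hp μ hμ.prime (hd'.mul_left _)).symm.dvd.trans hd')))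
  rw [map_mul, norm_rho] at hq
  exact ((associated_mul_unit_right _ _ (hr.map (Algebra.norm ℤ))).prime
    (Int.prime_ofNat_iff.2 Nat.prime_five)).not_isSquare hq

theorem fin {a0 a1 : ℚ} {σ : L} (h : σ ^ 2 = 1 - a1 * al ^ 2 + a0 * al ^ 4) :
    ∃ s : ℚ[X], (4 * X ^ 5 + 1) ∣ s ^ 2 - (X ^ 2 + C a1 * X + C a0) := by
  have h0 := al_ne_zero
  have h5 := al_pow
  obtain ⟨θ, hθ⟩ : ∃ θ : L, θ * al ^ 2 = -1 := ⟨-(al ^ 2)⁻¹, by field_simp⟩
  have e1 : θ = -al ^ 3 / 2 := by linear_combination (al ^ 3 / 2) * hθ - θ / 2 * h5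
  have e2 : 2 * θ ^ 2 = al := by rw [e1]; linear_combination (al / 2) * h5
  have e3 : 4 * θ ^ 5 + 1 = 0 := by
    linear_combination θ * (2 * θ ^ 2 + al) * e2 + hθ
  obtain ⟨c0, c1, c2, c3, c4, hc⟩ := exists_coords (σ * θ)
  refine ⟨C c0 + C c1 * (2 * X ^ 2) + C c2 * (2 * X ^ 2) ^ 2 + C c3 * (2 * X ^ 2) ^ 3 +
    C c4 * (2 * X ^ 2) ^ 4, ?_⟩
  refine ((minpoly.irreducible (IsIntegral.of_finite ℚ θ)).associated_of_dvd irred_F
    (minpoly.dvd ℚ θ (by simpa [map_ofNat] using e3))).symm.dvd.trans (minpoly.dvd ℚ θ ?_)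
  simp only [map_add, map_sub, map_mul, map_pow, aeval_X, aeval_C, map_ofNat, eq_ratCast, e2, ← hc]
  linear_combination θ ^ 2 * h + (a0 * (θ * al ^ 2 - 1) - a1 * θ) * hθ

end SqA

open SqA in
theorem p_SQ (hPID : S_PID) (hM2 : S_M2) (hUNI : S_UNI) (hEVN : S_EVN) :
    S_SQ := by
  intro a b hab
  obtain ⟨a0, a1, b0, b1, h0, h1, rfl, E1, E0⟩ := eqs hab
  obtain ⟨d, m0, m1, k, hk, e0, e1⟩ : ∃ d m0 m1 k : ℤ, d = 2 * k + 1 ∧ (m0 : ℚ) = d * a0 ∧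
      (m1 : ℚ) = d * a1 := by
    obtain ⟨k, hk⟩ : Odd (a0.den * a1.den) :=
      (Nat.odd_iff.2 (Nat.two_dvd_ne_zero.1 h0)).mul (Nat.odd_iff.2 (Nat.two_dvd_ne_zero.1 h1))
    refine ⟨a0.den * a1.den, a0.num * a1.den, a1.num * a0.den, k, by exact_mod_cast hk, ?_, ?_⟩
    · push_cast; rw [← Rat.mul_den_eq_num]; ring
    · push_cast; rw [← Rat.mul_den_eq_num]; ring
  have hd : (d : ℚ) ≠ 0 := by exact_mod_cast (show d ≠ 0 by omega)
  obtain ⟨η, hη⟩ : ∃ η : 𝓞 L, η = ((d ^ 2 : ℤ) : 𝓞 L) + (0 : ℤ) * ao + (-(d * m1) : ℤ) * ao ^ 2 +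
    (0 : ℤ) * ao ^ 3 + (d * m0 : ℤ) * ao ^ 4 := ⟨_, rfl⟩
  have hL : (η : L) = ((d : ℚ) : L) ^ 2 * (1 - a1 * al ^ 2 + a0 * al ^ 4) := by
    have f0 : (m0 : L) = d * a0 := by exact_mod_cast congrArg (Rat.cast : ℚ → L) e0
    have f1 : (m1 : L) = d * a1 := by exact_mod_cast congrArg (Rat.cast : ℚ → L) e1
    rw [hη]
    simp [coe_ao, f0, f1]
    ring
  have hao : ¬ ao ∣ η := fun h => by
    have h2 : ao ∣ (d : 𝓞 L) ^ 2 := by
      have h3 := dvd_sub h (dvd_mul_right ao (-(d * m1) * ao + d * m0 * ao ^ 3))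
      refine h3.trans (dvd_of_eq ?_)
      rw [hη]; push_cast; ring
    have h4 := dvd_sub (prime_ao.dvd_of_dvd_pow h2) (dvd_mul_right ao (ao ^ 4 * k))
    refine prime_ao.not_isUnit (isUnit_of_dvd_one (h4.trans (dvd_of_eq ?_)))
    rw [hk]; push_cast
    linear_combination (-(k : 𝓞 L)) * ao_pow
  have hη0 : η ≠ 0 := fun e => hao (e ▸ dvd_zero _)
  obtain ⟨t, s, ets, hs⟩ := exists_sq η hη0
  have hN : ((Algebra.norm ℤ η : ℤ) : ℚ) = (d ^ 5 * ((2 * b0 + 1) ^ 2 -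
      (2 * b0 + 1) * (2 * b1) * a1 + (2 * b1) ^ 2 * a0)) ^ 2 := by
    have h3 : Nf 1 0 (-a1) 0 a0 = ((2 * b0 + 1) ^ 2 -
        (2 * b0 + 1) * (2 * b1) * a1 + (2 * b1) ^ 2 * a0) ^ 2 := by
      rw [Nf]
      linear_combination (-4) * ((2 * b0 + 1) ^ 2 - a0 * (2 * b1) ^ 2 +
        (1 + 4 * (a0 * a1 ^ 3 - 2 * a1 * a0 ^ 2)) -
        a1 * (2 * (2 * b0 + 1) * (2 * b1) - a1 * (2 * b1) ^ 2)) * E0 -
        4 * (a0 * ((2 * (2 * b0 + 1) * (2 * b1) - a1 * (2 * b1) ^ 2) +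
          4 * (a1 ^ 4 - 3 * a1 ^ 2 * a0 + a0 ^ 2)) -
          a1 * (1 + 4 * (a0 * a1 ^ 3 - 2 * a1 * a0 ^ 2))) * E1
    rw [hη, norm_int, mul_pow, ← h3]
    simp only [Nf]
    push_cast
    rw [e0, e1]
    ring
  have hq : IsSquare (Algebra.norm ℤ s) := by
    have ht : ((Algebra.norm ℤ t : ℤ) : ℚ) ≠ 0 := by
      rw [Int.cast_ne_zero, Ne, Algebra.norm_eq_zero_iff]
      rintro rfl
      exact hη0 (by rw [ets]; ring)
    rw [ets, map_mul, map_pow] at hN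
    push_cast at hN
    rw [← Rat.isSquare_intCast_iff]
    refine ⟨d ^ 5 * ((2 * b0 + 1) ^ 2 - (2 * b0 + 1) * (2 * b1) * a1 + (2 * b1) ^ 2 * a0) /
      (Algebra.norm ℤ t : ℤ), ?_⟩
    rw [← sq, div_pow, ← hN]
    field_simp
  have hu := unit_of hPID hs (fun h => hao (ets ▸ h.mul_left _))
    (fun π hπ => hEVN a0 a1 b0 b1 d η t s π E1 E0 hL hη0 ets hs hπ) hq
  obtain ⟨ε, v, hε, rfl | rfl⟩ := hUNI s hu
  · rcases hε with rfl | hε
    · have hd' : ((d : ℚ) : L) ≠ 0 := by exact_mod_cast hd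
      refine fin (σ := ((t * v : 𝓞 L) : L) / ((d : ℚ) : L)) ?_
      rw [div_pow, div_eq_iff (pow_ne_zero 2 hd'), mul_comm _ (_ ^ 2), ← hL, ets]
      push_cast; ring
    · obtain ⟨k1, hk1⟩ : Even (m1 * (d + m1)) := by
        have := Int.even_mul_succ_self m1
        rw [hk, show m1 * (2 * k + 1 + m1) = m1 * (m1 + 1) + 2 * (k * m1) by ring]
        exact this.add (even_two_mul _)
      obtain ⟨k0, hk0⟩ : Even (m0 * (d - m0)) := by
        have := Int.even_mul_succ_self (-m0)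
        rw [hk, show m0 * (2 * k + 1 - m0) = 2 * (k * m0) - -m0 * (-m0 + 1) by ring]
        exact (even_two_mul _).sub this
      have f1 : (m1 : 𝓞 L) * (d + m1) = k1 + k1 := by exact_mod_cast congrArg (Int.cast : ℤ → 𝓞 L) hk1
      have f0 : (m0 : 𝓞 L) * (d - m0) = k0 + k0 := by exact_mod_cast congrArg (Int.cast : ℤ → 𝓞 L) hk0
      have h3 := hM2 ε (t * v) (d + m1 * ao + m0 * ao ^ 2) (-k1 * ao ^ 2 + k0 * ao ^ 4 -
        (d * m1 * ao + d * m0 * ao ^ 2 + m1 * m0 * ao ^ 3)) hε (by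
          push_cast at hη
          linear_combination hη - ets - ao ^ 2 * f1 + ao ^ 4 * f0)
      refine absurd (h3.trans ⟨ε * (t * v), ?_⟩) hao
      rw [ets]; ring
  · exfalso
    have h3 : Algebra.norm ℤ (-(ε * v ^ 2)) = -Algebra.norm ℤ v ^ 2 := by
      rw [← neg_one_mul, map_mul, map_mul, map_pow, norm_neg_one, norm_eps hε]; ring
    have h4 := (hu.map (Algebra.norm ℤ)).ne_zero
    have h5 := hq.nonneg
    rw [h3] at h4 h5
    exact h4 (le_antisymm (neg_nonpos.2 (sq_nonneg _)) h5)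

end Pool.Agent.P.MP_440ce3_nt
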