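import Pool.Agent.P.MP_440ce3_nt.A.Iface

/-! Step SQN of the Fermat quintic project. -/

namespace Pool.Agent.P.MP_440ce3_nt

open Polynomial NumberField

namespace SqnA

theorem J_sq {m c : ℚ[X]} (hd : m ^ 2 ∣ c ^ 2 + c - X ^ 5) : J m c * J m c = J (m ^ 2) c := by
  have hd' : m ∣ c ^ 2 + c - X ^ 5 := (dvd_pow_self m two_ne_zero).trans hd
  have h1 : J m c * J m c ≤ J (m ^ 2) c := by
    rw [Ideal.mul_le]
    intro x hx y hy
    rw [mem_J hd'] at hx hy
    rw [mem_J hd]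
    obtain ⟨s, hs⟩ := hx
    obtain ⟨t, ht⟩ := hy
    obtain ⟨e, he⟩ := hd
    refine ⟨s * t - x.im * y.im * e, ?_⟩
    rw [QuadraticAlgebra.re_mul, QuadraticAlgebra.im_mul]
    linear_combination (y.re + y.im * c) * hs + m * s * ht - x.im * y.im * he
  obtain ⟨K, hK⟩ := Ideal.dvd_iff_le.mpr h1
  have hN := (isN_J hd').mul (isN_J hd')
  have hK0 : K ≠ ⊥ := by
    rintro rfl
    exact hN.ne_bot (by rw [hK, Ideal.mul_bot])
  obtain ⟨n, hn⟩ := exists_isN hK0
  have has := (hK ▸ hN).assoc ((isN_J hd).mul hn)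
  have hu : IsUnit n := by
    have h2 : Associated (m ^ 2 * 1 : ℚ[X]) (m ^ 2 * n) := by
      rw [mul_one]; rwa [← sq m] at has
    exact associated_one_iff_isUnit.mp
      (Associated.of_mul_left h2 (Associated.refl _) (isN_J hd).1).symm
  rw [hK, hn.eq_top hu, Ideal.mul_top]

end SqnA

theorem p_SQN :
    S_SQN := by
  intro E M h
  obtain ⟨e, a, c, he, hd, hE, hN⟩ := hnf h.ne_bot
  have has := h.assoc hN
  have h1 : e ^ 2 ∣ M ^ 2 := (dvd_mul_right _ a).trans has.symm.dvd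
  obtain ⟨m, rfl⟩ := (IsIntegrallyClosed.pow_dvd_pow_iff two_ne_zero).1 h1
  rw [mul_pow] at has
  have h2 : Associated (m ^ 2) a := has.of_mul_left (Associated.refl _) (pow_ne_zero 2 he)
  refine ⟨cl (J m c), ?_⟩
  rw [hE, cl_mul (by simpa using ι_ne_zero he) (J_ne_bot _ _), cl_span, one_mul, ← J_assoc h2,
    ← SqnA.J_sq (h2.dvd.trans hd), cl_mul (J_ne_bot _ _) (J_ne_bot _ _), sq]

end Pool.Agent.P.MP_440ce3_nt
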