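import Pool.Agent.P.MP_440ce3_nt.A.Basic

/-! Rationals with odd denominator and reduction modulo 2. -/

namespace Pool.Agent.P.MP_440ce3_nt

open Polynomial

/-- Rationals with odd denominator. -/
def O2 : Subring ℚ where
  carrier := {q | ¬ 2 ∣ q.den}
  mul_mem' := fun {a b} ha hb h =>
    (Nat.prime_two.dvd_mul.mp (h.trans (Rat.mul_den_dvd a b))).elim ha hb
  one_mem' := by simp
  add_mem' := fun {a b} ha hb h =>
    (Nat.prime_two.dvd_mul.mp (h.trans (Rat.add_den_dvd a b))).elim ha hb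
  zero_mem' := by simp
  neg_mem' := fun {a} ha => by simpa using ha

theorem mem_O2 {q : ℚ} : q ∈ O2 ↔ ¬ 2 ∣ q.den := Iff.rfl

theorem den_ne {q : ℚ} (h : q ∈ O2) : (q.den : ZMod 2) ≠ 0 := by
  rwa [Ne, ZMod.natCast_eq_zero_iff]

theorem c2_add {a b : ℚ} (ha : a ∈ O2) (hb : b ∈ O2) :
    ((a + b : ℚ) : ZMod 2) = (a : ZMod 2) + (b : ZMod 2) :=
  Rat.cast_add_of_ne_zero (den_ne ha) (den_ne hb)

theorem c2_mul {a b : ℚ} (ha : a ∈ O2) (hb : b ∈ O2) :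
    ((a * b : ℚ) : ZMod 2) = (a : ZMod 2) * (b : ZMod 2) :=
  Rat.cast_mul_of_ne_zero (den_ne ha) (den_ne hb)

/-- Reduction modulo 2 as a ring homomorphism. -/
def c2 : O2 →+* ZMod 2 where
  toFun q := ((q : ℚ) : ZMod 2)
  map_one' := by simp
  map_mul' a b := c2_mul a.2 b.2
  map_zero' := by simp
  map_add' a b := c2_add a.2 b.2

theorem c2_eq_zero {q : ℚ} (h : q ∈ O2) : (q : ZMod 2) = 0 ↔ 2 ∣ q.num := by
  rw [Rat.cast_def, div_eq_zero_iff, or_iff_left (den_ne h)]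
  exact ZMod.intCast_zmod_eq_zero_iff_dvd _ 2

theorem inv_mem_O2 {q : ℚ} (h : q ∈ O2) (h0 : (q : ZMod 2) ≠ 0) : q⁻¹ ∈ O2 := by
  rw [Ne, c2_eq_zero h] at h0
  rw [mem_O2, Rat.den_inv]
  split_ifs
  · simp
  · rwa [← Int.natCast_dvd]

theorem half_mem_O2 {q : ℚ} (h : q ∈ O2) (h0 : (q : ZMod 2) = 0) : q / 2 ∈ O2 := by
  obtain ⟨m, hm⟩ := (c2_eq_zero h).mp h0
  have h1 : q / 2 = (m : ℚ) * ((q.den : ℚ))⁻¹ := by
    conv_lhs => rw [← Rat.num_div_den q, hm]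
    push_cast; ring
  rw [h1]
  refine O2.mul_mem (intCast_mem _ m) (inv_mem_O2 (natCast_mem _ _) ?_)
  simpa using den_ne h

theorem c2_two_mul {q : ℚ} (h : q ∈ O2) : ((2 * q : ℚ) : ZMod 2) = 0 := by
  rw [c2_mul (by simp) h]
  have : ((2 : ℚ) : ZMod 2) = 0 := by
    rw [Rat.cast_ofNat]; rfl
  rw [this, zero_mul]

theorem exists_pow_mul_mem (q : ℚ) : ∃ k : ℕ, 2 ^ k * q ∈ O2 := by
  obtain ⟨k, m, hm, h⟩ := Nat.exists_eq_two_pow_mul_odd q.den_nz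
  refine ⟨k, ?_⟩
  have h1 : 2 ^ k * q = (q.num : ℚ) * (m : ℚ)⁻¹ := by
    have hm0 : (m : ℚ) ≠ 0 := by exact_mod_cast hm.pos.ne'
    conv_lhs => rw [← Rat.num_div_den q, h]
    push_cast; field_simp
  rw [h1]
  refine O2.mul_mem (intCast_mem _ _) (inv_mem_O2 (natCast_mem _ _) ?_)
  rw [Rat.cast_natCast, Ne, ZMod.natCast_eq_zero_iff]
  exact hm.not_two_dvd_nat

/-- Polynomials with coefficients of odd denominator. -/
noncomputable def PO : Subring ℚ[X] := (mapRingHom O2.subtype).range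

theorem mem_PO {p : ℚ[X]} : p ∈ PO ↔ ∀ i, p.coeff i ∈ O2 := by
  have : p ∈ PO ↔ p ∈ lifts O2.subtype := Iff.rfl
  rw [this, lifts_iff_coeff_lifts]
  simp

theorem C_mem_PO {q : ℚ} (h : q ∈ O2) : C q ∈ PO := ⟨C ⟨q, h⟩, by simp⟩

theorem X_mem_PO : (X : ℚ[X]) ∈ PO := ⟨X, by simp⟩

/-- Reduction of a polynomial modulo 2 (meaningful on PO). -/
noncomputable def red (p : ℚ[X]) : (ZMod 2)[X] :=
  ∑ i ∈ p.support, monomial i ((p.coeff i : ℚ) : ZMod 2)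

theorem coeff_red (p : ℚ[X]) (i : ℕ) : (red p).coeff i = ((p.coeff i : ℚ) : ZMod 2) := by
  rw [red, finsetSum_coeff]
  simp only [coeff_monomial, Finset.sum_ite_eq', mem_support_iff]
  split_ifs with h
  · rfl
  · rw [not_not.mp h, Rat.cast_zero]

theorem red_map (p : O2[X]) : red (p.map O2.subtype) = p.map c2 := by
  ext i; rw [coeff_red, coeff_map, coeff_map]; rfl

theorem red_add {p q : ℚ[X]} (hp : p ∈ PO) (hq : q ∈ PO) : red (p + q) = red p + red q := by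
  obtain ⟨p, rfl⟩ := hp; obtain ⟨q, rfl⟩ := hq
  simp only [coe_mapRingHom, ← Polynomial.map_add, red_map]

theorem red_sub {p q : ℚ[X]} (hp : p ∈ PO) (hq : q ∈ PO) : red (p - q) = red p - red q := by
  obtain ⟨p, rfl⟩ := hp; obtain ⟨q, rfl⟩ := hq
  simp only [coe_mapRingHom, ← Polynomial.map_sub, red_map]

theorem red_mul {p q : ℚ[X]} (hp : p ∈ PO) (hq : q ∈ PO) : red (p * q) = red p * red q := by
  obtain ⟨p, rfl⟩ := hp; obtain ⟨q, rfl⟩ := hq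
  simp only [coe_mapRingHom, ← Polynomial.map_mul, red_map]

theorem red_pow {p : ℚ[X]} (hp : p ∈ PO) (k : ℕ) : red (p ^ k) = red p ^ k := by
  obtain ⟨p, rfl⟩ := hp
  simp only [coe_mapRingHom, ← Polynomial.map_pow, red_map]

theorem red_neg (p : ℚ[X]) : red (-p) = -red p := by
  ext i; simp [coeff_red]

theorem red_zero : red 0 = 0 := by ext i; simp [coeff_red]

theorem red_C (q : ℚ) : red (C q) = C (q : ZMod 2) := by
  ext i; rw [coeff_red, coeff_C, coeff_C]; split_ifs <;> simp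

theorem red_one : red 1 = 1 := by simpa using red_C 1

theorem red_X : red X = X := by
  ext i; rw [coeff_red, coeff_X, coeff_X]; split_ifs <;> simp

theorem natDegree_red_le (p : ℚ[X]) : (red p).natDegree ≤ p.natDegree :=
  natDegree_le_iff_coeff_eq_zero.mpr fun i hi => by
    rw [coeff_red, coeff_eq_zero_of_natDegree_lt hi, Rat.cast_zero]

theorem red_monic {p : ℚ[X]} (hp : p.Monic) : (red p).Monic ∧ (red p).natDegree = p.natDegree := by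
  have h1 : (red p).coeff p.natDegree = 1 := by rw [coeff_red, hp.coeff_natDegree, Rat.cast_one]
  have h2 := natDegree_eq_of_le_of_coeff_ne_zero (natDegree_red_le p) (by rw [h1]; exact one_ne_zero)
  exact ⟨by rw [Monic, leadingCoeff, h2, h1], h2⟩

theorem red_eq_zero {p : ℚ[X]} (hp : p ∈ PO) : red p = 0 ↔ ∃ s ∈ PO, p = 2 * s := by
  constructor
  · intro h
    refine ⟨C (1 / 2) * p, mem_PO.mpr fun i => ?_, ?_⟩
    · have := half_mem_O2 (mem_PO.mp hp i) (by rw [← coeff_red, h, coeff_zero])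
      rwa [coeff_C_mul, mul_comm, mul_one_div]
    · rw [← mul_assoc, ← map_ofNat C 2, ← C_mul]; norm_num
  · rintro ⟨s, hs, rfl⟩
    ext i
    rw [coeff_red, coeff_ofNat_mul, c2_two_mul (mem_PO.mp hs i), coeff_zero]

theorem exists_pow_mul_mem_PO (p : ℚ[X]) : ∃ k : ℕ, 2 ^ k * p ∈ PO := by
  induction p using Polynomial.induction_on' with
  | add p q hp hq =>
    obtain ⟨k, hk⟩ := hp; obtain ⟨l, hl⟩ := hq
    refine ⟨k + l, ?_⟩
    have : 2 ^ (k + l) * (p + q) = 2 ^ l * (2 ^ k * p) + 2 ^ k * (2 ^ l * q) := by ring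
    rw [this]
    have h2 : (2 : ℚ[X]) ∈ PO := ofNat_mem _ 2
    exact PO.add_mem (PO.mul_mem (PO.pow_mem h2 _) hk) (PO.mul_mem (PO.pow_mem h2 _) hl)
  | monomial n a =>
    obtain ⟨k, hk⟩ := exists_pow_mul_mem a
    refine ⟨k, ?_⟩
    have : 2 ^ k * monomial n a = C (2 ^ k * a) * X ^ n := by
      rw [← C_mul_X_pow_eq_monomial, map_mul, map_pow, map_ofNat]; ring
    rw [this]
    exact PO.mul_mem (C_mem_PO hk) (PO.pow_mem X_mem_PO n)

theorem divByMonic_mem {p n : ℚ[X]} (hp : p ∈ PO) (hn : n ∈ PO) (hm : n.Monic) :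
    p /ₘ n ∈ PO ∧ p %ₘ n ∈ PO := by
  obtain ⟨p, rfl⟩ := hp
  obtain ⟨n, rfl, -, hm'⟩ := lifts_and_natDegree_eq_and_monic (f := O2.subtype) hn hm
  exact ⟨⟨p /ₘ n, map_divByMonic _ hm'⟩, ⟨p %ₘ n, map_modByMonic _ hm'⟩⟩

/-- Elements of R with both entries in PO. -/
def RO : Subring R where
  carrier := {h | h.re ∈ PO ∧ h.im ∈ PO}
  mul_mem' := fun ha hb =>
    ⟨PO.add_mem (PO.mul_mem ha.1 hb.1) (PO.mul_mem (PO.mul_mem (PO.pow_mem X_mem_PO 5) ha.2) hb.2),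
      PO.add_mem (PO.add_mem (PO.mul_mem ha.1 hb.2) (PO.mul_mem ha.2 hb.1))
        (PO.mul_mem (PO.mul_mem (PO.neg_mem PO.one_mem) ha.2) hb.2)⟩
  one_mem' := ⟨PO.one_mem, PO.zero_mem⟩
  add_mem' := fun ha hb => ⟨PO.add_mem ha.1 hb.1, PO.add_mem ha.2 hb.2⟩
  zero_mem' := ⟨PO.zero_mem, PO.zero_mem⟩
  neg_mem' := fun ha => ⟨PO.neg_mem ha.1, PO.neg_mem ha.2⟩

theorem mem_RO {h : R} : h ∈ RO ↔ h.re ∈ PO ∧ h.im ∈ PO := Iff.rfl

theorem ι_mem_RO {p : ℚ[X]} (hp : p ∈ PO) : ι p ∈ RO := ⟨hp, PO.zero_mem⟩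

theorem star_mem_RO {h : R} (hh : h ∈ RO) : star h ∈ RO :=
  ⟨PO.add_mem hh.1 (PO.mul_mem (PO.neg_mem PO.one_mem) hh.2), PO.neg_mem hh.2⟩

theorem nrm_mem_PO {h : R} (hh : h ∈ RO) : nrm h ∈ PO := by
  rw [nrm_eq]
  exact PO.sub_mem (PO.sub_mem (PO.pow_mem hh.1 2) (PO.mul_mem hh.1 hh.2))
    (PO.mul_mem (PO.pow_mem X_mem_PO 5) (PO.pow_mem hh.2 2))

theorem red_nrm {h : R} (hh : h ∈ RO) :
    red (nrm h) = red h.re ^ 2 - red h.re * red h.im - X ^ 5 * red h.im ^ 2 := by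
  have h5 := PO.pow_mem X_mem_PO 5
  rw [nrm_eq, red_sub (PO.sub_mem (PO.pow_mem hh.1 2) (PO.mul_mem hh.1 hh.2))
    (PO.mul_mem h5 (PO.pow_mem hh.2 2)), red_sub (PO.pow_mem hh.1 2) (PO.mul_mem hh.1 hh.2),
    red_pow hh.1, red_mul hh.1 hh.2, red_mul h5 (PO.pow_mem hh.2 2), red_pow hh.2,
    red_pow X_mem_PO, red_X]

theorem red_nrm_eq_zero {h : R} (hh : h ∈ RO) : red (nrm h) = 0 ↔ ∃ s ∈ RO, h = 2 * s := by
  rw [red_nrm hh]
  constructor
  · intro h0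
    obtain ⟨h1, h2⟩ := nf_eq_zero h0
    obtain ⟨s, hs, e1⟩ := (red_eq_zero hh.1).mp h1
    obtain ⟨t, ht, e2⟩ := (red_eq_zero hh.2).mp h2
    refine ⟨⟨s, t⟩, ⟨hs, ht⟩, ?_⟩
    rw [two_mul]
    ext1
    · simp [e1, two_mul]
    · simp [e2, two_mul]
  · rintro ⟨s, hs, rfl⟩
    have h1 : red (2 * s).re = 0 := (red_eq_zero hh.1).mpr ⟨s.re, hs.1, by simp [two_mul]⟩
    have h2 : red (2 * s).im = 0 := (red_eq_zero hh.2).mpr ⟨s.im, hs.2, by simp [two_mul]⟩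
    rw [h1, h2]; ring

theorem exists_pow_mul_mem_RO (h : R) : ∃ k : ℕ, 2 ^ k * h ∈ RO := by
  obtain ⟨k, hk⟩ := exists_pow_mul_mem_PO h.re
  obtain ⟨l, hl⟩ := exists_pow_mul_mem_PO h.im
  have h2 : (2 : ℚ[X]) ∈ PO := ofNat_mem _ 2
  have e : (2 : R) ^ (k + l) = ι (2 ^ (k + l)) := by rw [map_pow, map_ofNat]
  refine ⟨k + l, ?_, ?_⟩
  · have : (2 ^ (k + l) * h).re = 2 ^ l * (2 ^ k * h.re) := by rw [e, re_ι_mul]; ring
    rw [this]; exact PO.mul_mem (PO.pow_mem h2 _) hk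
  · have : (2 ^ (k + l) * h).im = 2 ^ k * (2 ^ l * h.im) := by rw [e, im_ι_mul]; ring
    rw [this]; exact PO.mul_mem (PO.pow_mem h2 _) hl

/-- A nonzero rational is not divisible by all powers of 2. -/
theorem exists_not_mem_O2 {q : ℚ} (hq : q ≠ 0) : ∃ k : ℕ, q / 2 ^ k ∉ O2 := by
  obtain ⟨k, hk⟩ := exists_pow_mul_mem q⁻¹
  refine ⟨k + 1, fun h => ?_⟩
  have h1 := O2.mul_mem hk h
  have h2 : 2 ^ k * q⁻¹ * (q / 2 ^ (k + 1)) = 1 / 2 := by field_simp; ring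
  rw [h2, mem_O2] at h1
  norm_num at h1

/-- Every nonzero element of R has a primitive multiple. -/
theorem exists_prim {h : R} (h0 : h ≠ 0) :
    ∃ κ : ℚ, κ ≠ 0 ∧ ι (C κ) * h ∈ RO ∧ red (nrm (ι (C κ) * h)) ≠ 0 := by
  classical
  obtain ⟨k, hk⟩ := exists_pow_mul_mem_RO h
  have hex : ∃ j : ℕ, ι (C (2 ^ k / 2 ^ j)) * h ∉ RO := by
    have hn := nrm_ne_zero h0
    obtain ⟨j, hj⟩ := exists_not_mem_O2
      (q := (2 ^ k) ^ 2 * (nrm h).leadingCoeff) (by simpa using hn)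
    refine ⟨j, fun hm => hj ?_⟩
    have h1 := mem_PO.mp (nrm_mem_PO hm) (nrm h).natDegree
    rw [map_mul, nrm_ι, ← C_pow, coeff_C_mul, coeff_natDegree] at h1
    have h2 := O2.mul_mem (O2.pow_mem (ofNat_mem O2 2) j) h1
    have h3 : 2 ^ j * ((2 ^ k / 2 ^ j) ^ 2 * (nrm h).leadingCoeff) =
        (2 ^ k) ^ 2 * (nrm h).leadingCoeff / 2 ^ j := by field_simp
    rwa [h3] at h2
  have hj := Nat.find_spec hex
  have hj0 : Nat.find hex ≠ 0 := fun e => hj (by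
    rw [e, pow_zero, div_one, map_pow, map_pow, map_ofNat, map_ofNat]; exact hk)
  obtain ⟨j, e⟩ := Nat.exists_eq_succ_of_ne_zero hj0
  have hm := not_not.mp (Nat.find_min hex (m := j) (by omega))
  refine ⟨2 ^ k / 2 ^ j, by positivity, hm, fun hr => hj ?_⟩
  obtain ⟨s, hs, es⟩ := (red_nrm_eq_zero hm).mp hr
  have h2 : (2 : R) * (ι (C (2 ^ k / 2 ^ Nat.find hex)) * h) = 2 * s := by
    rw [← es, ← mul_assoc, ← map_ofNat ι 2, ← map_ofNat C 2, ← map_mul, ← map_mul, e]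
    have : (2 : ℚ) * (2 ^ k / 2 ^ j.succ) = 2 ^ k / 2 ^ j := by rw [pow_succ]; field_simp
    rw [this]
  rw [mul_left_cancel₀ two_ne_zero h2]
  exact hs

theorem exists_prim_poly {p : ℚ[X]} (h0 : p ≠ 0) :
    ∃ κ : ℚ, κ ≠ 0 ∧ C κ * p ∈ PO ∧ red (C κ * p) ≠ 0 := by
  obtain ⟨κ, hκ, h1, h2⟩ := exists_prim (ι_ne_zero h0)
  rw [← map_mul] at h1 h2
  refine ⟨κ, hκ, h1.1, fun h => h2 ?_⟩
  have h3 : C κ * p ∈ PO := h1.1
  rw [nrm_ι, red_pow h3, h]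
  simp

/-- Gauss: a quotient by a primitive polynomial is integral. -/
theorem mem_PO_of_mul {n q : ℚ[X]} (hn : n ∈ PO) (hr : red n ≠ 0) (h : n * q ∈ PO) : q ∈ PO := by
  by_cases hq : q = 0
  · rw [hq]; exact PO.zero_mem
  obtain ⟨κ, hκ, h1, h2⟩ := exists_prim_poly hq
  by_cases hi : κ⁻¹ ∈ O2
  · have := PO.mul_mem (C_mem_PO hi) h1
    rwa [← mul_assoc, ← C_mul, inv_mul_cancel₀ hκ, C_1, one_mul] at this
  · exfalso
    have hκn : 2 ∣ κ.num := by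
      rw [mem_O2, not_not, Rat.den_inv, if_neg (by simpa using hκ)] at hi
      exact Int.natCast_dvd.mpr hi
    have hκO : κ ∈ O2 := fun hd => by
      have h5 : 2 ∣ κ.num.natAbs := Int.natCast_dvd.mp hκn
      have := Nat.dvd_gcd h5 hd
      rw [κ.reduced] at this
      omega
    have h3 : n * (C κ * q) = C κ * (n * q) := by ring
    have h4 := congrArg red h3
    rw [red_mul hn h1, red_mul (C_mem_PO hκO) h, red_C, (c2_eq_zero hκO).mpr hκn, C_0,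
      zero_mul] at h4
    exact mul_ne_zero hr h2 h4

/-- An integral polynomial whose degree does not drop modulo 2 has a monic integral associate. -/
theorem exists_monic {m : ℚ[X]} (hm : m ∈ PO) (h0 : red m ≠ 0)
    (hd : (red m).natDegree = m.natDegree) : ∃ m', Associated m m' ∧ m'.Monic ∧ m' ∈ PO := by
  have h1 : ((m.leadingCoeff : ℚ) : ZMod 2) ≠ 0 := by
    rw [leadingCoeff, ← coeff_red, ← hd]
    exact leadingCoeff_ne_zero.mpr h0
  have h2 : m.leadingCoeff ≠ 0 := fun h => h1 (by rw [h, Rat.cast_zero])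
  refine ⟨C m.leadingCoeff⁻¹ * m, assoc_iff.mpr ⟨_, inv_ne_zero h2, rfl⟩, ?_,
    PO.mul_mem (C_mem_PO (inv_mem_O2 (mem_PO.mp hm _) h1)) hm⟩
  rw [Monic, leadingCoeff_mul, leadingCoeff_C, inv_mul_cancel₀ h2]

/-- I has the monic norm n with coefficients of odd denominator. -/
def Mon (I : Ideal R) (n : ℚ[X]) : Prop := IsN I n ∧ n.Monic ∧ n ∈ PO

/-- The ideal I of norm n is principal modulo 2^k. -/
def Lv (k : ℕ) (I : Ideal R) (n : ℚ[X]) : Prop :=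
  ∃ h ∈ RO, ∃ s ∈ RO, h - 2 ^ k * s ∈ I ∧ (nrm h).natDegree ≤ n.natDegree ∧ red (nrm h) ≠ 0

/-- A monic integral quadratic a with a root b of T^2 + T - X^5 modulo a. -/
def Q2 (a b : ℚ[X]) : Prop :=
  a.Monic ∧ a ∈ PO ∧ a.natDegree = 2 ∧ b.natDegree ≤ 1 ∧ a ∣ b ^ 2 + b - X ^ 5

end Pool.Agent.P.MP_440ce3_nt
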