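import Pool.Agent.P.MP_440ce3_nt.A.Iface

/-! Step UNI of the Fermat quintic project. -/

namespace Pool.Agent.P.MP_440ce3_nt

open Polynomial NumberField

namespace UniA

theorem real_le : InfinitePlace.nrRealPlaces L ≤ 1 := by
  classical
  rw [← InfinitePlace.card_real_embeddings, Fintype.card_le_one_iff]
  rintro ⟨φ, hφ⟩ ⟨ψ, hψ⟩
  have h5 : ∀ σ : L →+* ℝ, σ al ^ 5 = 2 := fun σ => by rw [← map_pow, al_pow, map_ofNat]
  have h1 : hφ.embedding al = hψ.embedding al :=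
    (Odd.pow_inj (by decide : Odd 5)).1 ((h5 _).trans (h5 _).symm)
  have h2 : φ al = ψ al := by
    rw [← hφ.coe_embedding_apply, ← hψ.coe_embedding_apply, h1]
  refine Subtype.ext (RingHom.ext fun x => ?_)
  obtain ⟨a, b, c, d, e, rfl⟩ := exists_coords x
  simp [h2]

theorem rank_le : Units.rank L ≤ 2 := by
  have h1 := InfinitePlace.card_add_two_mul_card_eq_rank L
  have h2 := InfinitePlace.card_eq_nrRealPlaces_add_nrComplexPlaces L
  have h3 := real_le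
  rw [finrank_L] at h1
  unfold Units.rank
  omega

theorem exists_cls : ∃ cls : (𝓞 L)ˣ → Prop × (Fin (Units.rank L) → ZMod 2),
    ∀ u u', cls u = cls u' → ∃ v, u = u' * v ^ 2 := by
  choose z hz using fun x : (𝓞 L)ˣ => (Units.exist_unique_eq_mul_prod L x).exists
  refine ⟨fun u => ((((z u).1 : (𝓞 L)ˣ) = 1), fun i => ((z u).2 i : ZMod 2)), fun u u' h => ?_⟩
  obtain ⟨h1, h2⟩ := Prod.ext_iff.1 h
  have ho : Odd (Module.finrank ℚ L) := by rw [finrank_L]; decide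
  have h3 : ((z u).1 : (𝓞 L)ˣ) = (z u').1 := by
    have h4 := eq_iff_iff.1 h1
    rcases Units.torsion_eq_one_or_neg_one_of_odd_finrank ho (z u).1 with h5 | h5
    · rw [h5, h4.1 h5]
    · rcases Units.torsion_eq_one_or_neg_one_of_odd_finrank ho (z u').1 with h6 | h6
      · rw [h6, h4.2 h6]
      · rw [h5, h6]
  have h4 : ∀ i, ∃ c : ℤ, (z u).2 i = (z u').2 i + c * 2 := fun i => by
    obtain ⟨c, hc⟩ := (ZMod.intCast_eq_intCast_iff_dvd_sub _ _ 2).1 (congrFun h2 i).symm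
    exact ⟨c, by push_cast at hc; linarith⟩
  choose c hc using h4
  refine ⟨∏ i, Units.fundSystem L i ^ c i, ?_⟩
  conv_lhs => rw [hz u]
  conv_rhs => rw [hz u']
  rw [h3, mul_assoc, ← Finset.prod_pow, ← Finset.prod_mul_distrib]
  congr 1
  refine Finset.prod_congr rfl fun i _ => ?_
  rw [hc, zpow_add, zpow_mul, zpow_ofNat]

theorem norm1 : Algebra.norm ℤ (ao - 1 : 𝓞 L) = 1 := by
  have h := norm_int (-1) 1 0 0 0
  norm_num [Nf] at h
  rwa [add_comm, ← sub_eq_add_neg] at h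

theorem norm2 : Algebra.norm ℤ (1 + ao + ao ^ 3 : 𝓞 L) = 1 := by
  have h := norm_int 1 1 0 1 0
  norm_num [Nf] at h
  exact h

theorem norm3 : Algebra.norm ℤ (-1 : 𝓞 L) = -1 := by
  have h := norm_int (-1) 0 0 0 0
  norm_num [Nf] at h
  exact h

theorem norm4 : Algebra.norm ℤ (ao : 𝓞 L) = 2 := by
  have h := norm_int 0 1 0 0 0
  norm_num [Nf] at h
  exact h

theorem unit1 : IsUnit (ao - 1 : 𝓞 L) :=
  IsUnit.of_mul_eq_one (1 + ao + ao ^ 2 + ao ^ 3 + ao ^ 4) (by linear_combination ao_pow)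

theorem unit2 : IsUnit (1 + ao + ao ^ 3 : 𝓞 L) :=
  IsUnit.of_mul_eq_one (1 - ao - ao ^ 2 + ao ^ 4) (by linear_combination ao ^ 2 * ao_pow)

theorem nosq (hM2 : S_M2) (a i j : ℕ) (v : 𝓞 L)
    (h : (-1) ^ a * (ao - 1) ^ i * (1 + ao + ao ^ 3) ^ j = v ^ 2) : Even a ∧ Even i ∧ Even j := by
  have ha : Even a := by
    have h1 := congrArg (Algebra.norm ℤ) h
    simp only [map_mul, map_pow, norm1, norm2, norm3, one_pow, mul_one] at h1
    by_contra h2
    rw [(Nat.not_even_iff_odd.1 h2).neg_one_pow] at h1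
    nlinarith [sq_nonneg (Algebra.norm ℤ v)]
  rw [ha.neg_one_pow, one_mul] at h
  have key : ∀ (ε : 𝓞 L) (p q : ℕ),
      (ε = ao - 1 ∨ ε = 1 + ao + ao ^ 3 ∨ ε = (ao - 1) * (1 + ao + ao ^ 3)) →
      ε * ((ao - 1) ^ p * (1 + ao + ao ^ 3) ^ q) ^ 2 ≠ v ^ 2 := fun ε p q h1 h2 => by
    have h3 := hM2 ε _ v 0 h1 (by rw [h2]; ring)
    have h4 := (isUnit_of_dvd_unit h3 ((unit1.pow p).mul (unit2.pow q))).map (Algebra.norm ℤ)
    rw [norm4, Int.isUnit_iff] at h4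
    omega
  refine ⟨ha, ?_⟩
  rcases Nat.even_or_odd' i with ⟨p, rfl | rfl⟩ <;> rcases Nat.even_or_odd' j with ⟨q, rfl | rfl⟩
  · simp
  · exact (key _ p q (Or.inr (Or.inl rfl)) (by rw [← h]; ring)).elim
  · exact (key _ p q (Or.inl rfl) (by rw [← h]; ring)).elim
  · exact (key _ p q (Or.inr (Or.inr rfl)) (by rw [← h]; ring)).elim

end UniA

open UniA in
theorem p_UNI (hM2 : S_M2) :
    S_UNI := by
  classical
  obtain ⟨cls, hc⟩ := exists_cls
  let f : Fin 2 × Fin 2 × Fin 2 → (𝓞 L)ˣ := fun x =>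
    (-1) ^ (x.1 : ℕ) * unit1.unit ^ (x.2.1 : ℕ) * unit2.unit ^ (x.2.2 : ℕ)
  have hf : ∀ x, (f x : 𝓞 L) =
      (-1) ^ (x.1 : ℕ) * (ao - 1) ^ (x.2.1 : ℕ) * (1 + ao + ao ^ 3) ^ (x.2.2 : ℕ) := fun x => by
    simp [f]
  have h1 : Function.Injective (cls ∘ f) := fun x y h => by
    obtain ⟨v, hv⟩ := hc _ _ h
    have h2 := congrArg (fun u : (𝓞 L)ˣ => (u : 𝓞 L) * f y) hv
    simp only [Units.val_mul, Units.val_pow_eq_pow_val] at h2
    obtain ⟨h3, h4, h5⟩ := nosq hM2 (x.1 + y.1) (x.2.1 + y.2.1) (x.2.2 + y.2.2) (f y * v) (by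
      have h7 : ((f y : 𝓞 L) * v) ^ 2 = f x * f y := by rw [h2]; ring
      rw [h7, hf, hf]
      ring)
    have h6 : ∀ a b : Fin 2, Even ((a : ℕ) + b) → a = b := by decide
    exact Prod.ext (h6 _ _ h3) (Prod.ext (h6 _ _ h4) (h6 _ _ h5))
  have h2 : Function.Surjective (cls ∘ f) := by
    refine ((Fintype.bijective_iff_injective_and_card _).2
      ⟨h1, le_antisymm (Fintype.card_le_of_injective _ h1) ?_⟩).2
    have h3 := Nat.pow_le_pow_right (by norm_num : 0 < 2) rank_le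
    simp only [Fintype.card_prod, Fintype.card_prop, Fintype.card_fun, ZMod.card, Fintype.card_fin]
    omega
  intro s hs
  obtain ⟨⟨a, i, j⟩, hx⟩ := h2 (cls hs.unit)
  obtain ⟨v, hv⟩ := hc _ _ hx.symm
  have h3 := congrArg (fun u : (𝓞 L)ˣ => (u : 𝓞 L)) hv
  simp only [Units.val_mul, Units.val_pow_eq_pow_val, IsUnit.unit_spec, hf] at h3
  refine ⟨(ao - 1) ^ (i : ℕ) * (1 + ao + ao ^ 3) ^ (j : ℕ), v, ?_, ?_⟩
  · fin_cases i <;> fin_cases j <;> simp
  · rw [h3]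
    fin_cases a <;> simp

end Pool.Agent.P.MP_440ce3_nt
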