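import Pool.Agent.P.MP_440ce3_nt.A.Iface

/-! Step ZA of the Fermat quintic project. -/

namespace Pool.Agent.P.MP_440ce3_nt

open Polynomial NumberField

namespace ZaA

theorem top_al : Algebra.adjoin ℚ ({al} : Set L) = ⊤ := by
  refine eq_top_iff.2 fun x _ => ?_
  obtain ⟨a, b, c, d, e, rfl⟩ := exists_coords x
  have h := Algebra.self_mem_adjoin_singleton ℚ al
  have hq : ∀ r : ℚ, (r : L) ∈ Algebra.adjoin ℚ ({al} : Set L) := fun r =>
    Subalgebra.algebraMap_mem _ r
  exact add_mem (add_mem (add_mem (add_mem (hq a) (mul_mem (hq b) h))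
    (mul_mem (hq c) (pow_mem h 2))) (mul_mem (hq d) (pow_mem h 3))) (mul_mem (hq e) (pow_mem h 4))

theorem adj_sub (A : Type) [CommRing A] [Algebra A L] :
    Algebra.adjoin A ({al - 2} : Set L) = Algebra.adjoin A {al} := by
  refine le_antisymm (Algebra.adjoin_le ?_) (Algebra.adjoin_le ?_)
  · rintro _ rfl
    exact sub_mem (Algebra.self_mem_adjoin_singleton A al) (ofNat_mem _ 2)
  · rintro _ rfl
    simpa using add_mem (Algebra.self_mem_adjoin_singleton A (al - 2)) (ofNat_mem _ 2)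

theorem eis {g : L} (hg : IsIntegral ℤ g) (ht : Algebra.adjoin ℚ ({g} : Set L) = ⊤) {f : ℤ[X]}
    (hm : f.Monic) (hd : f.natDegree ≤ 5) (h0 : aeval g f = 0) {p : ℤ} (hp : Prime p)
    (he : f.IsEisensteinAt (Submodule.span ℤ {p})) {n : ℕ} {z : L} (hz : IsIntegral ℤ z)
    (h : p ^ n • z ∈ Algebra.adjoin ℤ ({g} : Set L)) : z ∈ Algebra.adjoin ℤ ({g} : Set L) := by
  let B : PowerBasis ℚ L := PowerBasis.ofAdjoinEqTop hg.tower_top ht
  have hB : B.gen = g := PowerBasis.ofAdjoinEqTop_gen _ _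
  have h1 : (minpoly ℚ g).natDegree = 5 := by
    rw [← hB, B.natDegree_minpoly, ← B.finrank, finrank_L]
  rw [minpoly.isIntegrallyClosed_eq_field_fractions' ℚ hg, (minpoly.monic hg).natDegree_map] at h1
  have h2 : f = minpoly ℤ g := eq_of_monic_of_dvd_of_natDegree_le (minpoly.monic hg) hm
    (minpoly.isIntegrallyClosed_dvd hg h0) (h1 ▸ hd)
  rw [← hB] at hg h h2 ⊢
  exact mem_adjoin_of_smul_prime_pow_smul_of_minpoly_isEisensteinAt hp hg hz h (h2 ▸ he)

theorem disc {z : L} (hz : IsIntegral ℤ z) :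
    (50000 : ℚ) • z ∈ Algebra.adjoin ℤ ({al} : Set L) := by
  let B : PowerBasis ℚ L := PowerBasis.ofAdjoinEqTop al_isIntegral.tower_top top_al
  have hB : B.gen = al := PowerBasis.ofAdjoinEqTop_gen _ _
  have h := Algebra.discr_mul_isIntegral_mem_adjoin ℚ (B := B) (hB ▸ al_isIntegral) hz
  have e : aeval al (derivative (X ^ 5 - C 2 : ℚ[X])) = ((0 : ℚ) : L) + (0 : ℚ) * al +
      (0 : ℚ) * al ^ 2 + (0 : ℚ) * al ^ 3 + (5 : ℚ) * al ^ 4 := by
    simp
    norm_num
  rw [Algebra.discr_powerBasis_eq_norm, finrank_L, hB, minpoly_al, e, norm_coords] at h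
  norm_num [Nf] at h
  exact h

theorem mem_adj {z : L} (hz : IsIntegral ℤ z) : z ∈ Algebra.adjoin ℤ ({al} : Set L) := by
  have h1 : (2 : ℤ) ^ 4 • ((5 : ℤ) ^ 5 • z) ∈ Algebra.adjoin ℤ ({al} : Set L) := by
    have e : (2 : ℤ) ^ 4 • ((5 : ℤ) ^ 5 • z) = (50000 : ℚ) • z := by
      rw [smul_smul, Rat.smul_def, zsmul_eq_mul]
      norm_num
    exact e ▸ disc hz
  have h2 := eis al_isIntegral top_al (f := X ^ 5 - C 2) (monic_X_pow_sub_C _ (by norm_num))
    (by rw [natDegree_X_pow_sub_C]) (by simp [al_pow, map_ofNat]) Int.prime_two ?_ (hz.zsmul _) h1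
  · rw [← adj_sub] at h2 ⊢
    have hm : (X ^ 5 + C 10 * X ^ 4 + C 40 * X ^ 3 + C 80 * X ^ 2 + C 80 * X + C 30 :
      ℤ[X]).Monic := by monicity!
    have hd : (X ^ 5 + C 10 * X ^ 4 + C 40 * X ^ 3 + C 80 * X ^ 2 + C 80 * X + C 30 :
      ℤ[X]).natDegree ≤ 5 := by compute_degree
    refine eis (g := al - 2) (al_isIntegral.sub (isIntegral_algebraMap (x := 2)))
      (by rw [adj_sub, top_al]) hm hd ?_ (Nat.prime_iff_prime_int.1 Nat.prime_five) ⟨?_, fun {n} hn => ?_, ?_⟩ hz h2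
    · simp only [map_add, map_mul, map_pow, aeval_X, aeval_C]
      simp only [map_ofNat]
      linear_combination al_pow
    · rw [hm.leadingCoeff, Ideal.submodule_span_eq, Ideal.mem_span_singleton]
      norm_num
    · have : n < 5 := hn.trans_le hd
      rw [Ideal.submodule_span_eq, Ideal.mem_span_singleton]
      interval_cases n <;> simp [coeff_X, coeff_X_pow, coeff_C, -eq_intCast]
    · rw [Ideal.submodule_span_eq, Ideal.span_singleton_pow, Ideal.mem_span_singleton]
      simp [coeff_X, coeff_X_pow, coeff_C, -eq_intCast]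
  · refine ⟨?_, fun {n} hn => ?_, ?_⟩
    · rw [(monic_X_pow_sub_C _ (by norm_num)).leadingCoeff, Ideal.submodule_span_eq,
        Ideal.mem_span_singleton]
      norm_num
    · rw [natDegree_X_pow_sub_C] at hn
      rw [Ideal.submodule_span_eq, Ideal.mem_span_singleton]
      interval_cases n <;> simp [coeff_X_pow, coeff_C, -eq_intCast]
    · rw [Ideal.submodule_span_eq, Ideal.span_singleton_pow, Ideal.mem_span_singleton]
      simp [coeff_X_pow, coeff_C, -eq_intCast]

theorem coords {z : L} (hz : z ∈ Algebra.adjoin ℤ ({al} : Set L)) :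
    ∃ a b c d e : ℤ, z = (a : L) + b * al + c * al ^ 2 + d * al ^ 3 + e * al ^ 4 := by
  induction hz using Algebra.adjoin_induction with
  | mem x hx => exact ⟨0, 1, 0, 0, 0, by simpa using hx⟩
  | algebraMap r => exact ⟨r, 0, 0, 0, 0, by simp⟩
  | add x y _ _ hx hy =>
    obtain ⟨a, b, c, d, e, rfl⟩ := hx
    obtain ⟨a', b', c', d', e', rfl⟩ := hy
    exact ⟨a + a', b + b', c + c', d + d', e + e', by push_cast; ring⟩
  | mul x y _ _ hx hy =>
    obtain ⟨a, b, c, d, e, rfl⟩ := hx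
    obtain ⟨a', b', c', d', e', rfl⟩ := hy
    refine ⟨a * a' + 2 * (b * e' + c * d' + d * c' + e * b'),
      a * b' + b * a' + 2 * (c * e' + d * d' + e * c'),
      a * c' + b * b' + c * a' + 2 * (d * e' + e * d'),
      a * d' + b * c' + c * b' + d * a' + 2 * (e * e'),
      a * e' + b * d' + c * c' + d * b' + e * a', ?_⟩
    push_cast
    linear_combination ((b * e' + c * d' + d * c' + e * b' : L) + (c * e' + d * d' + e * c') * al +
      (d * e' + e * d') * al ^ 2 + e * e' * al ^ 3) * al_pow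

end ZaA

theorem p_ZA :
    S_ZA := by
  intro x
  obtain ⟨a, b, c, d, e, h⟩ := ZaA.coords (ZaA.mem_adj (RingOfIntegers.isIntegral_coe x))
  refine ⟨a, b, c, d, e, RingOfIntegers.coe_injective ?_⟩
  simpa [coe_ao] using h

end Pool.Agent.P.MP_440ce3_nt
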